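import Pool.Agent.Lib.MP_f2fc00_lc.Outer

set_option autoImplicit false

namespace Pool.Agent.Lib.MP_f2fc00_lc

open Finset

section Back

variable {n m d : ℕ} {A : Fin (2 * n) → Fin m → Bool}

/-- truth value of the variable of row `r` -/
def X (x : Fin n → Bool) (r : Fin (2 * n)) : Prop := x ⟨r.val / 2, by omega⟩ = true

instance (x : Fin n → Bool) (r : Fin (2 * n)) : Decidable (X x r) := by unfold X; infer_instance

/-- The orientation belonging to a satisfying assignment `x` together with a choice `sel j` of a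
true literal in every clause `j`. -/
def arcP (x : Fin n → Bool) (sel : Fin m → Fin (2 * n)) (A : Fin (2 * n) → Fin m → Bool)
    (u v : Outer n m) : Prop :=
  match u.2, v.2 with
  | Kind.p, Kind.q => (u.1 = v.1 ∧ ¬ X x u.1.1) ∨ (Next v.1 u.1 ∧ X x u.1.1)
  | Kind.q, Kind.p => (u.1 = v.1 ∧ X x u.1.1) ∨ (Next u.1 v.1 ∧ ¬ X x u.1.1)
  | Kind.p, Kind.t => u.1 = v.1 ∧ ¬ X x u.1.1
  | Kind.t, Kind.p => u.1 = v.1 ∧ X x u.1.1
  | Kind.q, Kind.t => u.1 = v.1 ∧ X x u.1.1
  | Kind.t, Kind.q => u.1 = v.1 ∧ ¬ X x u.1.1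
  | Kind.p, Kind.c => u.1 = v.1 ∧ A u.1.1 u.1.2 = true ∧ u.1.1.val % 2 = 0 ∧ u.1.1 = sel u.1.2
  | Kind.c, Kind.p => u.1 = v.1 ∧ A u.1.1 u.1.2 = true ∧ u.1.1.val % 2 = 0 ∧ u.1.1 ≠ sel u.1.2
  | Kind.q, Kind.c => u.1 = v.1 ∧ A u.1.1 u.1.2 = true ∧ u.1.1.val % 2 = 1 ∧ u.1.1 = sel u.1.2
  | Kind.c, Kind.q => u.1 = v.1 ∧ A u.1.1 u.1.2 = true ∧ u.1.1.val % 2 = 1 ∧ u.1.1 ≠ sel u.1.2
  | Kind.c, Kind.c => u.1.2 = v.1.2 ∧
      ((v.1.1.val = u.1.1.val + 1 ∧ (sel u.1.2).val ≤ u.1.1.val) ∨
       (u.1.1.val = v.1.1.val + 1 ∧ u.1.1.val ≤ (sel u.1.2).val))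
  | _, _ => False

open Classical in
/-- The arc set of `arcP`. -/
noncomputable def arcs (x : Fin n → Bool) (sel : Fin m → Fin (2 * n))
    (A : Fin (2 * n) → Fin m → Bool) : Finset (Outer n m × Outer n m) :=
  univ.filter fun a => arcP x sel A a.1 a.2

variable {x : Fin n → Bool} {sel : Fin m → Fin (2 * n)}

theorem mem_arcs {u v : Outer n m} : (u, v) ∈ arcs x sel A ↔ arcP x sel A u v := by
  simp [arcs]

theorem Next.X_iff {κ κ' : Cell n m} (h : Next κ κ') : X x κ'.1 ↔ X x κ.1 := by
  have h1 : κ'.1.val / 2 = κ.1.val / 2 := by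
    rcases h with h | h
    · rw [h.1]
    · omega
  unfold X
  have h2 : (⟨κ'.1.val / 2, by omega⟩ : Fin n) = ⟨κ.1.val / 2, by omega⟩ := Fin.ext h1
  rw [h2]

theorem Next.irrefl {κ : Cell n m} : ¬ Next κ κ := fun h => h.ne rfl

theorem Next.inj_left {κ κ' κ'' : Cell n m} (h : Next κ κ'') (h' : Next κ' κ'') : κ = κ' := by
  obtain ⟨r, j⟩ := κ
  obtain ⟨r', j'⟩ := κ'
  obtain ⟨r'', j''⟩ := κ''
  unfold Next at h h'
  simp only [Fin.ext_iff] at h h'
  rw [Prod.mk.injEq, Fin.ext_iff, Fin.ext_iff]
  omega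

theorem Next.inj_right {κ κ' κ'' : Cell n m} (h : Next κ κ') (h' : Next κ κ'') : κ' = κ'' := by
  obtain ⟨r, j⟩ := κ
  obtain ⟨r', j'⟩ := κ'
  obtain ⟨r'', j''⟩ := κ''
  unfold Next at h h'
  simp only [Fin.ext_iff] at h h'
  rw [Prod.mk.injEq, Fin.ext_iff, Fin.ext_iff]
  omega

theorem arcs_isOrientation : IsOrientation (outerGraph A) (arcs x sel A) := by
  constructor
  · rintro ⟨κ, k⟩ ⟨κ', k'⟩ h
    rw [mem_arcs] at h
    unfold arcP at h
    show outerRel A _ _ ∨ outerRel A _ _
    unfold outerRel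
    cases k <;> cases k' <;> simp only [or_false, false_or] at h ⊢
    · rcases h with h | h
      · exact Or.inl h.1
      · exact Or.inr h.1
    · exact h.1
    · obtain ⟨rfl, h1, h2, -⟩ := h; exact ⟨rfl, h1, h2⟩
    · rcases h with h | h
      · exact Or.inr h.1.symm
      · exact Or.inl h.1
    · exact h.1
    · obtain ⟨rfl, h1, h2, -⟩ := h; exact ⟨rfl, h1, h2⟩
    · exact h.1.symm
    · exact h.1.symm
    · obtain ⟨rfl, h1, h2, -⟩ := h; exact ⟨rfl, h1, h2⟩
    · obtain ⟨rfl, h1, h2, -⟩ := h; exact ⟨rfl, h1, h2⟩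
    · rcases h with ⟨h1, h | h⟩
      · exact Or.inl ⟨h1, h.1⟩
      · exact Or.inr ⟨h1.symm, h.1⟩
  · rintro ⟨κ, k⟩ ⟨κ', k'⟩ h
    rw [mem_arcs, mem_arcs]
    have h' : outerRel A (κ, k) (κ', k') ∨ outerRel A (κ', k') (κ, k) := h
    unfold outerRel at h'
    unfold arcP
    cases k <;> cases k' <;> simp only [or_false, false_or] at h' ⊢
    · -- p q
      rcases h' with h' | h'
      · subst h'
        have := @Next.irrefl n m κ
        tauto
      · have h1 := h'.ne
        have h2 := h'.X_iff (x := x)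
        have h3 : ¬ κ' = κ := fun h => h1 h.symm
        have h4 : ¬ κ = κ' := fun h => h1 h
        tauto
    · subst h'; tauto
    · obtain ⟨rfl, h1, h2⟩ := h'; tauto
    · rcases h' with h' | h'
      · have h1 := h'.ne
        have h2 := h'.X_iff (x := x)
        have h3 : ¬ κ' = κ := fun h => h1 h
        have h4 : ¬ κ = κ' := fun h => h1 h.symm
        tauto
      · subst h'
        have := @Next.irrefl n m κ'
        tauto
    · subst h'; tauto
    · obtain ⟨rfl, h1, h2⟩ := h'; tauto
    · subst h'; tauto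
    · subst h'; tauto
    · obtain ⟨rfl, h1, h2⟩ := h'; tauto
    · obtain ⟨rfl, h1, h2⟩ := h'; tauto
    · rcases h' with ⟨h1, h2⟩ | ⟨h1, h2⟩
      · rw [← h1]
        constructor
        · rintro ⟨-, h | h⟩ ⟨-, g | g⟩ <;> omega
        · intro h
          refine ⟨rfl, Or.inl ⟨h2, ?_⟩⟩
          by_contra h3
          exact h ⟨rfl, Or.inr ⟨h2, by omega⟩⟩
      · rw [← h1]
        constructor
        · rintro ⟨-, h | h⟩ ⟨-, g | g⟩ <;> omega
        · intro h
          refine ⟨rfl, Or.inr ⟨h2, ?_⟩⟩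
          by_contra h3
          exact h ⟨rfl, Or.inl ⟨h2, by omega⟩⟩

theorem outdeg_le {V : Type*} [DecidableEq V] (D : Finset (V × V)) (v : V) (U : Finset V)
    (h : ∀ u, (v, u) ∈ D → u ∈ U) : outdeg D v ≤ U.card := by
  unfold outdeg
  apply card_le_card_of_injOn (fun a => a.2)
  · rintro ⟨a, b⟩ hu
    simp only [coe_filter, Set.mem_setOf_eq] at hu
    obtain ⟨hu, rfl⟩ := hu
    exact h _ hu
  · rintro ⟨a, b⟩ hu ⟨a', b'⟩ hu' hh
    simp only [coe_filter, Set.mem_setOf_eq] at hu hu' hh
    rw [hu.2, hu'.2, hh]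

theorem outdeg_arcs (hd : 2 ≤ d) (hn : 0 < n)
    (hsel : ∀ j, A (sel j) j = true ∧ litTrue x (sel j)) (w : Outer n m) :
    outdeg (arcs x sel A) w + cost d A w ≤ d := by
  classical
  have hX : ∀ j, X x (sel j) ↔ (sel j).val % 2 = 0 := fun j => (hsel j).2
  obtain ⟨⟨r, j⟩, k⟩ := w
  cases k
  · -- p
    have h2 : outdeg (arcs x sel A) ((r, j), Kind.p) ≤ 2 := by
      by_cases hx : X x r
      · by_cases hprev : ∃ κ0, Next κ0 (r, j)
        · obtain ⟨κ0, hκ0⟩ := hprev
          refine (outdeg_le _ _ {(κ0, Kind.q), ((r, j), Kind.c)} ?_).trans (card_le_two)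
          rintro ⟨κ', k'⟩ hu
          rw [mem_arcs] at hu
          unfold arcP at hu
          cases k' <;> simp only [hx, not_true, and_false, and_true, false_or, or_false] at hu
          · rw [hu.inj_left hκ0]; simp
          · rw [← hu.1]; simp
        · refine (outdeg_le _ _ {((r, j), Kind.c)} ?_).trans (by simp)
          rintro ⟨κ', k'⟩ hu
          rw [mem_arcs] at hu
          unfold arcP at hu
          cases k' <;> simp only [hx, not_true, and_false, and_true, false_or, or_false] at hu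
          · exact absurd ⟨_, hu⟩ hprev
          · rw [← hu.1]; simp
      · refine (outdeg_le _ _ {((r, j), Kind.q), ((r, j), Kind.t)} ?_).trans (card_le_two)
        rintro ⟨κ', k'⟩ hu
        rw [mem_arcs] at hu
        unfold arcP at hu
        cases k' <;>
          simp only [hx, not_false_iff, and_false, and_true, false_or, or_false] at hu
        · rw [← hu]; simp
        · rw [← hu]; simp
        · exfalso
          obtain ⟨-, -, h3, h4⟩ := hu
          rw [h4] at hx h3
          exact hx ((hX j).mpr h3)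
    simp only [cost]; omega
  · -- q
    have h2 : outdeg (arcs x sel A) ((r, j), Kind.q) ≤ 2 := by
      by_cases hx : X x r
      · refine (outdeg_le _ _ {((r, j), Kind.p), ((r, j), Kind.t)} ?_).trans (card_le_two)
        rintro ⟨κ', k'⟩ hu
        rw [mem_arcs] at hu
        unfold arcP at hu
        cases k' <;>
          simp only [hx, not_true, and_false, and_true, false_or, or_false] at hu
        · rw [← hu]; simp
        · rw [← hu]; simp
        · exfalso
          obtain ⟨-, -, h3, h4⟩ := hu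
          rw [h4] at hx h3
          have := (hX j).mp hx
          omega
      · by_cases hnext : ∃ κ0, Next (r, j) κ0
        · obtain ⟨κ0, hκ0⟩ := hnext
          refine (outdeg_le _ _ {(κ0, Kind.p), ((r, j), Kind.c)} ?_).trans (card_le_two)
          rintro ⟨κ', k'⟩ hu
          rw [mem_arcs] at hu
          unfold arcP at hu
          cases k' <;> simp only [hx, not_false_iff, and_false, and_true, false_or, or_false] at hu
          · rw [hu.inj_right hκ0]; simp
          · rw [← hu.1]; simp
        · refine (outdeg_le _ _ {((r, j), Kind.c)} ?_).trans (by simp)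
          rintro ⟨κ', k'⟩ hu
          rw [mem_arcs] at hu
          unfold arcP at hu
          cases k' <;> simp only [hx, not_false_iff, and_false, and_true, false_or, or_false] at hu
          · exact absurd ⟨_, hu⟩ hnext
          · rw [← hu.1]; simp
    simp only [cost]; omega
  · -- t
    have h2 : outdeg (arcs x sel A) ((r, j), Kind.t) ≤ 1 := by
      by_cases hx : X x r
      · refine (outdeg_le _ _ {((r, j), Kind.p)} ?_).trans (by simp)
        rintro ⟨κ', k'⟩ hu
        rw [mem_arcs] at hu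
        unfold arcP at hu
        cases k' <;>
          simp only [hx, not_true, and_false, and_true, false_or, or_false] at hu
        rw [← hu]; simp
      · refine (outdeg_le _ _ {((r, j), Kind.q)} ?_).trans (by simp)
        rintro ⟨κ', k'⟩ hu
        rw [mem_arcs] at hu
        unfold arcP at hu
        cases k' <;>
          simp only [hx, not_false_iff, and_false, and_true, false_or, or_false] at hu
        rw [← hu]; simp
    simp only [cost]; omega
  · -- c
    let U1 : Finset (Outer n m) := if h : (sel j).val ≤ r.val ∧ r.val + 1 < 2 * n then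
      {((⟨r.val + 1, h.2⟩, j), Kind.c)} else ∅
    let U2 : Finset (Outer n m) := if h : r.val ≤ (sel j).val ∧ 0 < r.val then
      {((⟨r.val - 1, by omega⟩, j), Kind.c)} else ∅
    let U3 : Finset (Outer n m) := if A r j = true ∧ r ≠ sel j then
      {((r, j), if r.val % 2 = 0 then Kind.p else Kind.q)} else ∅
    have h1 : outdeg (arcs x sel A) ((r, j), Kind.c) ≤ (U1 ∪ U2 ∪ U3).card := by
      apply outdeg_le
      rintro ⟨⟨r', j'⟩, k'⟩ hu
      rw [mem_arcs] at hu
      unfold arcP at hu
      simp only [mem_union]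
      cases k' <;> simp only at hu
      · right
        obtain ⟨h3, h4, h5, h6⟩ := hu
        simp only [U3]
        rw [if_pos ⟨h4, h6⟩, if_pos h5, h3, mem_singleton]
      · right
        obtain ⟨h3, h4, h5, h6⟩ := hu
        simp only [U3]
        rw [if_pos ⟨h4, h6⟩, if_neg (by omega), h3, mem_singleton]
      · left
        obtain ⟨rfl, ⟨h4, h5⟩ | ⟨h4, h5⟩⟩ := hu
        · left
          have h6 : (sel j).val ≤ r.val ∧ r.val + 1 < 2 * n := ⟨h5, by omega⟩
          simp only [U1]
          rw [dif_pos h6, mem_singleton, Prod.mk.injEq, Prod.mk.injEq]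
          exact ⟨⟨Fin.ext h4, rfl⟩, rfl⟩
        · right
          have h6 : r.val ≤ (sel j).val ∧ 0 < r.val := ⟨h5, by omega⟩
          simp only [U2]
          rw [dif_pos h6, mem_singleton, Prod.mk.injEq, Prod.mk.injEq]
          exact ⟨⟨Fin.ext (by simp only; omega), rfl⟩, rfl⟩
    have h2 : (U1 ∪ U2 ∪ U3).card ≤ U1.card + U2.card + U3.card :=
      (card_union_le _ _).trans (by have := card_union_le U1 U2; omega)
    have c1 : U1.card = if (sel j).val ≤ r.val ∧ r.val + 1 < 2 * n then 1 else 0 := by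
      simp only [U1]; split_ifs <;> simp
    have c2 : U2.card = if r.val ≤ (sel j).val ∧ 0 < r.val then 1 else 0 := by
      simp only [U2]; split_ifs <;> simp
    have c3 : U3.card = if A r j = true ∧ r ≠ sel j then 1 else 0 := by
      simp only [U3]; split_ifs <;> simp
    rw [c1, c2, c3] at h2
    have h3 := (hsel j).1
    have hr := r.2
    have hs := (sel j).2
    simp only [cost]
    by_cases hA : A r j = true
    · rw [if_pos hA]
      by_cases hr' : r = sel j
      · have e : r.val = (sel j).val := by rw [hr']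
        split_ifs at h2 ⊢ <;> omega
      · have e : r.val ≠ (sel j).val := fun h => hr' (Fin.ext h)
        split_ifs at h2 ⊢ <;> omega
    · rw [if_neg hA]
      have hr' : r ≠ sel j := by rintro rfl; exact hA h3
      have e : r.val ≠ (sel j).val := fun h => hr' (Fin.ext h)
      split_ifs at h2 ⊢ <;> first | omega | tauto

end Back

end Pool.Agent.Lib.MP_f2fc00_lc
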