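import Pool.Agent.Lib.MP_f2fc00_lc.Defs

set_option autoImplicit false

namespace Pool.Agent.Lib.MP_f2fc00_lc

open Finset

section General

variable {V : Type*} [DecidableEq V]

open Classical in
/-- The signed number of Eulerian subgraphs. -/
noncomputable def SE (D : Finset (V × V)) : ℤ :=
  ∑ F ∈ D.powerset.filter IsEulerian, (-1 : ℤ) ^ F.card

theorem SE_eq (D : Finset (V × V)) : SE D = (EE D : ℤ) - EO D := by
  classical
  unfold SE EE EO
  have h1 : D.powerset.filter IsEulerian
      = (D.powerset.filter fun F => IsEulerian F ∧ Even F.card) ∪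
        (D.powerset.filter fun F => IsEulerian F ∧ Odd F.card) := by
    ext F
    simp only [mem_filter, mem_union]
    constructor
    · rintro ⟨h, h'⟩
      rcases Nat.even_or_odd F.card with h2 | h2
      · exact Or.inl ⟨h, h', h2⟩
      · exact Or.inr ⟨h, h', h2⟩
    · rintro (⟨h, h', -⟩ | ⟨h, h', -⟩) <;> exact ⟨h, h'⟩
  have h2 : Disjoint (D.powerset.filter fun F => IsEulerian F ∧ Even F.card)
        (D.powerset.filter fun F => IsEulerian F ∧ Odd F.card) := by
    rw [Finset.disjoint_left]
    intro F h h'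
    simp only [mem_filter] at h h'
    exact (Nat.not_even_iff_odd.mpr h'.2.2) h.2.2
  rw [h1, sum_union h2]
  have h3 : ∑ F ∈ D.powerset.filter (fun F => IsEulerian F ∧ Even F.card), (-1 : ℤ) ^ F.card
      = ∑ F ∈ D.powerset.filter (fun F => IsEulerian F ∧ Even F.card), 1 := by
    apply sum_congr rfl
    intro F hF
    simp only [mem_filter] at hF
    exact hF.2.2.neg_one_pow
  have h4 : ∑ F ∈ D.powerset.filter (fun F => IsEulerian F ∧ Odd F.card), (-1 : ℤ) ^ F.card
      = ∑ F ∈ D.powerset.filter (fun F => IsEulerian F ∧ Odd F.card), (-1) := by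
    apply sum_congr rfl
    intro F hF
    simp only [mem_filter] at hF
    exact hF.2.2.neg_one_pow
  rw [h3, h4]
  simp
  ring

theorem SE_ne_zero_iff (D : Finset (V × V)) : SE D ≠ 0 ↔ EE D ≠ EO D := by
  rw [SE_eq, sub_ne_zero]
  norm_cast

/-- boundary of an arc at a vertex -/
def bd (a : V × V) (v : V) : ℤ := (if a.1 = v then 1 else 0) - (if a.2 = v then 1 else 0)

theorem sum_bd (F : Finset (V × V)) (v : V) :
    ∑ a ∈ F, bd a v = (outdeg F v : ℤ) - indeg F v := by
  unfold bd outdeg indeg
  rw [sum_sub_distrib]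
  simp

theorem isEulerian_iff (F : Finset (V × V)) : IsEulerian F ↔ ∀ v, ∑ a ∈ F, bd a v = 0 := by
  unfold IsEulerian
  apply forall_congr'
  intro v
  rw [sum_bd, sub_eq_zero]
  norm_cast
  exact eq_comm

/-- sign of an arc in the orientation obtained by reversing `F` -/
def eps (F : Finset (V × V)) (a : V × V) : ℤ := if a ∈ F then -1 else 1

/-- The part `T` of the arcs is circulation-like after reversing `F`. -/
def Balanced (T F : Finset (V × V)) : Prop := ∀ v, ∑ a ∈ T, eps F a * bd a v = 0

theorem sum_symmDiff_bd (T F : Finset (V × V)) (v : V) :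
    ∑ a ∈ symmDiff F T, bd a v = ∑ a ∈ F, bd a v + ∑ a ∈ T, eps F a * bd a v := by
  have h1 : symmDiff F T = (F \ T) ∪ (T \ F) := rfl
  have hd : Disjoint (F \ T) (T \ F) := by
    rw [Finset.disjoint_left]; intro a h h'
    simp only [mem_sdiff] at h h'
    exact h'.2 h.1
  rw [h1, sum_union hd]
  have h2 : ∑ a ∈ F, bd a v = ∑ a ∈ F \ T, bd a v + ∑ a ∈ F ∩ T, bd a v := by
    rw [add_comm, ← sum_inter_add_sum_sdiff F T]
  have h3 : ∑ a ∈ T, eps F a * bd a v
      = ∑ a ∈ T \ F, bd a v - ∑ a ∈ F ∩ T, bd a v := by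
    rw [← sum_inter_add_sum_sdiff T F]
    have e1 : ∑ a ∈ T ∩ F, eps F a * bd a v = - ∑ a ∈ F ∩ T, bd a v := by
      rw [inter_comm, ← sum_neg_distrib]
      apply sum_congr rfl
      intro a ha
      rw [mem_inter] at ha
      simp [eps, ha.1]
    have e2 : ∑ a ∈ T \ F, eps F a * bd a v = ∑ a ∈ T \ F, bd a v := by
      apply sum_congr rfl
      intro a ha
      rw [mem_sdiff] at ha
      simp [eps, ha.2]
    rw [e1, e2]; ring
  rw [h2, h3]; ring

theorem eps_symmDiff_of_mem {T F : Finset (V × V)} {a : V × V} (ha : a ∈ T) :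
    eps (symmDiff F T) a = - eps F a := by
  unfold eps
  simp only [mem_symmDiff]
  by_cases h : a ∈ F <;> simp [h, ha]

theorem eps_symmDiff_of_notMem {T F : Finset (V × V)} {a : V × V} (ha : a ∉ T) :
    eps (symmDiff F T) a = eps F a := by
  unfold eps
  simp only [mem_symmDiff]
  by_cases h : a ∈ F <;> simp [h, ha]

theorem balanced_symmDiff_self (T F : Finset (V × V)) :
    Balanced T (symmDiff F T) ↔ Balanced T F := by
  unfold Balanced
  apply forall_congr'
  intro v
  have : ∑ a ∈ T, eps (symmDiff F T) a * bd a v = - ∑ a ∈ T, eps F a * bd a v := by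
    rw [← sum_neg_distrib]
    apply sum_congr rfl
    intro a ha
    rw [eps_symmDiff_of_mem ha]; ring
  rw [this, neg_eq_zero]

theorem balanced_symmDiff_disjoint {T T' : Finset (V × V)} (h : Disjoint T T')
    (F : Finset (V × V)) :
    Balanced T' (symmDiff F T) ↔ Balanced T' F := by
  unfold Balanced
  apply forall_congr'
  intro v
  have : ∑ a ∈ T', eps (symmDiff F T) a * bd a v = ∑ a ∈ T', eps F a * bd a v := by
    apply sum_congr rfl
    intro a ha
    rw [eps_symmDiff_of_notMem (fun h' => (Finset.disjoint_left.mp h) h' ha)]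
  rw [this]

theorem neg_one_pow_card_symmDiff {T F : Finset (V × V)} (hT : Odd T.card) :
    (-1 : ℤ) ^ (symmDiff F T).card = - (-1 : ℤ) ^ F.card := by
  have h1 : (symmDiff F T).card + 2 * (F ∩ T).card = F.card + T.card := by
    have h1 : symmDiff F T = (F \ T) ∪ (T \ F) := rfl
    have hd : Disjoint (F \ T) (T \ F) := by
      rw [Finset.disjoint_left]; intro a h h'
      simp only [mem_sdiff] at h h'
      exact h'.2 h.1
    rw [h1, card_union_of_disjoint hd]
    have e1 := Finset.card_sdiff_add_card_inter F T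
    have e2 := Finset.card_sdiff_add_card_inter T F
    rw [inter_comm] at e2
    omega
  have h2 : (-1 : ℤ) ^ ((symmDiff F T).card + 2 * (F ∩ T).card) = (-1) ^ (F.card + T.card) := by
    rw [h1]
  rw [pow_add, pow_add, pow_mul, hT.neg_one_pow] at h2
  simpa using h2

open Classical in
/-- Signed count of the Eulerian subgraphs for which no `T i` is balanced. -/
noncomputable def SEgood {ι : Type*} (D : Finset (V × V)) (s : Finset ι)
    (T : ι → Finset (V × V)) : ℤ :=
  ∑ F ∈ D.powerset.filter (fun F => IsEulerian F ∧ ∀ i ∈ s, ¬ Balanced (T i) F), (-1 : ℤ) ^ F.card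

/-- **Cancellation lemma.**  If `T i` are pairwise disjoint sets of an odd number of arcs of `D`,
only those Eulerian subgraphs `F` contribute to the signed count for which no `T i` is balanced
after reversing `F`. -/
theorem SE_cancel {ι : Type*} [DecidableEq ι] (D : Finset (V × V)) (s : Finset ι)
    (T : ι → Finset (V × V)) (hTD : ∀ i ∈ s, T i ⊆ D) (hodd : ∀ i ∈ s, Odd (T i).card)
    (hdisj : ∀ i ∈ s, ∀ j ∈ s, i ≠ j → Disjoint (T i) (T j)) :
    SE D = SEgood D s T := by
  classical
  unfold SEgood
  induction s using Finset.induction_on with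
  | empty =>
    unfold SE
    apply sum_congr _ (fun _ _ => rfl)
    ext F; simp
  | insert i s his ih =>
    have ih' := ih (fun j hj => hTD j (mem_insert_of_mem hj))
      (fun j hj => hodd j (mem_insert_of_mem hj))
      (fun j hj j' hj' => hdisj j (mem_insert_of_mem hj) j' (mem_insert_of_mem hj'))
    rw [ih']
    have hsplit : D.powerset.filter (fun F => IsEulerian F ∧ ∀ j ∈ s, ¬ Balanced (T j) F)
        = (D.powerset.filter (fun F => IsEulerian F ∧ ∀ j ∈ insert i s, ¬ Balanced (T j) F)) ∪
          (D.powerset.filter (fun F => (IsEulerian F ∧ ∀ j ∈ s, ¬ Balanced (T j) F) ∧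
            Balanced (T i) F)) := by
      ext F
      simp only [mem_filter, mem_union, mem_insert, forall_eq_or_imp]
      tauto
    have hd : Disjoint
        (D.powerset.filter (fun F => IsEulerian F ∧ ∀ j ∈ insert i s, ¬ Balanced (T j) F))
          (D.powerset.filter (fun F => (IsEulerian F ∧ ∀ j ∈ s, ¬ Balanced (T j) F) ∧
            Balanced (T i) F)) := by
      rw [Finset.disjoint_left]
      intro F h h'
      simp only [mem_filter, mem_insert, forall_eq_or_imp] at h h'
      exact h.2.2.1 h'.2.2
    rw [hsplit, sum_union hd]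
    have hzero : ∑ F ∈ D.powerset.filter (fun F => (IsEulerian F ∧ ∀ j ∈ s, ¬ Balanced (T j) F) ∧
            Balanced (T i) F), (-1 : ℤ) ^ F.card = 0 := by
      apply Finset.sum_involution (fun F _ => symmDiff F (T i))
      · intro F hF
        rw [neg_one_pow_card_symmDiff (hodd i (mem_insert_self i s))]
        ring
      · intro F hF hne heq
        have h1 := neg_one_pow_card_symmDiff (F := F) (hodd i (mem_insert_self i s))
        rw [heq] at h1
        have h2 : (-1 : ℤ) ^ F.card ≠ 0 := by positivity
        exact h2 (by linarith)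
      · intro F hF
        simp only [mem_filter, mem_powerset] at hF ⊢
        obtain ⟨hFD, ⟨hE, hs⟩, hB⟩ := hF
        refine ⟨?_, ⟨?_, ?_⟩, ?_⟩
        · intro a ha
          rw [mem_symmDiff] at ha
          rcases ha with ha | ha
          · exact hFD ha.1
          · exact hTD i (mem_insert_self i s) ha.1
        · rw [isEulerian_iff] at hE ⊢
          intro v
          rw [sum_symmDiff_bd, hE v, hB v, add_zero]
        · intro j hj
          rw [balanced_symmDiff_disjoint]
          · exact hs j hj
          · apply hdisj i (mem_insert_self i s) j (mem_insert_of_mem hj)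
            rintro rfl
            exact his hj
        · rwa [balanced_symmDiff_self]
      · intro F hF
        exact symmDiff_symmDiff_cancel_right _ _
    rw [hzero, add_zero]

theorem exists_of_SEgood_ne_zero {ι : Type*} {D : Finset (V × V)} {s : Finset ι}
    {T : ι → Finset (V × V)} (h : SEgood D s T ≠ 0) :
    ∃ F ⊆ D, IsEulerian F ∧ ∀ i ∈ s, ¬ Balanced (T i) F := by
  classical
  unfold SEgood at h
  obtain ⟨F, hF, -⟩ := exists_ne_zero_of_sum_ne_zero h
  obtain ⟨hFD, hFE, hFB⟩ := Finset.mem_filter.mp hF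
  exact ⟨F, mem_powerset.mp hFD, hFE, hFB⟩

/-- If the only contributing Eulerian subgraph is the empty one, the signed count is one. -/
theorem SEgood_eq_one {ι : Type*} {D : Finset (V × V)} {s : Finset ι}
    {T : ι → Finset (V × V)} (h0 : ∀ i ∈ s, ¬ Balanced (T i) ∅)
    (h : ∀ F ⊆ D, IsEulerian F → (∀ i ∈ s, ¬ Balanced (T i) F) → F = ∅) :
    SEgood D s T = 1 := by
  classical
  unfold SEgood
  have : D.powerset.filter (fun F => IsEulerian F ∧ ∀ i ∈ s, ¬ Balanced (T i) F) = {∅} := by
    ext F
    rw [mem_filter, mem_powerset, mem_singleton]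
    constructor
    · rintro ⟨h1, h2, h3⟩; exact h F h1 h2 h3
    · rintro rfl
      refine ⟨empty_subset _, ?_, h0⟩
      intro v; simp [indeg, outdeg]
  have h2 := Finset.sum_congr (f := fun F : Finset (V × V) => (-1 : ℤ) ^ F.card)
    (g := fun F : Finset (V × V) => (-1 : ℤ) ^ F.card) this (fun _ _ => rfl)
  rw [h2]
  simp

end General

end Pool.Agent.Lib.MP_f2fc00_lc
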