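import Pool.Agent.Lib.MP_f2fc00_lc.Basic

set_option autoImplicit false

namespace Pool.Agent.Lib.MP_f2fc00_lc

open Finset

section FinV

variable {V : Type*} [DecidableEq V] [Fintype V]

theorem outdeg_eq_card (F : Finset (V × V)) (v : V) :
    outdeg F v = (univ.filter fun u => (v, u) ∈ F).card := by
  unfold outdeg
  refine card_bij' (fun a _ => a.2) (fun u _ => (v, u)) ?_ ?_ ?_ ?_
  · rintro ⟨a, b⟩ h
    simp only [mem_filter] at h
    obtain ⟨h, rfl⟩ := h
    simpa using h
  · intro u h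
    simpa using h
  · rintro ⟨a, b⟩ h
    simp only [mem_filter] at h
    obtain ⟨h, rfl⟩ := h
    rfl
  · intro u h
    rfl

theorem indeg_eq_card (F : Finset (V × V)) (v : V) :
    indeg F v = (univ.filter fun u => (u, v) ∈ F).card := by
  unfold indeg
  refine card_bij' (fun a _ => a.1) (fun u _ => (u, v)) ?_ ?_ ?_ ?_
  · rintro ⟨a, b⟩ h
    simp only [mem_filter] at h
    obtain ⟨h, rfl⟩ := h
    simpa using h
  · intro u h
    simpa using h
  · rintro ⟨a, b⟩ h
    simp only [mem_filter] at h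
    obtain ⟨h, rfl⟩ := h
    rfl
  · intro u h
    rfl

theorem sum_fst (F : Finset (V × V)) (h : V → ℤ) :
    ∑ a ∈ F, h a.1 = ∑ v, h v * outdeg F v := by
  rw [← Finset.sum_fiberwise F (fun a => a.1)]
  apply sum_congr rfl
  intro v _
  rw [Finset.sum_congr rfl (g := fun _ => h v)]
  · simp [outdeg, mul_comm]
  · intro a ha
    rw [mem_filter] at ha
    rw [ha.2]

theorem sum_snd (F : Finset (V × V)) (h : V → ℤ) :
    ∑ a ∈ F, h a.2 = ∑ v, h v * indeg F v := by
  rw [← Finset.sum_fiberwise F (fun a => a.2)]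
  apply sum_congr rfl
  intro v _
  rw [Finset.sum_congr rfl (g := fun _ => h v)]
  · simp [indeg, mul_comm]
  · intro a ha
    rw [mem_filter] at ha
    rw [ha.2]

/-- potential sums over an Eulerian subgraph vanish -/
theorem IsEulerian.sum_potential {F : Finset (V × V)} (hF : IsEulerian F) (h : V → ℤ) :
    ∑ a ∈ F, (h a.1 - h a.2) = 0 := by
  rw [sum_sub_distrib, sum_fst, sum_snd, sub_eq_zero]
  apply sum_congr rfl
  intro v _
  rw [hF v]

theorem IsEulerian.potential_eq {F : Finset (V × V)} (hF : IsEulerian F) (h : V → ℤ)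
    (hmono : ∀ a ∈ F, h a.2 ≤ h a.1) : ∀ a ∈ F, h a.1 = h a.2 := by
  have h0 := hF.sum_potential h
  rw [Finset.sum_eq_zero_iff_of_nonneg] at h0
  · intro a ha
    linarith [h0 a ha]
  · intro a ha
    linarith [hmono a ha]

theorem isEulerian_empty : IsEulerian (∅ : Finset (V × V)) := by
  intro v; simp [indeg, outdeg]

/-- If every Eulerian subgraph has an even number of arcs then the signed count is positive. -/
theorem SE_pos_of_even (D : Finset (V × V))
    (h : ∀ F ⊆ D, IsEulerian F → Even F.card) : 0 < SE D := by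
  classical
  unfold SE
  apply Finset.sum_pos
  · intro F hF
    rw [mem_filter, mem_powerset] at hF
    rw [(h F hF.1 hF.2).neg_one_pow]
    exact one_pos
  · refine ⟨∅, ?_⟩
    rw [mem_filter, mem_powerset]
    exact ⟨empty_subset _, isEulerian_empty⟩

/-- Reversing an Eulerian subgraph. -/
def rev (D F : Finset (V × V)) : Finset (V × V) := (D \ F) ∪ F.image Prod.swap

omit [Fintype V] in
theorem mem_rev {D F : Finset (V × V)} {u v : V} :
    (u, v) ∈ rev D F ↔ ((u, v) ∈ D ∧ (u, v) ∉ F) ∨ (v, u) ∈ F := by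
  unfold rev
  simp only [mem_union, mem_sdiff, mem_image, Prod.exists, Prod.swap_prod_mk, Prod.mk.injEq]
  constructor
  · rintro (h | ⟨a, b, h, rfl, rfl⟩)
    · exact Or.inl h
    · exact Or.inr h
  · rintro (h | h)
    · exact Or.inl h
    · exact Or.inr ⟨v, u, h, rfl, rfl⟩

omit [Fintype V] in
theorem isOrientation_rev {G : SimpleGraph V} {D F : Finset (V × V)} (hD : IsOrientation G D)
    (hF : F ⊆ D) : IsOrientation G (rev D F) := by
  constructor
  · intro u v h
    rw [mem_rev] at h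
    rcases h with h | h
    · exact hD.1 _ _ h.1
    · exact (hD.1 _ _ (hF h)).symm
  · intro u v huv
    have h1 := hD.2 u v huv
    rw [mem_rev, mem_rev]
    have h2 := @hF (u, v)
    have h3 := @hF (v, u)
    tauto

omit [Fintype V] in
theorem outdeg_rev {G : SimpleGraph V} {D F : Finset (V × V)} (hD : IsOrientation G D)
    (hF : F ⊆ D) (hE : IsEulerian F) (v : V) : outdeg (rev D F) v = outdeg D v := by
  unfold outdeg rev
  rw [filter_union, card_union_of_disjoint]
  · have h1 : ((F.image Prod.swap).filter fun a => a.1 = v).card = indeg F v := by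
      unfold indeg
      refine card_bij' (fun a _ => a.swap) (fun a _ => a.swap) ?_ ?_ ?_ ?_
      · rintro ⟨a, b⟩ h
        simp only [mem_filter, mem_image, Prod.exists, Prod.swap_prod_mk, Prod.mk.injEq] at h
        obtain ⟨⟨x, y, hxy, rfl, rfl⟩, rfl⟩ := h
        simpa using hxy
      · rintro ⟨a, b⟩ h
        simp only [mem_filter] at h
        obtain ⟨h, rfl⟩ := h
        simp only [Prod.swap_prod_mk, mem_filter, mem_image, Prod.exists, Prod.mk.injEq, and_true]
        exact ⟨a, b, h, rfl, rfl⟩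
      · rintro ⟨a, b⟩ h; rfl
      · rintro ⟨a, b⟩ h; rfl
    rw [h1, hE v]
    unfold outdeg
    have h2 : (D \ F).filter (fun a => a.1 = v) = (D.filter fun a => a.1 = v) \
        (F.filter fun a => a.1 = v) := by
      ext a; simp only [mem_filter, mem_sdiff]; tauto
    rw [h2, card_sdiff_of_subset (filter_subset_filter _ hF)]
    have h3 := card_le_card (filter_subset_filter (fun a => a.1 = v) hF)
    omega
  · rw [Finset.disjoint_left]
    rintro ⟨a, b⟩ h h'
    simp only [mem_filter, mem_sdiff] at h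
    simp only [mem_filter, mem_image, Prod.exists, Prod.swap_prod_mk, Prod.mk.injEq] at h'
    obtain ⟨⟨x, y, hxy, rfl, rfl⟩, -⟩ := h'
    have h4 := hF hxy
    have h5 := hD.1 _ _ h4
    exact ((hD.2 _ _ h5).mp h4) h.1.1

end FinV

section Sum

variable {B W : Type*} [DecidableEq B] [DecidableEq W] [Fintype B] [Fintype W]

/-- arcs inside the left part -/
def resL (D : Finset ((B ⊕ W) × (B ⊕ W))) : Finset (B × B) :=
  univ.filter fun a => ((Sum.inl a.1 : B ⊕ W), (Sum.inl a.2 : B ⊕ W)) ∈ D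

/-- arcs inside the right part -/
def resR (D : Finset ((B ⊕ W) × (B ⊕ W))) : Finset (W × W) :=
  univ.filter fun a => ((Sum.inr a.1 : B ⊕ W), (Sum.inr a.2 : B ⊕ W)) ∈ D

/-- union of a left and a right arc set -/
def join (F₁ : Finset (B × B)) (F₂ : Finset (W × W)) : Finset ((B ⊕ W) × (B ⊕ W)) :=
  F₁.image (fun a => (Sum.inl a.1, Sum.inl a.2)) ∪ F₂.image (fun a => (Sum.inr a.1, Sum.inr a.2))

omit [Fintype B] [Fintype W] in
@[simp] theorem join_ll {F₁ : Finset (B × B)} {F₂ : Finset (W × W)} {a b : B} :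
    ((Sum.inl a : B ⊕ W), (Sum.inl b : B ⊕ W)) ∈ join F₁ F₂ ↔ (a, b) ∈ F₁ := by
  simp [join]

omit [Fintype B] [Fintype W] in
@[simp] theorem join_rr {F₁ : Finset (B × B)} {F₂ : Finset (W × W)} {a b : W} :
    ((Sum.inr a : B ⊕ W), (Sum.inr b : B ⊕ W)) ∈ join F₁ F₂ ↔ (a, b) ∈ F₂ := by
  simp [join]

omit [Fintype B] [Fintype W] in
@[simp] theorem join_lr {F₁ : Finset (B × B)} {F₂ : Finset (W × W)} {a : B} {b : W} :
    ((Sum.inl a : B ⊕ W), (Sum.inr b : B ⊕ W)) ∉ join F₁ F₂ := by
  simp [join]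

omit [Fintype B] [Fintype W] in
@[simp] theorem join_rl {F₁ : Finset (B × B)} {F₂ : Finset (W × W)} {a : W} {b : B} :
    ((Sum.inr a : B ⊕ W), (Sum.inl b : B ⊕ W)) ∉ join F₁ F₂ := by
  simp [join]

@[simp] theorem mem_resL {D : Finset ((B ⊕ W) × (B ⊕ W))} {a b : B} :
    (a, b) ∈ resL D ↔ ((Sum.inl a : B ⊕ W), (Sum.inl b : B ⊕ W)) ∈ D := by
  simp [resL]

@[simp] theorem mem_resR {D : Finset ((B ⊕ W) × (B ⊕ W))} {a b : W} :
    (a, b) ∈ resR D ↔ ((Sum.inr a : B ⊕ W), (Sum.inr b : B ⊕ W)) ∈ D := by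
  simp [resR]

@[simp] theorem resL_join (F₁ : Finset (B × B)) (F₂ : Finset (W × W)) :
    resL (join F₁ F₂) = F₁ := by
  ext ⟨a, b⟩; simp

@[simp] theorem resR_join (F₁ : Finset (B × B)) (F₂ : Finset (W × W)) :
    resR (join F₁ F₂) = F₂ := by
  ext ⟨a, b⟩; simp

omit [Fintype B] [Fintype W] in
theorem card_join (F₁ : Finset (B × B)) (F₂ : Finset (W × W)) :
    (join F₁ F₂).card = F₁.card + F₂.card := by
  unfold join
  rw [card_union_of_disjoint, card_image_of_injective, card_image_of_injective]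
  · rintro ⟨a, b⟩ ⟨c, d⟩ h; simpa using h
  · rintro ⟨a, b⟩ ⟨c, d⟩ h; simpa using h
  · rw [Finset.disjoint_left]
    rintro x h h'
    simp only [mem_image] at h h'
    obtain ⟨a, -, rfl⟩ := h
    obtain ⟨b, -, h⟩ := h'
    simp at h

omit [Fintype B] [Fintype W] in
theorem outdeg_join_inl (F₁ : Finset (B × B)) (F₂ : Finset (W × W)) (b : B) :
    outdeg (join F₁ F₂) (Sum.inl b) = outdeg F₁ b := by
  unfold outdeg
  symm
  apply card_bij (fun a _ => ((Sum.inl a.1 : B ⊕ W), (Sum.inl a.2 : B ⊕ W)))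
  · rintro ⟨a, c⟩ h
    simp only [mem_filter] at h
    obtain ⟨h, rfl⟩ := h
    simp [h]
  · rintro ⟨a, c⟩ _ ⟨a', c'⟩ _ h; simpa using h
  · rintro ⟨a, c⟩ h
    simp only [mem_filter] at h
    obtain ⟨h, rfl⟩ := h
    rcases c with c | c
    · exact ⟨(b, c), by simpa using h, rfl⟩
    · simp at h

omit [Fintype B] [Fintype W] in
theorem indeg_join_inl (F₁ : Finset (B × B)) (F₂ : Finset (W × W)) (b : B) :
    indeg (join F₁ F₂) (Sum.inl b) = indeg F₁ b := by
  unfold indeg
  symm
  apply card_bij (fun a _ => ((Sum.inl a.1 : B ⊕ W), (Sum.inl a.2 : B ⊕ W)))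
  · rintro ⟨a, c⟩ h
    simp only [mem_filter] at h
    obtain ⟨h, rfl⟩ := h
    simp [h]
  · rintro ⟨a, c⟩ _ ⟨a', c'⟩ _ h; simpa using h
  · rintro ⟨c, a⟩ h
    simp only [mem_filter] at h
    obtain ⟨h, rfl⟩ := h
    rcases c with c | c
    · exact ⟨(c, b), by simpa using h, rfl⟩
    · simp at h

omit [Fintype B] [Fintype W] in
theorem outdeg_join_inr (F₁ : Finset (B × B)) (F₂ : Finset (W × W)) (b : W) :
    outdeg (join F₁ F₂) (Sum.inr b) = outdeg F₂ b := by
  unfold outdeg
  symm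
  apply card_bij (fun a _ => ((Sum.inr a.1 : B ⊕ W), (Sum.inr a.2 : B ⊕ W)))
  · rintro ⟨a, c⟩ h
    simp only [mem_filter] at h
    obtain ⟨h, rfl⟩ := h
    simp [h]
  · rintro ⟨a, c⟩ _ ⟨a', c'⟩ _ h; simpa using h
  · rintro ⟨a, c⟩ h
    simp only [mem_filter] at h
    obtain ⟨h, rfl⟩ := h
    rcases c with c | c
    · simp at h
    · exact ⟨(b, c), by simpa using h, rfl⟩

omit [Fintype B] [Fintype W] in
theorem indeg_join_inr (F₁ : Finset (B × B)) (F₂ : Finset (W × W)) (b : W) :
    indeg (join F₁ F₂) (Sum.inr b) = indeg F₂ b := by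
  unfold indeg
  symm
  apply card_bij (fun a _ => ((Sum.inr a.1 : B ⊕ W), (Sum.inr a.2 : B ⊕ W)))
  · rintro ⟨a, c⟩ h
    simp only [mem_filter] at h
    obtain ⟨h, rfl⟩ := h
    simp [h]
  · rintro ⟨a, c⟩ _ ⟨a', c'⟩ _ h; simpa using h
  · rintro ⟨c, a⟩ h
    simp only [mem_filter] at h
    obtain ⟨h, rfl⟩ := h
    rcases c with c | c
    · simp at h
    · exact ⟨(c, b), by simpa using h, rfl⟩

omit [Fintype B] [Fintype W] in
theorem isEulerian_join (F₁ : Finset (B × B)) (F₂ : Finset (W × W)) :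
    IsEulerian (join F₁ F₂) ↔ IsEulerian F₁ ∧ IsEulerian F₂ := by
  unfold IsEulerian
  rw [Sum.forall]
  simp only [outdeg_join_inl, indeg_join_inl, outdeg_join_inr, indeg_join_inr]

/-- An Eulerian set of arcs with no arc from left to right is a join. -/
theorem eq_join {F : Finset ((B ⊕ W) × (B ⊕ W))} (hE : IsEulerian F)
    (h : ∀ b w, ((Sum.inl b : B ⊕ W), (Sum.inr w : B ⊕ W)) ∉ F) :
    F = join (resL F) (resR F) := by
  have h1 := hE.potential_eq (fun v => Sum.elim (fun _ => 0) (fun _ => 1) v) (by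
    rintro ⟨a, b⟩ hab
    rcases a with a | a <;> rcases b with b | b <;> simp
    exact h _ _ hab)
  ext ⟨a, b⟩
  rcases a with a | a <;> rcases b with b | b
  · simp
  · simp [h]
  · have := h1 (Sum.inr a, Sum.inl b)
    simp only [join_rl, iff_false]
    intro h2
    have := this h2
    simp at this
  · simp

/-- Factorisation of the signed count when there are no arcs from left to right. -/
theorem SE_factor (D : Finset ((B ⊕ W) × (B ⊕ W)))
    (h : ∀ b w, ((Sum.inl b : B ⊕ W), (Sum.inr w : B ⊕ W)) ∉ D) :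
    SE D = SE (resL D) * SE (resR D) := by
  classical
  unfold SE
  rw [sum_mul_sum, ← sum_product']
  refine sum_bij' (fun F _ => (resL F, resR F)) (fun F _ => join F.1 F.2) ?_ ?_ ?_ ?_ ?_
  · intro F hF
    rw [mem_filter, mem_powerset] at hF
    have e := eq_join hF.2 (fun b w hbw => h b w (hF.1 hbw))
    have e2 := (isEulerian_join (resL F) (resR F)).mp (e ▸ hF.2)
    rw [mem_product, mem_filter, mem_filter, mem_powerset, mem_powerset]
    refine ⟨⟨?_, e2.1⟩, ?_, e2.2⟩
    · rintro ⟨a, b⟩ hab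
      rw [mem_resL] at hab ⊢
      exact hF.1 hab
    · rintro ⟨a, b⟩ hab
      rw [mem_resR] at hab ⊢
      exact hF.1 hab
  · rintro ⟨F₁, F₂⟩ hF
    simp only [mem_product, mem_filter, mem_powerset] at hF
    rw [mem_filter, mem_powerset]
    refine ⟨?_, (isEulerian_join _ _).mpr ⟨hF.1.2, hF.2.2⟩⟩
    rintro ⟨a, b⟩ hab
    rcases a with a | a <;> rcases b with b | b
    · rw [join_ll] at hab; exact mem_resL.mp (hF.1.1 hab)
    · simp at hab
    · simp at hab
    · rw [join_rr] at hab; exact mem_resR.mp (hF.2.1 hab)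
  · intro F hF
    rw [mem_filter, mem_powerset] at hF
    exact (eq_join hF.2 (fun b w hbw => h b w (hF.1 hbw))).symm
  · rintro ⟨F₁, F₂⟩ hF
    simp
  · intro F hF
    rw [mem_filter, mem_powerset] at hF
    have e := eq_join hF.2 (fun b w hbw => h b w (hF.1 hbw))
    rw [← pow_add, ← card_join, ← e]

end Sum

end Pool.Agent.Lib.MP_f2fc00_lc
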