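import Pool.Agent.Lib.MP_f2fc00_lc.Block

set_option autoImplicit false

namespace Pool.Agent.Lib.MP_f2fc00_lc

open Finset

section
variable {d : ℕ} {W : Type*} {H : SimpleGraph W} {c : W → ℕ}

@[simp] theorem capGraph_ll {a b : Blk d} :
    (capGraph d H c).Adj (Sum.inl a) (Sum.inl b) ↔ a.1 ≠ b.1 := Iff.rfl
@[simp] theorem capGraph_lr {a : Blk d} {w : W} :
    (capGraph d H c).Adj (Sum.inl a) (Sum.inr w) ↔ a.1 = false ∧ a.2.val < c w := Iff.rfl
@[simp] theorem capGraph_rl {a : Blk d} {w : W} :
    (capGraph d H c).Adj (Sum.inr w) (Sum.inl a) ↔ a.1 = false ∧ a.2.val < c w := Iff.rfl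
@[simp] theorem capGraph_rr {w w' : W} :
    (capGraph d H c).Adj (Sum.inr w) (Sum.inr w') ↔ H.Adj w w' := Iff.rfl
end

/-- A complete bipartite graph -/
def blkGraph (d : ℕ) : SimpleGraph (Blk d) where
  Adj a b := a.1 ≠ b.1
  symm := ⟨fun _ _ h => Ne.symm h⟩
  loopless := ⟨fun _ h => h rfl⟩

section
variable {d : ℕ}

theorem even_of_eulerian_blk {D F : Finset (Blk d × Blk d)} (hD : IsOrientation (blkGraph d) D)
    (hF : F ⊆ D) (hE : IsEulerian F) : Even F.card := by
  have h1 := hE.sum_potential (fun a => if a.1 then 1 else 0)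
  have h2 : ∀ a ∈ F, ((if a.1.1 then 1 else 0) - (if a.2.1 then 1 else 0) : ℤ)
      = 1 - 2 * (if a.2.1 then 1 else 0) := by
    intro a ha
    have h3 : a.1.1 ≠ a.2.1 := hD.1 _ _ (hF ha)
    cases h4 : a.1.1 <;> cases h5 : a.2.1 <;> simp_all
  rw [sum_congr rfl h2, sum_sub_distrib, ← mul_sum] at h1
  simp only [sum_const, nsmul_eq_mul, mul_one] at h1
  have h3 : (F.card : ℤ) = 2 * ∑ i ∈ F, (if i.2.1 = true then 1 else 0) := by linarith
  have h4 : Even (F.card : ℤ) := by rw [h3]; exact even_two_mul _
  exact_mod_cast h4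

theorem SE_blk_pos {D : Finset (Blk d × Blk d)} (hD : IsOrientation (blkGraph d) D) :
    0 < SE D :=
  SE_pos_of_even D fun _ hF hE => even_of_eulerian_blk hD hF hE

/-- the number of arcs of an orientation of the block -/
theorem card_blk {D : Finset (Blk d × Blk d)} (hD : IsOrientation (blkGraph d) D) :
    D.card = 2 * d * (2 * d) := by
  have : D.card = (univ : Finset (Fin (2 * d) × Fin (2 * d))).card := by
    refine card_bij' (fun a _ => if a.1.1 then (a.2.2, a.1.2) else (a.1.2, a.2.2))
      (fun p _ => if ((false, p.1), (true, p.2)) ∈ D then ((false, p.1), (true, p.2))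
        else ((true, p.2), (false, p.1))) ?_ ?_ ?_ ?_
    · intro a _; exact mem_univ _
    · rintro ⟨i, j⟩ _
      have h1 := hD.2 (false, i) (true, j) (by simp [blkGraph])
      by_cases h2 : (((false, i), (true, j)) : Blk d × Blk d) ∈ D
      · simp [h2]
      · simp only [h2, if_false]
        by_contra h3
        exact h2 (h1.mpr h3)
    · rintro ⟨⟨s, i⟩, ⟨s', j⟩⟩ ha
      have h3 : s ≠ s' := hD.1 _ _ ha
      have h1 := hD.2 (s, i) (s', j) h3
      cases s <;> cases s'
      · exact absurd rfl h3
      · simp [ha]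
      · have h4 := h1.mp ha
        simp [h4]
      · exact absurd rfl h3
    · rintro ⟨i, j⟩ _
      by_cases h2 : (((false, i), (true, j)) : Blk d × Blk d) ∈ D <;> simp [h2]
  rw [this]; simp

/-- The standard orientation of the block, with all out-degrees equal to `d`. -/
def stdBlk (d : ℕ) : Finset (Blk d × Blk d) :=
  univ.filter fun a => (a.1.1 = false ∧ a.2.1 = true ∧ (a.1.2.val < d ↔ a.2.2.val < d)) ∨
    (a.1.1 = true ∧ a.2.1 = false ∧ ¬ (a.1.2.val < d ↔ a.2.2.val < d))

theorem stdBlk_isOrientation : IsOrientation (blkGraph d) (stdBlk d) := by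
  constructor
  · rintro ⟨s, i⟩ ⟨s', j⟩ h
    simp only [stdBlk, mem_filter, mem_univ, true_and] at h
    rcases h with ⟨rfl, rfl, -⟩ | ⟨rfl, rfl, -⟩ <;> simp [blkGraph]
  · rintro ⟨s, i⟩ ⟨s', j⟩ h
    have h' : s ≠ s' := h
    simp only [stdBlk, mem_filter, mem_univ, true_and]
    cases s <;> cases s' <;> simp at h' ⊢ <;> tauto

theorem card_lt (d : ℕ) : (univ.filter fun i : Fin (2 * d) => i.val < d).card = d := by
  have : (univ.filter fun i : Fin (2 * d) => i.val < d).card = (Finset.range d).card := by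
    refine card_bij (fun i _ => i.val) ?_ ?_ ?_
    · intro i hi; simpa using hi
    · intro i _ j _ h; exact Fin.ext h
    · intro i hi
      rw [mem_range] at hi
      exact ⟨⟨i, by omega⟩, by simpa using hi, rfl⟩
  rw [this, card_range]

theorem card_not_lt (d : ℕ) : (univ.filter fun i : Fin (2 * d) => ¬ i.val < d).card = d := by
  have h := Finset.card_filter_add_card_filter_not (s := (univ : Finset (Fin (2 * d))))
    (fun i : Fin (2 * d) => i.val < d)
  rw [card_lt] at h
  simp only [card_univ, Fintype.card_fin] at h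
  omega

theorem outdeg_stdBlk (v : Blk d) : outdeg (stdBlk d) v = d := by
  rw [outdeg_eq_card]
  obtain ⟨s, i⟩ := v
  have key : ∀ (s' : Bool) (p : Fin (2 * d) → Prop) [DecidablePred p],
      (univ.filter fun u : Blk d => u.1 = s' ∧ p u.2).card = (univ.filter p).card := by
    intro s' p _
    refine card_bij' (fun u _ => u.2) (fun j _ => (s', j)) ?_ ?_ ?_ ?_
    · rintro ⟨a, b⟩ h; simp only [mem_filter, mem_univ, true_and] at h ⊢; exact h.2
    · intro j h; simp only [mem_filter, mem_univ, true_and] at h ⊢; exact h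
    · rintro ⟨a, b⟩ h
      simp only [mem_filter, mem_univ, true_and] at h
      rw [← h.1]
    · intro j _; rfl
  cases s
  · have h1 : (univ.filter fun u : Blk d => ((false, i), u) ∈ stdBlk d)
        = univ.filter fun u : Blk d => u.1 = true ∧ (i.val < d ↔ u.2.val < d) := by
      ext u
      simp [stdBlk]
    rw [h1, key true (fun j => i.val < d ↔ j.val < d)]
    by_cases hi : i.val < d
    · simp only [hi, true_iff]; exact card_lt d
    · simp only [hi, false_iff]; exact card_not_lt d
  · have h1 : (univ.filter fun u : Blk d => ((true, i), u) ∈ stdBlk d)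
        = univ.filter fun u : Blk d => u.1 = false ∧ ¬ (i.val < d ↔ u.2.val < d) := by
      ext u
      simp [stdBlk]
    rw [h1, key false (fun j => ¬ (i.val < d ↔ j.val < d))]
    by_cases hi : i.val < d
    · simp only [hi, true_iff]; exact card_not_lt d
    · simp only [hi, false_iff, not_not]; exact card_lt d

end

section
variable {d : ℕ} {W : Type*} [DecidableEq W] [Fintype W] {H : SimpleGraph W} {c : W → ℕ}

theorem outdeg_inr_eq (D : Finset ((Blk d ⊕ W) × (Blk d ⊕ W))) (w : W) :
    outdeg D (Sum.inr w) = (univ.filter fun b : Blk d => (Sum.inr w, Sum.inl b) ∈ D).card +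
      outdeg (resR D) w := by
  rw [outdeg_eq_card, outdeg_eq_card]
  have h1 : (univ.filter fun u : Blk d ⊕ W => (Sum.inr w, u) ∈ D)
      = ((univ.filter fun b : Blk d => (Sum.inr w, Sum.inl b) ∈ D).image Sum.inl) ∪
        ((univ.filter fun x : W => (w, x) ∈ resR D).image Sum.inr) := by
    ext u
    rcases u with u | u <;> simp
  rw [h1, card_union_of_disjoint, card_image_of_injective _ Sum.inl_injective,
    card_image_of_injective _ Sum.inr_injective]
  rw [Finset.disjoint_left]
  rintro x h h'
  simp only [mem_image] at h h'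
  obtain ⟨a, -, rfl⟩ := h
  obtain ⟨b, -, h⟩ := h'
  simp at h

theorem outdeg_inl_eq (D : Finset ((Blk d ⊕ W) × (Blk d ⊕ W))) (b : Blk d) :
    outdeg D (Sum.inl b) = outdeg (resL D) b +
      (univ.filter fun w : W => (Sum.inl b, Sum.inr w) ∈ D).card := by
  rw [outdeg_eq_card, outdeg_eq_card]
  have h1 : (univ.filter fun u : Blk d ⊕ W => (Sum.inl b, u) ∈ D)
      = ((univ.filter fun x : Blk d => (b, x) ∈ resL D).image Sum.inl) ∪
        ((univ.filter fun w : W => (Sum.inl b, Sum.inr w) ∈ D).image Sum.inr) := by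
    ext u
    rcases u with u | u <;> simp
  rw [h1, card_union_of_disjoint, card_image_of_injective _ Sum.inl_injective,
    card_image_of_injective _ Sum.inr_injective]
  rw [Finset.disjoint_left]
  rintro x h h'
  simp only [mem_image] at h h'
  obtain ⟨a, -, rfl⟩ := h
  obtain ⟨b, -, h⟩ := h'
  simp at h

theorem card_cross (hc : ∀ w, c w ≤ 2 * d) (w : W) :
    (univ.filter fun b : Blk d => b.1 = false ∧ b.2.val < c w).card = c w := by
  have : (univ.filter fun b : Blk d => b.1 = false ∧ b.2.val < c w).card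
      = (Finset.range (c w)).card := by
    refine card_bij (fun i _ => i.2.val) ?_ ?_ ?_
    · intro i hi
      simp only [mem_filter, mem_univ, true_and] at hi
      exact mem_range.mpr hi.2
    · rintro ⟨s, i⟩ hi ⟨s', j⟩ hj h
      simp only [mem_filter, mem_univ, true_and] at hi hj
      obtain ⟨rfl, -⟩ := hi
      obtain ⟨rfl, -⟩ := hj
      rw [Prod.mk.injEq]
      exact ⟨rfl, Fin.ext h⟩
    · intro i hi
      rw [mem_range] at hi
      exact ⟨(false, ⟨i, by have := hc w; omega⟩), by simpa using hi, rfl⟩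
  rw [this, card_range]

omit [DecidableEq W] [Fintype W] in
theorem resL_isOrientation [DecidableEq W] [Fintype W]
    {D : Finset ((Blk d ⊕ W) × (Blk d ⊕ W))}
    (hD : IsOrientation (capGraph d H c) D) : IsOrientation (blkGraph d) (resL D) := by
  constructor
  · intro u v h
    rw [mem_resL] at h
    exact hD.1 _ _ h
  · intro u v h
    rw [mem_resL, mem_resL]
    exact hD.2 _ _ h

theorem resR_isOrientation {D : Finset ((Blk d ⊕ W) × (Blk d ⊕ W))}
    (hD : IsOrientation (capGraph d H c) D) : IsOrientation H (resR D) := by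
  constructor
  · intro u v h
    rw [mem_resR] at h
    exact hD.1 _ _ h
  · intro u v h
    rw [mem_resR, mem_resR]
    exact hD.2 _ _ h

omit [DecidableEq W] [Fintype W] in
theorem sum_outdeg {V : Type*} [DecidableEq V] [Fintype V] (D : Finset (V × V)) :
    ∑ v, outdeg D v = D.card := by
  unfold outdeg
  rw [Finset.card_eq_sum_card_fiberwise (f := fun a => a.1) (t := univ)]
  intro x _; exact mem_coe.mpr (mem_univ _)

/-- In an orientation with all out-degrees at most `d` no arc leaves the block. -/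
theorem no_arc_out {D : Finset ((Blk d ⊕ W) × (Blk d ⊕ W))}
    (hD : IsOrientation (capGraph d H c) D) (hdeg : ∀ v, outdeg D v ≤ d) (b : Blk d) (w : W) :
    ((Sum.inl b : Blk d ⊕ W), (Sum.inr w : Blk d ⊕ W)) ∉ D := by
  have h1 := sum_outdeg (resL D)
  rw [card_blk (resL_isOrientation hD)] at h1
  have h2 : ∑ b : Blk d, outdeg D (Sum.inl b) ≤ ∑ b : Blk d, d :=
    sum_le_sum fun b _ => hdeg _
  simp only [outdeg_inl_eq, sum_add_distrib, h1] at h2
  simp only [sum_const, card_univ, Fintype.card_prod, Fintype.card_bool, Fintype.card_fin,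
    smul_eq_mul] at h2
  have h3 : ∑ x : Blk d, (univ.filter fun w : W => (Sum.inl x, Sum.inr w) ∈ D).card = 0 := by
    have : 2 * (2 * d) * d = 2 * d * (2 * d) := by ring
    omega
  rw [sum_eq_zero_iff] at h3
  have h4 := h3 b (mem_univ _)
  rw [card_eq_zero, filter_eq_empty_iff] at h4
  exact h4 (mem_univ w)

/-- Saturated blocks turn the Alon-Tarsi problem with prescribed capacities into the ordinary
one. -/
theorem cap_iff (hc : ∀ w, c w ≤ 2 * d) :
    HasATOrientation (capGraph d H c) (d + 1) ↔
      ∃ D : Finset (W × W), IsOrientation H D ∧ EE D ≠ EO D ∧ ∀ w, outdeg D w + c w ≤ d := by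
  constructor
  · rintro ⟨D, hD, hE, hdeg⟩
    have hdeg' : ∀ v, outdeg D v ≤ d := fun v => by have := hdeg v; omega
    have hno := no_arc_out hD hdeg'
    refine ⟨resR D, resR_isOrientation hD, ?_, ?_⟩
    · rw [← SE_ne_zero_iff] at hE ⊢
      rw [SE_factor D hno] at hE
      exact right_ne_zero_of_mul hE
    · intro w
      have h1 := hdeg' (Sum.inr w)
      rw [outdeg_inr_eq] at h1
      have h2 : (univ.filter fun b : Blk d => ((Sum.inr w : Blk d ⊕ W), Sum.inl b) ∈ D)
          = (univ.filter fun b : Blk d => b.1 = false ∧ b.2.val < c w) := by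
        ext b
        simp only [mem_filter, mem_univ, true_and]
        constructor
        · intro h; exact hD.1 _ _ h
        · intro h
          have h3 : (capGraph d H c).Adj (Sum.inr w) (Sum.inl b) := h
          exact (hD.2 _ _ h3).mpr (hno b w)
      rw [h2, card_cross hc w] at h1
      omega
  · rintro ⟨D, hD, hE, hdeg⟩
    classical
    let P : (Blk d ⊕ W) × (Blk d ⊕ W) → Prop := fun a =>
      match a.1, a.2 with
      | Sum.inl a, Sum.inl b => (a, b) ∈ stdBlk d
      | Sum.inl _, Sum.inr _ => False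
      | Sum.inr w, Sum.inl b => b.1 = false ∧ b.2.val < c w
      | Sum.inr w, Sum.inr w' => (w, w') ∈ D
    let D' : Finset ((Blk d ⊕ W) × (Blk d ⊕ W)) := univ.filter P
    have hll : ∀ a b : Blk d, ((Sum.inl a : Blk d ⊕ W), (Sum.inl b : Blk d ⊕ W)) ∈ D' ↔
        (a, b) ∈ stdBlk d := by
      intro a b; simp [D', P]
    have hlr : ∀ (a : Blk d) (w : W), ((Sum.inl a : Blk d ⊕ W), (Sum.inr w : Blk d ⊕ W)) ∉ D' := by
      intro a b; simp [D', P]
    have hrl : ∀ (b : Blk d) (w : W), ((Sum.inr w : Blk d ⊕ W), (Sum.inl b : Blk d ⊕ W)) ∈ D' ↔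
        b.1 = false ∧ b.2.val < c w := by
      intro a b; simp [D', P]
    have hrr : ∀ w w' : W, ((Sum.inr w : Blk d ⊕ W), (Sum.inr w' : Blk d ⊕ W)) ∈ D' ↔
        (w, w') ∈ D := by
      intro a b; simp [D', P]
    have hL : resL D' = stdBlk d := by
      ext ⟨a, b⟩; rw [mem_resL, hll]
    have hR : resR D' = D := by
      ext ⟨a, b⟩; rw [mem_resR, hrr]
    refine ⟨D', ⟨?_, ?_⟩, ?_, ?_⟩
    · rintro (u | u) (v | v) h
      · rw [hll] at h; exact stdBlk_isOrientation.1 _ _ h
      · exact absurd h (hlr _ _)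
      · rw [hrl] at h; exact h
      · rw [hrr] at h; exact hD.1 _ _ h
    · rintro (u | u) (v | v) h
      · rw [hll, hll]; exact stdBlk_isOrientation.2 _ _ h
      · rw [hrl]
        have h1 := hlr u v
        have h2 : u.1 = false ∧ u.2.val < c v := h
        simp [h1, h2]
      · rw [hrl]
        have h1 := hlr v u
        have h2 : v.1 = false ∧ v.2.val < c u := h
        simp [h1, h2]
      · rw [hrr, hrr]; exact hD.2 _ _ h
    · rw [← SE_ne_zero_iff] at hE ⊢
      rw [SE_factor D' hlr, hL, hR]
      exact mul_ne_zero (SE_blk_pos stdBlk_isOrientation).ne' hE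
    · rintro (b | w)
      · rw [outdeg_inl_eq, hL, outdeg_stdBlk]
        have : (univ.filter fun w : W => ((Sum.inl b : Blk d ⊕ W), Sum.inr w) ∈ D') = ∅ := by
          rw [filter_eq_empty_iff]; intro w _; exact hlr b w
        rw [this]; simp
      · rw [outdeg_inr_eq, hR]
        have h2 : (univ.filter fun b : Blk d => ((Sum.inr w : Blk d ⊕ W), Sum.inl b) ∈ D')
            = (univ.filter fun b : Blk d => b.1 = false ∧ b.2.val < c w) := by
          ext b
          simp only [mem_filter, mem_univ, true_and]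
          exact hrl b w
        rw [h2, card_cross hc w]
        have := hdeg w
        omega

end

end Pool.Agent.Lib.MP_f2fc00_lc
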