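import Mathlib

set_option autoImplicit false

/-!
# Orientations, Eulerian subgraphs and the Alon-Tarsi number

Definitions for the problem on computing the Alon-Tarsi number of a finite simple graph.
-/

namespace Pool.Agent.Lib.MP_f2fc00_lc

open Finset

variable {V : Type*} [DecidableEq V]

/-- Out-degree of the vertex `v` in the set of arcs `F`; the pair `(u, v)` is the arc from `u`
to `v`. -/
def outdeg (F : Finset (V × V)) (v : V) : ℕ := (F.filter fun a => a.1 = v).card

/-- In-degree of the vertex `v` in the set of arcs `F`. -/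
def indeg (F : Finset (V × V)) (v : V) : ℕ := (F.filter fun a => a.2 = v).card

/-- The set of arcs `D` is an orientation of the simple graph `G`: every arc is an edge of `G`,
and for each edge of `G` exactly one of its two directions is an arc. -/
def IsOrientation (G : SimpleGraph V) (D : Finset (V × V)) : Prop :=
  (∀ u v, (u, v) ∈ D → G.Adj u v) ∧ (∀ u v, G.Adj u v → ((u, v) ∈ D ↔ (v, u) ∉ D))

/-- A set of arcs is a (spanning) Eulerian subgraph if in-degree and out-degree agree at every
vertex. -/
def IsEulerian (F : Finset (V × V)) : Prop := ∀ v, indeg F v = outdeg F v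

open Classical in
/-- `EE D`: the number of Eulerian subgraphs of `D` with an even number of arcs. -/
noncomputable def EE (D : Finset (V × V)) : ℕ :=
  (D.powerset.filter fun F => IsEulerian F ∧ Even F.card).card

open Classical in
/-- `EO D`: the number of Eulerian subgraphs of `D` with an odd number of arcs. -/
noncomputable def EO (D : Finset (V × V)) : ℕ :=
  (D.powerset.filter fun F => IsEulerian F ∧ Odd F.card).card

/-- `G` has an orientation `D` with `EE D ≠ EO D` in which every vertex has out-degree at most
`k - 1`. -/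
def HasATOrientation (G : SimpleGraph V) (k : ℕ) : Prop :=
  ∃ D : Finset (V × V), IsOrientation G D ∧ EE D ≠ EO D ∧ ∀ v, outdeg D v + 1 ≤ k

/-- The Alon-Tarsi number of `G`: the least `k` such that some orientation `D` of `G` satisfies
`EE D ≠ EO D` and has all out-degrees at most `k - 1`. -/
noncomputable def alonTarsiNumber (G : SimpleGraph V) : ℕ := sInf {k | HasATOrientation G k}

/-- Vertices of the complete bipartite block `K_{2d,2d}`. -/
abbrev Blk (d : ℕ) : Type := Bool × Fin (2 * d)

/-- The graph `H` together with a block `K_{2d,2d}`; the vertex `w` of `H` is joined to the first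
`c w` vertices on one side of the block. -/
def capGraph (d : ℕ) {W : Type*} (H : SimpleGraph W) (c : W → ℕ) : SimpleGraph (Blk d ⊕ W) where
  Adj x y := match x, y with
    | Sum.inl a, Sum.inl b => a.1 ≠ b.1
    | Sum.inl a, Sum.inr w => a.1 = false ∧ a.2.val < c w
    | Sum.inr w, Sum.inl a => a.1 = false ∧ a.2.val < c w
    | Sum.inr w, Sum.inr w' => H.Adj w w'
  symm := ⟨by
    rintro (x | x) (y | y) h
    · exact Ne.symm h
    · exact h
    · exact h
    · exact SimpleGraph.Adj.symm (G := H) h⟩
  loopless := ⟨by
    rintro (x | x) h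
    · exact h rfl
    · exact H.loopless.irrefl x h⟩

/-- The four kinds of vertices of a cell. -/
inductive Kind
  | p | q | t | c
  deriving DecidableEq

instance : Fintype Kind := ⟨{Kind.p, Kind.q, Kind.t, Kind.c}, by intro x; cases x <;> simp⟩

/-- Cells: one for each entry of the literal-clause incidence matrix. -/
abbrev Cell (n m : ℕ) : Type := Fin (2 * n) × Fin m

/-- Outer vertices. -/
abbrev Outer (n m : ℕ) : Type := Cell n m × Kind

/-- Successor relation on cells along the chain of a variable: rows `2 i` and `2 i + 1` of the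
matrix read one after the other. -/
def Next {n m : ℕ} (a b : Cell n m) : Prop :=
  (b.1 = a.1 ∧ b.2.val = a.2.val + 1) ∨
    (a.1.val % 2 = 0 ∧ b.1.val = a.1.val + 1 ∧ a.2.val + 1 = m ∧ b.2.val = 0)

instance {n m : ℕ} (a b : Cell n m) : Decidable (Next a b) := by unfold Next; infer_instance

/-- Reference relation for the edges of the outer graph. -/
def outerRel {n m : ℕ} (A : Fin (2 * n) → Fin m → Bool) (x y : Outer n m) : Prop :=
  match x.2, y.2 with
  | Kind.p, Kind.q => x.1 = y.1
  | Kind.p, Kind.t => x.1 = y.1
  | Kind.q, Kind.t => x.1 = y.1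
  | Kind.q, Kind.p => Next x.1 y.1
  | Kind.c, Kind.p => x.1 = y.1 ∧ A x.1.1 x.1.2 = true ∧ x.1.1.val % 2 = 0
  | Kind.c, Kind.q => x.1 = y.1 ∧ A x.1.1 x.1.2 = true ∧ x.1.1.val % 2 = 1
  | Kind.c, Kind.c => x.1.2 = y.1.2 ∧ y.1.1.val = x.1.1.val + 1
  | _, _ => False

/-- The outer graph. -/
def outerGraph {n m : ℕ} (A : Fin (2 * n) → Fin m → Bool) : SimpleGraph (Outer n m) where
  Adj x y := outerRel A x y ∨ outerRel A y x
  symm := ⟨fun _ _ h => h.symm⟩
  loopless := ⟨by
    rintro ⟨⟨r, j⟩, k⟩ h
    cases k <;> simp [outerRel] at h⟩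

/-- Number of neighbours in the block of an outer vertex. -/
def cost {n m : ℕ} (d : ℕ) (A : Fin (2 * n) → Fin m → Bool) (x : Outer n m) : ℕ :=
  match x.2 with
  | Kind.p => d - 2
  | Kind.q => d - 2
  | Kind.t => d - 1
  | Kind.c => (d - 2) + (if x.1.1.val = 0 then 1 else 0) + (if x.1.1.val + 1 = 2 * n then 1 else 0) +
      (if A x.1.1 x.1.2 = true then 0 else 1)

/-- The truth value under `x` of the literal number `r`: the literal number `2 i` is the `i`-th
variable and the literal number `2 i + 1` is its negation. -/
def litTrue {n : ℕ} (x : Fin n → Bool) (r : Fin (2 * n)) : Prop :=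
  (x ⟨r.val / 2, by omega⟩ = true ↔ r.val % 2 = 0)

/-- The formula in conjunctive normal form with `n` variables and `m` clauses in which the `j`-th
clause is the disjunction of the literals `r` with `A r j = true` is satisfiable. -/
def Satisfiable {n m : ℕ} (A : Fin (2 * n) → Fin m → Bool) : Prop :=
  ∃ x : Fin n → Bool, ∀ j : Fin m, ∃ r : Fin (2 * n), A r j = true ∧ litTrue x r

/-- The vertices of the reduction graph: `4 (k - 1)` block vertices and, for every entry of the
literal-clause incidence matrix, four vertices. -/
abbrev RedV (k n m : ℕ) : Type := Blk (k - 1) ⊕ Outer n m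

/-- The reduction graph. -/
def redGraph (k : ℕ) {n m : ℕ} (A : Fin (2 * n) → Fin m → Bool) : SimpleGraph (RedV k n m) :=
  capGraph (k - 1) (outerGraph A) (cost (k - 1) A)

/-- The statement `P A` about the matrix `A` is constant, or an entry of `A`, or the negation of
an entry of `A`. -/
def IsProjection {n m : ℕ} (P : (Fin (2 * n) → Fin m → Bool) → Prop) : Prop :=
  (∀ A A', P A ↔ P A') ∨ (∃ r j, ∀ A, P A ↔ A r j = true) ∨ (∃ r j, ∀ A, P A ↔ A r j = false)

end Pool.Agent.Lib.MP_f2fc00_lc
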