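import Pool.Agent.Lib.MP_f2fc00_lc.Defs

set_option autoImplicit false

/-!
# The Alon-Tarsi number does not depend on the names of the vertices
-/

namespace Pool.Agent.Lib.MP_f2fc00_lc

open Finset

variable {V W : Type*} [DecidableEq V] [DecidableEq W]

/-- The set of arcs with renamed vertices. -/
def ren (e : V ≃ W) (D : Finset (V × V)) : Finset (W × W) := D.map (e.prodCongr e).toEmbedding

omit [DecidableEq V] [DecidableEq W] in
theorem mem_ren (e : V ≃ W) (D : Finset (V × V)) (x y : V) : (e x, e y) ∈ ren e D ↔ (x, y) ∈ D := by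
  unfold ren
  exact Finset.mem_map' (e.prodCongr e).toEmbedding (a := (x, y)) (s := D)

theorem outdeg_ren (e : V ≃ W) (D : Finset (V × V)) (v : V) :
    outdeg (ren e D) (e v) = outdeg D v := by
  unfold outdeg ren
  rw [Finset.filter_map, Finset.card_map]
  congr 1
  refine Finset.filter_congr fun a _ => ?_
  show e a.1 = e v ↔ a.1 = v
  exact e.apply_eq_iff_eq

theorem indeg_ren (e : V ≃ W) (D : Finset (V × V)) (v : V) :
    indeg (ren e D) (e v) = indeg D v := by
  unfold indeg ren
  rw [Finset.filter_map, Finset.card_map]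
  congr 1
  refine Finset.filter_congr fun a _ => ?_
  show e a.2 = e v ↔ a.2 = v
  exact e.apply_eq_iff_eq

theorem isEulerian_ren (e : V ≃ W) (F : Finset (V × V)) : IsEulerian (ren e F) ↔ IsEulerian F := by
  constructor
  · intro h v
    rw [← indeg_ren e, ← outdeg_ren e]
    exact h (e v)
  · intro h w
    obtain ⟨v, rfl⟩ := e.surjective w
    rw [indeg_ren, outdeg_ren]
    exact h v

omit [DecidableEq V] [DecidableEq W] in
theorem card_ren (e : V ≃ W) (F : Finset (V × V)) : (ren e F).card = F.card := Finset.card_map _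

open Classical in
theorem card_filter_ren (e : V ≃ W) (D : Finset (V × V)) (p : ℕ → Prop) :
    ((ren e D).powerset.filter fun F => IsEulerian F ∧ p F.card).card =
      (D.powerset.filter fun F => IsEulerian F ∧ p F.card).card := by
  symm
  refine Finset.card_bij (fun F _ => ren e F) ?_ ?_ ?_
  · intro F hF
    rw [mem_filter, mem_powerset] at hF ⊢
    refine ⟨Finset.map_subset_map.2 hF.1, (isEulerian_ren e F).2 hF.2.1, ?_⟩
    rw [card_ren]
    exact hF.2.2
  · intro F _ F' _ h
    exact Finset.map_injective _ h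
  · intro F' hF'
    rw [mem_filter, mem_powerset] at hF'
    obtain ⟨F, hF, hFF⟩ := Finset.subset_map_iff.1 hF'.1
    refine ⟨F, ?_, hFF.symm⟩
    have hFF' : F' = ren e F := hFF
    rw [mem_filter, mem_powerset]
    rw [hFF', isEulerian_ren, card_ren] at hF'
    exact ⟨hF, hF'.2⟩

theorem EE_ren (e : V ≃ W) (D : Finset (V × V)) : EE (ren e D) = EE D := by
  unfold EE
  convert card_filter_ren e D Even

theorem EO_ren (e : V ≃ W) (D : Finset (V × V)) : EO (ren e D) = EO D := by
  unfold EO
  convert card_filter_ren e D Odd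

theorem HasATOrientation.comap (e : V ≃ W) {G : SimpleGraph V} {k : ℕ} (h : HasATOrientation G k) :
    HasATOrientation (G.comap e.symm) k := by
  obtain ⟨D, ⟨h1, h2⟩, h3, h4⟩ := h
  refine ⟨ren e D, ⟨?_, ?_⟩, ?_, ?_⟩
  · intro u v
    obtain ⟨x, rfl⟩ := e.surjective u
    obtain ⟨y, rfl⟩ := e.surjective v
    rw [mem_ren, SimpleGraph.comap_adj, e.symm_apply_apply, e.symm_apply_apply]
    exact h1 x y
  · intro u v
    obtain ⟨x, rfl⟩ := e.surjective u
    obtain ⟨y, rfl⟩ := e.surjective v
    rw [mem_ren, mem_ren, SimpleGraph.comap_adj, e.symm_apply_apply, e.symm_apply_apply]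
    exact h2 x y
  · rw [EE_ren, EO_ren]
    exact h3
  · intro w
    obtain ⟨x, rfl⟩ := e.surjective w
    rw [outdeg_ren]
    exact h4 x

theorem alonTarsiNumber_comap (e : V ≃ W) (G : SimpleGraph V) :
    alonTarsiNumber (G.comap e.symm) = alonTarsiNumber G := by
  unfold alonTarsiNumber
  congr 1
  ext k
  constructor
  · intro h
    have h1 := HasATOrientation.comap e.symm h
    have h2 : (G.comap e.symm).comap e.symm.symm = G := by
      ext x y
      rw [SimpleGraph.comap_adj, SimpleGraph.comap_adj]
      simp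
    rw [h2] at h1
    exact h1
  · intro h
    exact HasATOrientation.comap e h

end Pool.Agent.Lib.MP_f2fc00_lc
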