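import Pool.Agent.Lib.MP_f2fc00_lc.Unique

set_option autoImplicit false

namespace Pool.Agent.Lib.MP_f2fc00_lc

open Finset

section Number

variable {V : Type*} [DecidableEq V] [Fintype V]

omit [Fintype V] in
theorem HasATOrientation.mono {G : SimpleGraph V} {k l : ℕ} (h : HasATOrientation G k)
    (hkl : k ≤ l) : HasATOrientation G l := by
  obtain ⟨D, h1, h2, h3⟩ := h
  exact ⟨D, h1, h2, fun v => (h3 v).trans hkl⟩

/-- Every finite graph has some Alon-Tarsi orientation (an acyclic one). -/
theorem exists_hasATOrientation (G : SimpleGraph V) : ∃ k, HasATOrientation G k := by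
  classical
  let e := Fintype.equivFin V
  let D : Finset (V × V) := univ.filter fun a => G.Adj a.1 a.2 ∧ e a.1 < e a.2
  have hmem : ∀ u v, (u, v) ∈ D ↔ G.Adj u v ∧ e u < e v := by intro u v; simp [D]
  have hD : IsOrientation G D := by
    constructor
    · intro u v h; exact ((hmem u v).mp h).1
    · intro u v h
      rw [hmem, hmem]
      have h1 : e u ≠ e v := fun h' => h.ne (e.injective h')
      have h2 := h.symm
      constructor
      · rintro ⟨-, h3⟩ ⟨-, h4⟩; exact absurd h3 (not_lt.mpr h4.le)
      · intro h3
        refine ⟨h, lt_of_le_of_ne ?_ h1⟩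
        by_contra h4
        exact h3 ⟨h2, not_le.mp h4⟩
  refine ⟨Fintype.card V + 1, D, hD, ?_, ?_⟩
  · rw [← SE_ne_zero_iff]
    apply ne_of_gt
    apply SE_pos_of_even
    intro F hF hE
    have h1 := hE.potential_eq (fun v => - ((e v).val : ℤ)) (by
      rintro ⟨u, v⟩ h
      have := ((hmem u v).mp (hF h)).2
      have h2 : (e u).val < (e v).val := this
      simp only; omega)
    have : F = ∅ := by
      rw [Finset.eq_empty_iff_forall_notMem]
      rintro ⟨u, v⟩ h
      have := ((hmem u v).mp (hF h)).2
      have h2 : (e u).val < (e v).val := this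
      have h3 := h1 _ h
      simp only at h3; omega
    rw [this]; simp
  · intro v
    rw [outdeg_eq_card]
    have := Finset.card_le_univ (univ.filter fun u => (v, u) ∈ D)
    omega

theorem alonTarsiNumber_le_iff (G : SimpleGraph V) (k : ℕ) :
    alonTarsiNumber G ≤ k ↔ HasATOrientation G k := by
  constructor
  · intro h
    have h1 : HasATOrientation G (alonTarsiNumber G) :=
      Nat.sInf_mem (s := {k | HasATOrientation G k}) (exists_hasATOrientation G)
    exact h1.mono h
  · intro h
    exact Nat.sInf_le h

end Number

theorem cost_le {n m d : ℕ} (hd : 2 ≤ d) (A : Fin (2 * n) → Fin m → Bool) (w : Outer n m) :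
    cost d A w ≤ 2 * d := by
  obtain ⟨κ, k⟩ := w
  cases k <;> simp only [cost] <;> first | omega | (split_ifs <;> omega)

/-- Correctness of the reduction. -/
theorem red_correct {k : ℕ} (hk : 3 ≤ k) {n m : ℕ} (hn : 0 < n) (A : Fin (2 * n) → Fin m → Bool) :
    alonTarsiNumber (redGraph k A) ≤ k ↔ Satisfiable A := by
  rw [alonTarsiNumber_le_iff]
  obtain ⟨d, rfl⟩ : ∃ d, k = d + 1 := ⟨k - 1, by omega⟩
  have h1 := cap_iff (d := d) (H := outerGraph A) (c := cost d A) (cost_le (by omega) A)
  exact h1.trans (outer_iff (by omega) hn)

theorem card_redV (k n m : ℕ) : Fintype.card (RedV k n m) = 4 * (k - 1) + 8 * (n * m) := by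
  have h : Fintype.card Kind = 4 := rfl
  simp only [Fintype.card_sum, Fintype.card_prod, Fintype.card_bool, Fintype.card_fin, h]
  ring

theorem isProjection_cross {k n m : ℕ} (a : Blk (k - 1)) (w : Outer n m) :
    IsProjection (fun A => a.1 = false ∧ a.2.val < cost (k - 1) A w) := by
  obtain ⟨⟨r, j⟩, kd⟩ := w
  cases kd
  · left; intro A A'; exact Iff.rfl
  · left; intro A A'; exact Iff.rfl
  · left; intro A A'; exact Iff.rfl
  · by_cases h1 : a.1 = false
    · simp only [h1, true_and, cost]
      generalize (k - 1 - 2) + (if r.val = 0 then 1 else 0) +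
        (if r.val + 1 = 2 * n then 1 else 0) = b
      by_cases h2 : a.2.val < b
      · left; intro A A'
        constructor
        · intro _; exact Nat.lt_of_lt_of_le h2 (Nat.le_add_right _ _)
        · intro _; exact Nat.lt_of_lt_of_le h2 (Nat.le_add_right _ _)
      · by_cases h3 : a.2.val = b
        · right; right
          refine ⟨r, j, fun A => ?_⟩
          show a.2.val < b + (if A r j = true then 0 else 1) ↔ A r j = false
          rw [h3]
          cases h4 : A r j <;> simp
        · left; intro A A'
          show a.2.val < b + (if A r j = true then 0 else 1) ↔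
            a.2.val < b + (if A' r j = true then 0 else 1)
          have h4 : ∀ B : Bool, ¬ a.2.val < b + (if B = true then 0 else 1) := by
            intro B; cases B <;> simp <;> omega
          exact iff_of_false (h4 _) (h4 _)
    · left; intro A A'
      exact iff_of_false (fun h => h1 h.1) (fun h => h1 h.1)

theorem isProjection_outer {n m : ℕ} (u v : Outer n m) :
    IsProjection (fun A => (outerGraph A).Adj u v) := by
  obtain ⟨κ, k⟩ := u
  obtain ⟨κ', k'⟩ := v
  show IsProjection (fun A => outerRel A (κ, k) (κ', k') ∨ outerRel A (κ', k') (κ, k))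
  by_cases h : κ = κ'
  · subst h
    rcases Nat.mod_two_eq_zero_or_one κ.1.val with hr | hr
    · cases k <;> cases k' <;> simp only [outerRel, true_and, hr, and_true, or_false, false_or,
        zero_ne_one, and_false]
      all_goals first
        | exact Or.inl fun A A' => Iff.rfl
        | exact Or.inr (Or.inl ⟨κ.1, κ.2, fun A => Iff.rfl⟩)
    · cases k <;> cases k' <;> simp only [outerRel, true_and, hr, and_true, or_false, false_or,
        one_ne_zero, and_false]
      all_goals first
        | exact Or.inl fun A A' => Iff.rfl
        | exact Or.inr (Or.inl ⟨κ.1, κ.2, fun A => Iff.rfl⟩)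
  · have h' : ¬ κ' = κ := fun e => h e.symm
    cases k <;> cases k' <;> simp only [outerRel, h, h', false_and, or_false, false_or] <;>
      exact Or.inl fun A A' => Iff.rfl

/-- Every entry of the adjacency matrix of the reduction graph is a constant, an entry of the
input matrix, or the negation of such an entry. -/
theorem red_projection (k n m : ℕ) (u v : RedV k n m) :
    IsProjection (fun A : Fin (2 * n) → Fin m → Bool => (redGraph k A).Adj u v) := by
  rcases u with a | w <;> rcases v with b | w'
  · exact Or.inl fun A A' => Iff.rfl
  · exact isProjection_cross a w'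
  · exact isProjection_cross b w
  · exact isProjection_outer w w'

end Pool.Agent.Lib.MP_f2fc00_lc
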