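import Pool.Agent.Lib.MP_f2fc00_lc.Transfer
import Pool.Agent.Lib.MP_f2fc00_lc.Reduction

set_option autoImplicit false

/-!
# The reduction graph in coordinates

The vertices of the reduction graph are numbered, and the adjacency matrix is computed by a
template.
-/

namespace Pool.Agent.Lib.MP_f2fc00_lc

open Ram

/-! ## Templates for truth values -/

namespace Ram.Tm

/-- conjunction -/
def and (s t : Tm) : Tm := .op .mul s t
/-- disjunction -/
def or (s t : Tm) : Tm := .op .add s t
/-- negation -/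
def not (s : Tm) : Tm := .op .eq s (.lit 0)
/-- equality -/
def eq (s t : Tm) : Tm := .op .eq s t
/-- strict inequality -/
def lt (s t : Tm) : Tm := .op .lt s t
/-- `1` if the value is not `0`, and `0` otherwise -/
def norm (t : Tm) : Tm := .op .lt (.lit 0) t

variable (I : Input) (x y : ℕ)

theorem and_ne {s t : Tm} : (and s t).val I x y ≠ 0 ↔ s.val I x y ≠ 0 ∧ t.val I x y ≠ 0 := by
  show s.val I x y * t.val I x y ≠ 0 ↔ _
  rw [mul_ne_zero_iff]

theorem or_ne {s t : Tm} : (or s t).val I x y ≠ 0 ↔ s.val I x y ≠ 0 ∨ t.val I x y ≠ 0 := by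
  show s.val I x y + t.val I x y ≠ 0 ↔ _
  omega

theorem not_ne {s : Tm} : (not s).val I x y ≠ 0 ↔ ¬ s.val I x y ≠ 0 := by
  show (if s.val I x y = 0 then 1 else 0) ≠ 0 ↔ _
  split_ifs with h <;> simp [h]

theorem eq_ne {s t : Tm} : (eq s t).val I x y ≠ 0 ↔ s.val I x y = t.val I x y := by
  show (if s.val I x y = t.val I x y then 1 else 0) ≠ 0 ↔ _
  split_ifs with h <;> simp [h]

theorem lt_ne {s t : Tm} : (lt s t).val I x y ≠ 0 ↔ s.val I x y < t.val I x y := by
  show (if s.val I x y < t.val I x y then 1 else 0) ≠ 0 ↔ _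
  split_ifs with h <;> simp [h]

open Classical in
theorem norm_val {t : Tm} : (norm t).val I x y = if t.val I x y ≠ 0 then 1 else 0 := by
  show (if 0 < t.val I x y then 1 else 0) = _
  simp only [Nat.pos_iff_ne_zero]

end Ram.Tm

/-! ## The template of the adjacency matrix -/

section
variable (d : ℕ)

/-- the vertex belongs to the block -/
def tBlk (z : Tm) : Tm := .lt z (.lit (4 * d))
/-- side of a block vertex -/
def tSide (z : Tm) : Tm := .op .div z (.lit (2 * d))
/-- index of a block vertex -/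
def tIdx (z : Tm) : Tm := .op .mod z (.lit (2 * d))
/-- kind of an outer vertex -/
def tKind (z : Tm) : Tm := .op .mod (.op .sub z (.lit (4 * d))) (.lit 4)
/-- number of the cell of an outer vertex -/
def tCell (z : Tm) : Tm := .op .div (.op .sub z (.lit (4 * d))) (.lit 4)
/-- row of the cell -/
def tRow (z : Tm) : Tm := .op .div (tCell d z) .cols
/-- column of the cell -/
def tCol (z : Tm) : Tm := .op .mod (tCell d z) .cols

/-- the same cell -/
def tSame (z w : Tm) : Tm := .and (.eq (tRow d z) (tRow d w)) (.eq (tCol d z) (tCol d w))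

/-- the next cell of the chain -/
def tNext (z w : Tm) : Tm :=
  .or (.and (.eq (tRow d w) (tRow d z)) (.eq (tCol d w) (.op .add (tCol d z) (.lit 1))))
    (.and (.eq (.op .mod (tRow d z) (.lit 2)) (.lit 0))
      (.and (.eq (tRow d w) (.op .add (tRow d z) (.lit 1)))
        (.and (.eq (.op .add (tCol d z) (.lit 1)) .cols) (.eq (tCol d w) (.lit 0)))))

/-- kinds -/
def tKinds (z w : Tm) (a b : ℕ) (t : Tm) : Tm :=
  .and (.eq (tKind d z) (.lit a)) (.and (.eq (tKind d w) (.lit b)) t)

/-- the relation between outer vertices -/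
def tOuter (z w : Tm) : Tm :=
  .or (tKinds d z w 0 1 (tSame d z w)) <|
  .or (tKinds d z w 0 2 (tSame d z w)) <|
  .or (tKinds d z w 1 2 (tSame d z w)) <|
  .or (tKinds d z w 1 0 (tNext d z w)) <|
  .or (tKinds d z w 3 0 (.and (tSame d z w) (.and (.inp (tRow d z) (tCol d z))
    (.eq (.op .mod (tRow d z) (.lit 2)) (.lit 0))))) <|
  .or (tKinds d z w 3 1 (.and (tSame d z w) (.and (.inp (tRow d z) (tCol d z))
    (.eq (.op .mod (tRow d z) (.lit 2)) (.lit 1))))) <|
  tKinds d z w 3 3 (.and (.eq (tCol d z) (tCol d w))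
    (.eq (tRow d w) (.op .add (tRow d z) (.lit 1))))

/-- the number of neighbours in the block -/
def tCost (z : Tm) : Tm :=
  .op .add (.lit (d - 2)) <|
  .op .add (.eq (tKind d z) (.lit 2)) <|
  .op .mul (.eq (tKind d z) (.lit 3)) <|
  .op .add (.eq (tRow d z) (.lit 0)) <|
  .op .add (.eq (.op .add (tRow d z) (.lit 1)) .rows) <|
  .not (.inp (tRow d z) (tCol d z))

/-- the reference relation -/
def tRel (z w : Tm) : Tm :=
  .or (.and (tBlk d z) (.and (tBlk d w) (.not (.eq (tSide d z) (tSide d w))))) <|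
  .or (.and (tBlk d z) (.and (.not (tBlk d w))
    (.and (.eq (tSide d z) (.lit 0)) (.lt (tIdx d z) (tCost d w))))) <|
  .and (.not (tBlk d z)) (.and (.not (tBlk d w)) (tOuter d z w))

/-- the number of vertices -/
def tN : Tm := .op .add (.lit (4 * d)) (.op .mul (.lit 4) (.op .mul .rows .cols))

/-- the adjacency matrix -/
def tAdj : Tm :=
  .norm (.and (.lt .x (tN d)) (.and (.lt .y (tN d)) (.or (tRel d .x .y) (tRel d .y .x))))

/-- the reduction -/
def redR : Red := ⟨tN d, tN d, tAdj d⟩

end

/-! ## Numbering of the vertices -/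

/-- number of a kind -/
def Kind.num : Kind → ℕ
  | .p => 0
  | .q => 1
  | .t => 2
  | .c => 3

theorem Kind.num_lt (x : Kind) : x.num < 4 := by
  cases x <;> simp [Kind.num]

theorem Kind.num_inj {x y : Kind} (h : x.num = y.num) : x = y := by
  cases x <;> cases y <;> simp [Kind.num] at h ⊢

/-- number of a block vertex -/
def encB {d : ℕ} (a : Blk d) : ℕ := (if a.1 then 2 * d else 0) + a.2.val

/-- number of an outer vertex -/
def encO {n m : ℕ} (d : ℕ) (w : Outer n m) : ℕ :=
  4 * d + (4 * (w.1.1.val * m + w.1.2.val) + w.2.num)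

/-- number of a vertex -/
def enc {k n m : ℕ} : RedV k n m → ℕ
  | .inl a => encB a
  | .inr w => encO (k - 1) w

theorem encB_lt {d : ℕ} (a : Blk d) : encB a < 4 * d := by
  have := a.2.isLt
  unfold encB
  split_ifs <;> omega

theorem encB_side {d : ℕ} (a : Blk d) : encB a / (2 * d) = if a.1 then 1 else 0 := by
  have h := a.2.isLt
  unfold encB
  split_ifs
  · rw [Nat.add_div_left _ (by omega), Nat.div_eq_of_lt h]
  · rw [zero_add, Nat.div_eq_of_lt h]

theorem encB_idx {d : ℕ} (a : Blk d) : encB a % (2 * d) = a.2.val := by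
  have h := a.2.isLt
  unfold encB
  split_ifs
  · rw [Nat.add_mod_left, Nat.mod_eq_of_lt h]
  · rw [zero_add, Nat.mod_eq_of_lt h]

section
variable {n m : ℕ} (d : ℕ) (w : Outer n m)

theorem encO_ge : ¬ encO d w < 4 * d := by
  unfold encO
  omega

theorem encO_kind : (encO d w - 4 * d) % 4 = w.2.num := by
  have := w.2.num_lt
  unfold encO
  omega

theorem encO_cell : (encO d w - 4 * d) / 4 = w.1.1.val * m + w.1.2.val := by
  have := w.2.num_lt
  unfold encO
  omega

theorem encO_row : (encO d w - 4 * d) / 4 / m = w.1.1.val := by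
  rw [encO_cell]
  have h := w.1.2.isLt
  rw [mul_comm, Nat.mul_add_div (by omega), Nat.div_eq_of_lt h, add_zero]

theorem encO_col : (encO d w - 4 * d) / 4 % m = w.1.2.val := by
  rw [encO_cell]
  have h := w.1.2.isLt
  rw [mul_comm, Nat.mul_add_mod, Nat.mod_eq_of_lt h]

theorem encO_lt : encO d w < 4 * d + 4 * (2 * n * m) := by
  have h1 := w.1.1.isLt
  have h2 := w.1.2.isLt
  have h3 := w.2.num_lt
  have h4 : (w.1.1.val + 1) * m ≤ 2 * n * m := Nat.mul_le_mul_right _ h1
  rw [Nat.succ_mul] at h4
  unfold encO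
  omega

end

theorem enc_lt {k n m : ℕ} (u : RedV k n m) : enc u < 4 * (k - 1) + 4 * (2 * n * m) := by
  rcases u with a | w
  · exact lt_of_lt_of_le (encB_lt a) (Nat.le_add_right _ _)
  · exact encO_lt _ w

theorem enc_inj {k n m : ℕ} : Function.Injective (enc (k := k) (n := n) (m := m)) := by
  rintro (a | w) (b | v) h
  · have h : encB a = encB b := h
    have h1 := encB_side a
    have h2 := encB_idx a
    rw [h, encB_side] at h1
    rw [h, encB_idx] at h2
    congr 1
    refine Prod.ext ?_ (Fin.ext h2.symm)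
    rcases ha : a.1 <;> rcases hb : b.1 <;> simp [ha, hb] at h1 ⊢
  · exact absurd (lt_of_eq_of_lt (Eq.symm h) (encB_lt a)) (encO_ge _ v)
  · exact absurd (lt_of_eq_of_lt h (encB_lt b)) (encO_ge _ w)
  · have h : encO (k - 1) w = encO (k - 1) v := h
    have h1 := encO_row (k - 1) w
    have h2 := encO_col (k - 1) w
    have h3 := encO_kind (k - 1) w
    rw [h, encO_row] at h1
    rw [h, encO_col] at h2
    rw [h, encO_kind] at h3
    congr 1
    exact Prod.ext (Prod.ext (Fin.ext h1.symm) (Fin.ext h2.symm)) (Kind.num_inj h3.symm)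

/-- the numbering of the vertices -/
noncomputable def encEquiv (k n m : ℕ) : RedV k n m ≃ Fin (4 * (k - 1) + 4 * (2 * n * m)) :=
  Equiv.ofBijective (fun u => ⟨enc u, enc_lt u⟩)
    ((Fintype.bijective_iff_injective_and_card _).2
      ⟨fun u v h => enc_inj (congrArg Fin.val h), by
        rw [card_redV, Fintype.card_fin]
        ring⟩)

theorem encEquiv_val (k n m : ℕ) (u : RedV k n m) : (encEquiv k n m u).val = enc u := rfl

/-! ## Evaluation of the template -/

section
variable {n m : ℕ} (d : ℕ) (A : Fin (2 * n) → Fin m → Bool)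

/-- The satisfiability problem as an input. -/
noncomputable def satInput : Input := matrixInput (fun r j => A r j = true)

theorem satInput_rows : (satInput A).rows = 2 * n := rfl
theorem satInput_cols : (satInput A).cols = m := rfl

theorem satInput_bit (r : Fin (2 * n)) (j : Fin m) :
    (satInput A).bit r.val j.val = if A r j = true then 1 else 0 := by
  show (if h : r.val < 2 * n ∧ j.val < m then _ else 0) = _
  rw [dif_pos ⟨r.isLt, j.isLt⟩]
  by_cases h : A r j = true
  · rw [if_pos h, if_pos h]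
  · rw [if_neg h, if_neg h]

variable (x y : ℕ) (z : Tm)

theorem blk_val : (tBlk d z).val (satInput A) x y ≠ 0 ↔ z.val (satInput A) x y < 4 * d :=
  Tm.lt_ne _ _ _

theorem side_val : (tSide d z).val (satInput A) x y = z.val (satInput A) x y / (2 * d) := rfl
theorem idx_val : (tIdx d z).val (satInput A) x y = z.val (satInput A) x y % (2 * d) := rfl
theorem kind_val : (tKind d z).val (satInput A) x y = (z.val (satInput A) x y - 4 * d) % 4 := rfl
theorem row_val : (tRow d z).val (satInput A) x y = (z.val (satInput A) x y - 4 * d) / 4 / m := rfl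
theorem col_val : (tCol d z).val (satInput A) x y = (z.val (satInput A) x y - 4 * d) / 4 % m := rfl

theorem blk_of_B {a : Blk d} (h : z.val (satInput A) x y = encB a) :
    (tBlk d z).val (satInput A) x y ≠ 0 ↔ True := by
  rw [blk_val, h]
  exact iff_true_intro (encB_lt a)

theorem blk_of_O {w : Outer n m} (h : z.val (satInput A) x y = encO d w) :
    (tBlk d z).val (satInput A) x y ≠ 0 ↔ False := by
  rw [blk_val, h]
  exact iff_false_intro (encO_ge d w)

theorem kind_of_O {w : Outer n m} (h : z.val (satInput A) x y = encO d w) :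
    (tKind d z).val (satInput A) x y = w.2.num := by
  rw [kind_val, h, encO_kind]

theorem row_of_O {w : Outer n m} (h : z.val (satInput A) x y = encO d w) :
    (tRow d z).val (satInput A) x y = w.1.1.val := by
  rw [row_val, h, encO_row]

theorem col_of_O {w : Outer n m} (h : z.val (satInput A) x y = encO d w) :
    (tCol d z).val (satInput A) x y = w.1.2.val := by
  rw [col_val, h, encO_col]

theorem inp_of_O {w : Outer n m} (h : z.val (satInput A) x y = encO d w) :
    (Tm.inp (tRow d z) (tCol d z)).val (satInput A) x y = if A w.1.1 w.1.2 = true then 1 else 0 := by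
  show (satInput A).bit ((tRow d z).val (satInput A) x y) ((tCol d z).val (satInput A) x y) = _
  rw [row_of_O d A x y z h, col_of_O d A x y z h, satInput_bit]

theorem inp_of_O' {w : Outer n m} (h : z.val (satInput A) x y = encO d w) :
    (Tm.inp (tRow d z) (tCol d z)).val (satInput A) x y ≠ 0 ↔ A w.1.1 w.1.2 = true := by
  rw [inp_of_O d A x y z h]
  by_cases h : A w.1.1 w.1.2 = true <;> simp [h]

theorem cost_of_O (hd : 2 ≤ d) {w : Outer n m} (h : z.val (satInput A) x y = encO d w) :
    (tCost d z).val (satInput A) x y = cost d A w := by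
  show d - 2 + ((if (tKind d z).val (satInput A) x y = 2 then 1 else 0) +
    (if (tKind d z).val (satInput A) x y = 3 then 1 else 0) *
      ((if (tRow d z).val (satInput A) x y = 0 then 1 else 0) +
        ((if (tRow d z).val (satInput A) x y + 1 = 2 * n then 1 else 0) +
          (if (Tm.inp (tRow d z) (tCol d z)).val (satInput A) x y = 0 then 1 else 0)))) = _
  rw [kind_of_O d A x y z h, row_of_O d A x y z h, inp_of_O d A x y z h]
  obtain ⟨⟨r, j⟩, kd⟩ := w
  cases kd
  · simp [Kind.num, cost]
  · simp [Kind.num, cost]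
  · simp [Kind.num, cost]
    omega
  · by_cases hA : A r j = true
    · simp [Kind.num, cost, hA]
      omega
    · simp [Kind.num, cost, hA]
      omega

theorem same_of_O {z' : Tm} {w w' : Outer n m} (h : z.val (satInput A) x y = encO d w)
    (h' : z'.val (satInput A) x y = encO d w') :
    (tSame d z z').val (satInput A) x y ≠ 0 ↔ w.1 = w'.1 := by
  unfold tSame
  rw [Tm.and_ne, Tm.eq_ne, Tm.eq_ne, row_of_O d A x y z h, col_of_O d A x y z h,
    row_of_O d A x y z' h', col_of_O d A x y z' h', Prod.ext_iff, Fin.ext_iff, Fin.ext_iff]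

theorem next_of_O {z' : Tm} {w w' : Outer n m} (h : z.val (satInput A) x y = encO d w)
    (h' : z'.val (satInput A) x y = encO d w') :
    (tNext d z z').val (satInput A) x y ≠ 0 ↔ Next w.1 w'.1 := by
  unfold tNext Next
  rw [Tm.or_ne, Tm.and_ne, Tm.and_ne, Tm.and_ne, Tm.and_ne, Tm.eq_ne, Tm.eq_ne, Tm.eq_ne, Tm.eq_ne,
    Tm.eq_ne, Tm.eq_ne]
  show ((tRow d z').val (satInput A) x y = (tRow d z).val (satInput A) x y ∧
    (tCol d z').val (satInput A) x y = (tCol d z).val (satInput A) x y + 1) ∨
    ((tRow d z).val (satInput A) x y % 2 = 0 ∧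
      (tRow d z').val (satInput A) x y = (tRow d z).val (satInput A) x y + 1 ∧
        (tCol d z).val (satInput A) x y + 1 = m ∧ (tCol d z').val (satInput A) x y = 0) ↔ _
  rw [row_of_O d A x y z h, col_of_O d A x y z h,
    row_of_O d A x y z' h', col_of_O d A x y z' h', Fin.ext_iff]

theorem kinds_of_O {z' : Tm} {w w' : Outer n m} (h : z.val (satInput A) x y = encO d w)
    (h' : z'.val (satInput A) x y = encO d w') (a b : ℕ) (t : Tm) :
    (tKinds d z z' a b t).val (satInput A) x y ≠ 0 ↔
      w.2.num = a ∧ w'.2.num = b ∧ t.val (satInput A) x y ≠ 0 := by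
  unfold tKinds
  rw [Tm.and_ne, Tm.and_ne, Tm.eq_ne, Tm.eq_ne, kind_of_O d A x y z h, kind_of_O d A x y z' h']
  rfl

theorem outer_of_O {z' : Tm} {w w' : Outer n m} (h : z.val (satInput A) x y = encO d w)
    (h' : z'.val (satInput A) x y = encO d w') :
    (tOuter d z z').val (satInput A) x y ≠ 0 ↔ outerRel A w w' := by
  have hmod : ∀ b : ℕ, (Tm.eq (.op .mod (tRow d z) (.lit 2)) (.lit b)).val (satInput A) x y ≠ 0 ↔
      w.1.1.val % 2 = b := by
    intro b
    rw [Tm.eq_ne]
    show (tRow d z).val (satInput A) x y % 2 = b ↔ _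
    rw [row_of_O d A x y z h]
  have hcc : (Tm.and (.eq (tCol d z) (tCol d z'))
      (.eq (tRow d z') (.op .add (tRow d z) (.lit 1)))).val (satInput A) x y ≠ 0 ↔
      w.1.2 = w'.1.2 ∧ w'.1.1.val = w.1.1.val + 1 := by
    rw [Tm.and_ne, Tm.eq_ne, Tm.eq_ne]
    show (tCol d z).val (satInput A) x y = (tCol d z').val (satInput A) x y ∧
      (tRow d z').val (satInput A) x y = (tRow d z).val (satInput A) x y + 1 ↔ _
    rw [row_of_O d A x y z h, col_of_O d A x y z h,
      row_of_O d A x y z' h', col_of_O d A x y z' h', Fin.ext_iff]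
  unfold tOuter
  simp only [Tm.or_ne, kinds_of_O d A x y z h h', Tm.and_ne, same_of_O d A x y z h h',
    next_of_O d A x y z h h', hmod, inp_of_O' d A x y z h]
  rw [← Tm.and_ne, hcc]
  obtain ⟨c, kd⟩ := w
  obtain ⟨c', kd'⟩ := w'
  cases kd <;> cases kd' <;> simp [Kind.num, outerRel]

end

/-- the reference relation of the reduction graph -/
def dirRel (k : ℕ) {n m : ℕ} (A : Fin (2 * n) → Fin m → Bool) : RedV k n m → RedV k n m → Prop
  | .inl a, .inl b => a.1 ≠ b.1
  | .inl a, .inr w => a.1 = false ∧ a.2.val < cost (k - 1) A w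
  | .inr _, .inl _ => False
  | .inr w, .inr w' => outerRel A w w'

theorem redGraph_adj_iff (k : ℕ) {n m : ℕ} (A : Fin (2 * n) → Fin m → Bool) (u v : RedV k n m) :
    (redGraph k A).Adj u v ↔ dirRel k A u v ∨ dirRel k A v u := by
  rcases u with a | w <;> rcases v with b | v
  · show a.1 ≠ b.1 ↔ a.1 ≠ b.1 ∨ b.1 ≠ a.1
    rw [ne_comm (a := b.1), or_self]
  · show a.1 = false ∧ a.2.val < cost (k - 1) A v ↔ (a.1 = false ∧ a.2.val < cost (k - 1) A v) ∨ False
    rw [or_false]
  · show b.1 = false ∧ b.2.val < cost (k - 1) A w ↔ False ∨ (b.1 = false ∧ b.2.val < cost (k - 1) A w)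
    rw [false_or]
  · exact Iff.rfl

theorem rel_val {k n m : ℕ} (hk : 3 ≤ k) (A : Fin (2 * n) → Fin m → Bool) (x y : ℕ) (z z' : Tm)
    (u v : RedV k n m) (hu : z.val (satInput A) x y = enc u) (hv : z'.val (satInput A) x y = enc v) :
    (tRel (k - 1) z z').val (satInput A) x y ≠ 0 ↔ dirRel k A u v := by
  unfold tRel
  rcases u with a | w <;> rcases v with b | w'
  · have hu : z.val (satInput A) x y = encB a := hu
    have hv : z'.val (satInput A) x y = encB b := hv
    simp only [Tm.or_ne, Tm.and_ne, Tm.not_ne, Tm.eq_ne, blk_of_B (k - 1) A x y z hu,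
      blk_of_B (k - 1) A x y z' hv, not_true, true_and, false_and, or_false, side_val, hu, hv,
      encB_side]
    show (¬ (if a.1 then 1 else 0) = (if b.1 then 1 else 0)) ↔ a.1 ≠ b.1
    rcases a.1 <;> rcases b.1 <;> simp
  · have hu : z.val (satInput A) x y = encB a := hu
    have hv : z'.val (satInput A) x y = encO (k - 1) w' := hv
    simp only [Tm.or_ne, Tm.and_ne, Tm.not_ne, Tm.eq_ne, Tm.lt_ne, blk_of_B (k - 1) A x y z hu,
      blk_of_O (k - 1) A x y z' hv, not_true, not_false_iff, true_and, false_and, or_false, false_or,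
      side_val, idx_val, hu, encB_side, encB_idx, cost_of_O (k - 1) A x y z' (by omega) hv]
    show ((if a.1 then 1 else 0) = 0 ∧ a.2.val < cost (k - 1) A w') ↔ a.1 = false ∧ _
    rcases a.1 <;> simp
  · have hu : z.val (satInput A) x y = encO (k - 1) w := hu
    have hv : z'.val (satInput A) x y = encB b := hv
    simp only [Tm.or_ne, Tm.and_ne, Tm.not_ne, blk_of_O (k - 1) A x y z hu,
      blk_of_B (k - 1) A x y z' hv, not_true, false_and, and_false, or_false]
    exact Iff.rfl
  · have hu : z.val (satInput A) x y = encO (k - 1) w := hu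
    have hv : z'.val (satInput A) x y = encO (k - 1) w' := hv
    simp only [Tm.or_ne, Tm.and_ne, Tm.not_ne, blk_of_O (k - 1) A x y z hu,
      blk_of_O (k - 1) A x y z' hv, not_false_iff, true_and, false_and, false_or,
      outer_of_O (k - 1) A x y z hu hv]
    exact Iff.rfl

theorem adj_val {k n m : ℕ} (hk : 3 ≤ k) (A : Fin (2 * n) → Fin m → Bool) (x y : ℕ) [Decidable (∃ u v : RedV k n m, enc u = x ∧ enc v = y ∧ (redGraph k A).Adj u v)] :
    (tAdj (k - 1)).val (satInput A) x y =
      if (∃ u v : RedV k n m, enc u = x ∧ enc v = y ∧ (redGraph k A).Adj u v) then 1 else 0 := by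
  unfold tAdj
  rw [Tm.norm_val]
  refine if_congr ?_ rfl rfl
  have hN : (tN (k - 1)).val (satInput A) x y = 4 * (k - 1) + 4 * (2 * n * m) := rfl
  rw [Tm.and_ne, Tm.and_ne, Tm.or_ne, Tm.lt_ne, Tm.lt_ne, hN]
  constructor
  · rintro ⟨hx, hy, h⟩
    have hx : x < 4 * (k - 1) + 4 * (2 * n * m) := hx
    have hy : y < 4 * (k - 1) + 4 * (2 * n * m) := hy
    obtain ⟨u, hu⟩ := (encEquiv k n m).surjective ⟨x, hx⟩
    obtain ⟨v, hv⟩ := (encEquiv k n m).surjective ⟨y, hy⟩
    have hu : enc u = x := congrArg Fin.val hu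
    have hv : enc v = y := congrArg Fin.val hv
    refine ⟨u, v, hu, hv, ?_⟩
    rw [redGraph_adj_iff]
    rcases h with h | h
    · exact Or.inl ((rel_val hk A x y .x .y u v hu.symm hv.symm).1 h)
    · exact Or.inr ((rel_val hk A x y .y .x v u hv.symm hu.symm).1 h)
  · rintro ⟨u, v, rfl, rfl, h⟩
    refine ⟨enc_lt u, enc_lt v, ?_⟩
    rw [redGraph_adj_iff] at h
    rcases h with h | h
    · exact Or.inl ((rel_val hk A _ _ .x .y u v rfl rfl).2 h)
    · exact Or.inr ((rel_val hk A _ _ .y .x v u rfl rfl).2 h)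

/-- The reduction graph with vertices numbered. -/
noncomputable def redFin (k : ℕ) {n m : ℕ} (A : Fin (2 * n) → Fin m → Bool) :
    SimpleGraph (Fin (4 * (k - 1) + 4 * (2 * n * m))) :=
  (redGraph k A).comap (encEquiv k n m).symm

theorem input_ext {I J : Input} (h1 : I.rows = J.rows) (h2 : I.cols = J.cols)
    (h3 : I.bit = J.bit) : I = J := by
  cases I
  cases J
  simp only at h1 h2 h3
  subst h1
  subst h2
  subst h3
  rfl

theorem redMap_rows (k : ℕ) {n m : ℕ} (A : Fin (2 * n) → Fin m → Bool) :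
    ((redR (k - 1)).map (satInput A)).rows = 4 * (k - 1) + 4 * (2 * n * m) := rfl

theorem redMap_cols (k : ℕ) {n m : ℕ} (A : Fin (2 * n) → Fin m → Bool) :
    ((redR (k - 1)).map (satInput A)).cols = 4 * (k - 1) + 4 * (2 * n * m) := rfl

theorem red_map_bit (R : Red) (I : Input) (i j : ℕ) : (R.map I).bit i j = R.bit.val I i j := rfl

theorem redR_bit (d : ℕ) : (redR d).bit = tAdj d := rfl

theorem redMap_bit (k : ℕ) {n m : ℕ} (A : Fin (2 * n) → Fin m → Bool) (i j : ℕ) :
    ((redR (k - 1)).map (satInput A)).bit i j = (tAdj (k - 1)).val (satInput A) i j := by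
  rw [red_map_bit, redR_bit]

theorem matrixInput_rows {a b : ℕ} (M : Fin a → Fin b → Prop) : (matrixInput M).rows = a := rfl

theorem matrixInput_cols {a b : ℕ} (M : Fin a → Fin b → Prop) : (matrixInput M).cols = b := rfl

open Classical in
theorem matrixInput_bit {a b : ℕ} (M : Fin a → Fin b → Prop) (i j : ℕ) :
    (matrixInput M).bit i j =
      if h : i < a ∧ j < b then (if M ⟨i, h.1⟩ ⟨j, h.2⟩ then 1 else 0) else 0 := rfl

theorem redR_map {k n m : ℕ} (hk : 3 ≤ k) (A : Fin (2 * n) → Fin m → Bool) :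
    (redR (k - 1)).map (satInput A) = matrixInput (redFin k A).Adj := by
  classical
  refine input_ext ?_ ?_ ?_
  · rw [redMap_rows, matrixInput_rows]
  · rw [redMap_cols, matrixInput_cols]
  funext i j
  rw [redMap_bit, matrixInput_bit, adj_val hk]
  by_cases hij : i < 4 * (k - 1) + 4 * (2 * n * m) ∧ j < 4 * (k - 1) + 4 * (2 * n * m)
  · rw [dif_pos hij]
    refine if_congr ?_ rfl rfl
    constructor
    · rintro ⟨u, v, hu, hv, h⟩
      have hu' : (⟨i, hij.1⟩ : Fin (4 * (k - 1) + 4 * (2 * n * m))) = encEquiv k n m u :=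
        Fin.ext hu.symm
      have hv' : (⟨j, hij.2⟩ : Fin (4 * (k - 1) + 4 * (2 * n * m))) = encEquiv k n m v :=
        Fin.ext hv.symm
      rw [hu', hv']
      unfold redFin
      rw [SimpleGraph.comap_adj, Equiv.symm_apply_apply, Equiv.symm_apply_apply]
      exact h
    · intro h
      unfold redFin at h
      rw [SimpleGraph.comap_adj] at h
      refine ⟨_, _, ?_, ?_, h⟩
      · exact congrArg Fin.val ((encEquiv k n m).apply_symm_apply ⟨i, hij.1⟩)
      · exact congrArg Fin.val ((encEquiv k n m).apply_symm_apply ⟨j, hij.2⟩)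
  · rw [dif_neg hij, if_neg]
    rintro ⟨u, v, rfl, rfl, _⟩
    exact hij ⟨enc_lt u, enc_lt v⟩

theorem matrixInput_bits {a b : ℕ} (M : Fin a → Fin b → Prop) : (matrixInput M).Bits := by
  classical
  intro i j
  show (if h : i < a ∧ j < b then _ else 0) ≤ 1
  split_ifs <;> omega

end Pool.Agent.Lib.MP_f2fc00_lc
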