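import Pool.Agent.Lib.MP_f2fc00_lc.Cap

set_option autoImplicit false

namespace Pool.Agent.Lib.MP_f2fc00_lc

open Finset

section General

variable {V : Type*} [DecidableEq V]

/-- the arc of `D` on the edge `{x, y}` -/
def arcOf (D : Finset (V × V)) (x y : V) : V × V := if (x, y) ∈ D then (x, y) else (y, x)

theorem arcOf_mem {G : SimpleGraph V} {D : Finset (V × V)} (hD : IsOrientation G D) {x y : V}
    (h : G.Adj x y) : arcOf D x y ∈ D := by
  unfold arcOf
  split_ifs with h1
  · exact h1
  · by_contra h2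
    exact h1 ((hD.2 x y h).mpr h2)

theorem eps_mul_bd {G : SimpleGraph V} {D F : Finset (V × V)} (hD : IsOrientation G D)
    (hF : F ⊆ D) {x y : V} (h : G.Adj x y) (v : V) :
    eps F (arcOf D x y) * bd (arcOf D x y) v =
      if (x, y) ∈ rev D F then bd (x, y) v else bd (y, x) v := by
  have h1 := hD.2 x y h
  have hbd : bd (y, x) v = - bd (x, y) v := by unfold bd; ring
  by_cases h2 : (x, y) ∈ D
  · have h3 : (y, x) ∉ D := h1.mp h2
    have h4 : (y, x) ∉ F := fun h' => h3 (hF h')
    have h5 : (x, y) ∈ rev D F ↔ (x, y) ∉ F := by rw [mem_rev]; tauto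
    simp only [arcOf, if_pos h2, eps]
    by_cases h6 : (x, y) ∈ F
    · rw [if_pos h6, if_neg (by rw [h5]; exact fun h => h h6), hbd]; ring
    · rw [if_neg h6, if_pos (by rw [h5]; exact h6)]; ring
  · have h3 : (y, x) ∈ D := by by_contra h'; exact h2 (h1.mpr h')
    have h4 : (x, y) ∉ F := fun h' => h2 (hF h')
    have h5 : (x, y) ∈ rev D F ↔ (y, x) ∈ F := by rw [mem_rev]; tauto
    simp only [arcOf, if_neg h2, eps]
    by_cases h6 : (y, x) ∈ F
    · rw [if_pos h6, if_pos (by rw [h5]; exact h6), hbd]; ring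
    · rw [if_neg h6, if_neg (by rw [h5]; exact h6)]; ring

/-- the three arcs of `D` on a triangle -/
def tri (D : Finset (V × V)) (x y z : V) : Finset (V × V) :=
  {arcOf D x y, arcOf D x z, arcOf D y z}

theorem arcOf_cases (D : Finset (V × V)) (x y : V) :
    arcOf D x y = (x, y) ∨ arcOf D x y = (y, x) := by
  unfold arcOf; split_ifs <;> simp

theorem tri_ne {D : Finset (V × V)} {x y z : V} (hxy : x ≠ y) (hxz : x ≠ z) (hyz : y ≠ z) :
    arcOf D x y ≠ arcOf D x z ∧ arcOf D x y ≠ arcOf D y z ∧ arcOf D x z ≠ arcOf D y z := by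
  rcases arcOf_cases D x y with h1 | h1 <;> rcases arcOf_cases D x z with h2 | h2 <;>
  rcases arcOf_cases D y z with h3 | h3 <;> rw [h1, h2, h3] <;>
  simp [hxy, hxz, hyz, hxy.symm, hxz.symm, hyz.symm]

theorem card_tri {D : Finset (V × V)} {x y z : V} (hxy : x ≠ y) (hxz : x ≠ z) (hyz : y ≠ z) :
    (tri D x y z).card = 3 := by
  obtain ⟨h1, h2, h3⟩ := tri_ne (D := D) hxy hxz hyz
  unfold tri
  rw [card_insert_of_notMem, card_insert_of_notMem, card_singleton]
  · simpa using h3
  · simp [h1, h2]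

theorem tri_subset {G : SimpleGraph V} {D : Finset (V × V)} (hD : IsOrientation G D) {x y z : V}
    (hxy : G.Adj x y) (hxz : G.Adj x z) (hyz : G.Adj y z) : tri D x y z ⊆ D := by
  intro a ha
  simp only [tri, mem_insert, mem_singleton] at ha
  rcases ha with rfl | rfl | rfl
  · exact arcOf_mem hD hxy
  · exact arcOf_mem hD hxz
  · exact arcOf_mem hD hyz

theorem mem_tri_fst {D : Finset (V × V)} {x y z : V} {a : V × V} (h : a ∈ tri D x y z) :
    a.1 = x ∨ a.1 = y ∨ a.1 = z := by
  simp only [tri, mem_insert, mem_singleton] at h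
  rcases h with rfl | rfl | rfl
  · rcases arcOf_cases D x y with h | h <;> simp [h]
  · rcases arcOf_cases D x z with h | h <;> simp [h]
  · rcases arcOf_cases D y z with h | h <;> simp [h]

/-- A triangle which is cyclic after reversing `F` is balanced. -/
theorem balanced_of_cyclic {G : SimpleGraph V} {D F : Finset (V × V)} (hD : IsOrientation G D)
    (hF : F ⊆ D) {x y z : V} (hxy : G.Adj x y) (hxz : G.Adj x z) (hyz : G.Adj y z)
    (h : ((x, y) ∈ rev D F ∧ (y, z) ∈ rev D F ∧ (z, x) ∈ rev D F) ∨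
      ((y, x) ∈ rev D F ∧ (z, y) ∈ rev D F ∧ (x, z) ∈ rev D F)) :
    Balanced (tri D x y z) F := by
  intro v
  obtain ⟨h1, h2, h3⟩ := tri_ne (D := D) hxy.ne hxz.ne hyz.ne
  unfold tri
  rw [sum_insert (by simp [h1, h2]), sum_insert (by simpa using h3), sum_singleton,
    eps_mul_bd hD hF hxy, eps_mul_bd hD hF hxz, eps_mul_bd hD hF hyz]
  have hO := isOrientation_rev hD hF
  have e1 := hO.2 _ _ hxy
  have e2 := hO.2 _ _ hxz
  have e3 := hO.2 _ _ hyz
  rcases h with ⟨g1, g2, g3⟩ | ⟨g1, g2, g3⟩
  · have g4 : (x, z) ∉ rev D F := fun h => (e2.mp h) g3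
    rw [if_pos g1, if_neg g4, if_pos g2]
    simp only [bd]; ring
  · have g4 : (x, y) ∉ rev D F := fun h => (e1.mp h) g1
    have g5 : (y, z) ∉ rev D F := fun h => (e3.mp h) g2
    rw [if_neg g4, if_pos g3, if_neg g5]
    simp only [bd]; ring

theorem card_le_outdeg (D : Finset (V × V)) (v : V) (U : Finset V) (h : ∀ u ∈ U, (v, u) ∈ D) :
    U.card ≤ outdeg D v := by
  unfold outdeg
  apply card_le_card_of_injOn (fun u => (v, u))
  · intro u hu
    simpa using h u hu
  · intro u _ u' _ h
    simpa using h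

end General

section Forward

variable {n m d : ℕ} {A : Fin (2 * n) → Fin m → Bool}

theorem adj_pq (κ : Cell n m) : (outerGraph A).Adj (κ, Kind.p) (κ, Kind.q) := Or.inl rfl
theorem adj_pt (κ : Cell n m) : (outerGraph A).Adj (κ, Kind.p) (κ, Kind.t) := Or.inl rfl
theorem adj_qt (κ : Cell n m) : (outerGraph A).Adj (κ, Kind.q) (κ, Kind.t) := Or.inl rfl

/-- an orientation of the outer graph respecting the capacities and with no cyclic cell triangle -/
structure Good (d : ℕ) (A : Fin (2 * n) → Fin m → Bool) (O : Finset (Outer n m × Outer n m)) :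
    Prop where
  ori : IsOrientation (outerGraph A) O
  deg : ∀ w, outdeg O w + cost d A w ≤ d
  cyc : ∀ κ : Cell n m,
    ¬ (((κ, Kind.p), (κ, Kind.q)) ∈ O ∧ ((κ, Kind.q), (κ, Kind.t)) ∈ O ∧
      ((κ, Kind.t), (κ, Kind.p)) ∈ O) ∧
    ¬ (((κ, Kind.q), (κ, Kind.p)) ∈ O ∧ ((κ, Kind.t), (κ, Kind.q)) ∈ O ∧
      ((κ, Kind.p), (κ, Kind.t)) ∈ O)

theorem exists_good {D : Finset (Outer n m × Outer n m)} (hD : IsOrientation (outerGraph A) D)
    (hE : EE D ≠ EO D) (hdeg : ∀ w, outdeg D w + cost d A w ≤ d) : ∃ O, Good d A O := by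
  classical
  rw [← SE_ne_zero_iff] at hE
  let T : Cell n m → Finset (Outer n m × Outer n m) := fun κ =>
    tri D (κ, Kind.p) (κ, Kind.q) (κ, Kind.t)
  have hT := SE_cancel D (univ : Finset (Cell n m)) T
    (fun κ _ => tri_subset hD (adj_pq κ) (adj_pt κ) (adj_qt κ))
    (fun κ _ => by
      rw [card_tri (adj_pq (A := A) κ).ne (adj_pt (A := A) κ).ne (adj_qt (A := A) κ).ne]
      decide)
    (fun κ _ κ' _ hne => by
      rw [Finset.disjoint_left]
      intro a ha ha'
      have h1 := mem_tri_fst ha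
      have h2 := mem_tri_fst ha'
      apply hne
      have e1 : a.1.1 = κ := by rcases h1 with h | h | h <;> rw [h]
      have e2 : a.1.1 = κ' := by rcases h2 with h | h | h <;> rw [h]
      rw [← e1, ← e2])
  rw [hT] at hE
  obtain ⟨F, hFD, hFE, hFB⟩ := exists_of_SEgood_ne_zero hE
  refine ⟨rev D F, isOrientation_rev hD hFD, ?_, ?_⟩
  · intro w; rw [outdeg_rev hD hFD hFE]; exact hdeg w
  · intro κ
    have h1 := hFB κ (mem_univ _)
    constructor
    · rintro h
      exact h1 (balanced_of_cyclic hD hFD (adj_pq κ) (adj_pt κ) (adj_qt κ) (Or.inl h))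
    · rintro h
      exact h1 (balanced_of_cyclic hD hFD (adj_pq κ) (adj_pt κ) (adj_qt κ) (Or.inr h))

variable {O : Finset (Outer n m × Outer n m)}

/-- the vertex `q` of the cell is used up by its cell -/
def StQ (O : Finset (Outer n m × Outer n m)) (κ : Cell n m) : Prop :=
  ((κ, Kind.q), (κ, Kind.p)) ∈ O ∧ ((κ, Kind.q), (κ, Kind.t)) ∈ O

/-- the vertex `p` of the cell is used up by its cell -/
def StP (O : Finset (Outer n m × Outer n m)) (κ : Cell n m) : Prop :=
  ((κ, Kind.p), (κ, Kind.q)) ∈ O ∧ ((κ, Kind.p), (κ, Kind.t)) ∈ O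

theorem Good.mem_or (h : Good d A O) {x y : Outer n m} (hxy : (outerGraph A).Adj x y) :
    (x, y) ∈ O ∨ (y, x) ∈ O := by
  by_contra h'
  push Not at h'
  exact h'.1 ((h.ori.2 x y hxy).mpr h'.2)

theorem Good.not_both (h : Good d A O) {x y : Outer n m} (h1 : (x, y) ∈ O) : (y, x) ∉ O :=
  (h.ori.2 x y (h.ori.1 x y h1)).mp h1

theorem Good.deg_t (h : Good d A O) (hd : 2 ≤ d) (κ : Cell n m) : outdeg O (κ, Kind.t) ≤ 1 := by
  have := h.deg (κ, Kind.t)
  simp only [cost] at this
  omega

theorem Good.deg_p (h : Good d A O) (hd : 2 ≤ d) (κ : Cell n m) : outdeg O (κ, Kind.p) ≤ 2 := by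
  have := h.deg (κ, Kind.p)
  simp only [cost] at this
  omega

theorem Good.deg_q (h : Good d A O) (hd : 2 ≤ d) (κ : Cell n m) : outdeg O (κ, Kind.q) ≤ 2 := by
  have := h.deg (κ, Kind.q)
  simp only [cost] at this
  omega

theorem Good.state (h : Good d A O) (hd : 2 ≤ d) (κ : Cell n m) : StP O κ ∨ StQ O κ := by
  have ht := h.deg_t hd κ
  have key : ¬ (((κ, Kind.t), (κ, Kind.p)) ∈ O ∧ ((κ, Kind.t), (κ, Kind.q)) ∈ O) := by
    rintro ⟨h1, h2⟩
    have := card_le_outdeg O (κ, Kind.t) {(κ, Kind.p), (κ, Kind.q)} (by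
      intro u hu
      rw [mem_insert, mem_singleton] at hu
      rcases hu with rfl | rfl
      · exact h1
      · exact h2)
    rw [card_pair (by simp)] at this
    omega
  obtain ⟨c1, c2⟩ := h.cyc κ
  unfold StP StQ
  rcases h.mem_or (adj_pq κ) with h1 | h1
  · left
    refine ⟨h1, ?_⟩
    rcases h.mem_or (adj_pt κ) with h2 | h2
    · exact h2
    · exfalso
      rcases h.mem_or (adj_qt κ) with h3 | h3
      · exact c1 ⟨h1, h3, h2⟩
      · exact key ⟨h2, h3⟩
  · right
    refine ⟨h1, ?_⟩
    rcases h.mem_or (adj_qt κ) with h2 | h2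
    · exact h2
    · exfalso
      rcases h.mem_or (adj_pt κ) with h3 | h3
      · exact c2 ⟨h1, h2, h3⟩
      · exact key ⟨h3, h2⟩

theorem Good.not_PQ (h : Good d A O) (κ : Cell n m) (h1 : StP O κ) (h2 : StQ O κ) : False :=
  h.not_both h1.1 h2.1

/-- a vertex `p` which is used up by its cell has no further outgoing arc -/
theorem Good.P_out (h : Good d A O) (hd : 2 ≤ d) {κ : Cell n m} (h1 : StP O κ) {y : Outer n m}
    (hy1 : y ≠ (κ, Kind.q)) (hy2 : y ≠ (κ, Kind.t)) : ((κ, Kind.p), y) ∉ O := by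
  intro h2
  have := card_le_outdeg O (κ, Kind.p) {y, (κ, Kind.q), (κ, Kind.t)} (by
    intro u hu
    rw [mem_insert, mem_insert, mem_singleton] at hu
    rcases hu with rfl | rfl | rfl
    · exact h2
    · exact h1.1
    · exact h1.2)
  rw [card_insert_of_notMem (by simp [hy1, hy2]), card_pair (by simp)] at this
  have := h.deg_p hd κ
  omega

theorem Good.Q_out (h : Good d A O) (hd : 2 ≤ d) {κ : Cell n m} (h1 : StQ O κ) {y : Outer n m}
    (hy1 : y ≠ (κ, Kind.p)) (hy2 : y ≠ (κ, Kind.t)) : ((κ, Kind.q), y) ∉ O := by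
  intro h2
  have := card_le_outdeg O (κ, Kind.q) {y, (κ, Kind.p), (κ, Kind.t)} (by
    intro u hu
    rw [mem_insert, mem_insert, mem_singleton] at hu
    rcases hu with rfl | rfl | rfl
    · exact h2
    · exact h1.1
    · exact h1.2)
  rw [card_insert_of_notMem (by simp [hy1, hy2]), card_pair (by simp)] at this
  have := h.deg_q hd κ
  omega

theorem Next.ne {κ κ' : Cell n m} (h : Next κ κ') : κ' ≠ κ := by
  rintro rfl
  rcases h with h | h <;> omega

theorem Good.next (h : Good d A O) (hd : 2 ≤ d) {κ κ' : Cell n m} (hn : Next κ κ')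
    (h1 : StQ O κ) : StQ O κ' := by
  have hadj : (outerGraph A).Adj (κ, Kind.q) (κ', Kind.p) := Or.inl hn
  have h2 : ((κ, Kind.q), (κ', Kind.p)) ∉ O :=
    h.Q_out hd h1 (by simp [hn.ne]) (by simp)
  have h3 : ((κ', Kind.p), (κ, Kind.q)) ∈ O := by
    rcases h.mem_or hadj with h3 | h3
    · exact absurd h3 h2
    · exact h3
  rcases h.state hd κ' with h4 | h4
  · exact absurd h3 (h.P_out hd h4 (by simp [hn.ne.symm]) (by simp))
  · exact h4

/-- propagation inside a row -/
theorem Good.row (h : Good d A O) (hd : 2 ≤ d) (r : Fin (2 * n)) (j : Fin m) (h1 : StQ O (r, j)) :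
    ∀ (k : ℕ) (j' : Fin m), j'.val = j.val + k → StQ O (r, j') := by
  intro k
  induction k with
  | zero => intro j' hj'; rwa [show j' = j from Fin.ext hj']
  | succ k ih =>
    intro j' hj'
    have h2 := ih ⟨j.val + k, by omega⟩ rfl
    exact h.next hd (κ := (r, ⟨j.val + k, by omega⟩)) (κ' := (r, j'))
      (Or.inl ⟨rfl, by simp only; omega⟩) h2

theorem Good.chain (h : Good d A O) (hd : 2 ≤ d) {r r' : Fin (2 * n)} (hr : r.val % 2 = 0)
    (hr' : r'.val = r.val + 1) {j : Fin m} (h1 : StQ O (r, j)) (j' : Fin m) : StQ O (r', j') := by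
  have hm : 0 < m := lt_of_le_of_lt (Nat.zero_le _) j.2
  have h2 : StQ O (r, ⟨m - 1, by omega⟩) :=
    h.row hd r j h1 (m - 1 - j.val) _ (by simp only; omega)
  have h3 : StQ O (r', ⟨0, hm⟩) :=
    h.next hd (Or.inr ⟨hr, hr', by simp only; omega, rfl⟩) h2
  exact h.row hd r' ⟨0, hm⟩ h3 j'.val j' (by simp)

/-- In every column some literal vertex points to its clause vertex. -/
theorem Good.clause (h : Good d A O) (hd : 2 ≤ d) (hn : 0 < n) (j : Fin m) :
    ∃ r : Fin (2 * n), A r j = true ∧
      ((r.val % 2 = 0 ∧ (((r, j), Kind.p), ((r, j), Kind.c)) ∈ O) ∨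
       (r.val % 2 = 1 ∧ (((r, j), Kind.q), ((r, j), Kind.c)) ∈ O)) := by
  by_contra hcon
  push Not at hcon
  -- every literal arc leaves the clause vertex
  have hlit : ∀ r : Fin (2 * n), A r j = true →
      ∃ k : Kind, k ≠ Kind.c ∧ (((r, j), Kind.c), ((r, j), k)) ∈ O := by
    intro r hr
    have h1 := hcon r hr
    rcases Nat.mod_two_eq_zero_or_one r.val with h2 | h2
    · have hadj : (outerGraph A).Adj ((r, j), Kind.c) ((r, j), Kind.p) := Or.inl ⟨rfl, hr, h2⟩
      rcases h.mem_or hadj with h3 | h3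
      · exact ⟨Kind.p, by simp, h3⟩
      · exact absurd h3 (h1.1 h2)
    · have hadj : (outerGraph A).Adj ((r, j), Kind.c) ((r, j), Kind.q) := Or.inl ⟨rfl, hr, h2⟩
      rcases h.mem_or hadj with h3 | h3
      · exact ⟨Kind.q, by simp, h3⟩
      · exact absurd h3 (h1.2 h2)
  -- all path arcs point towards the top
  have hup : ∀ (k : ℕ) (r r' : Fin (2 * n)), r.val = k → r'.val = k + 1 →
      (((r', j), Kind.c), ((r, j), Kind.c)) ∈ O := by
    intro k
    induction k with
    | zero =>
      intro r r' hr hr'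
      have hadj : (outerGraph A).Adj ((r, j), Kind.c) ((r', j), Kind.c) :=
        Or.inl ⟨rfl, by simp only; omega⟩
      rcases h.mem_or hadj with h3 | h3
      · exfalso
        have hdeg := h.deg ((r, j), Kind.c)
        simp only [cost] at hdeg
        by_cases hA : A r j = true
        · obtain ⟨k, hk, hk'⟩ := hlit r hA
          have h4 := card_le_outdeg O ((r, j), Kind.c) {((r', j), Kind.c), ((r, j), k)} (by
            intro u hu
            rw [mem_insert, mem_singleton] at hu
            rcases hu with rfl | rfl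
            · exact h3
            · exact hk')
          rw [card_pair (by simp [hk.symm])] at h4
          rw [if_pos hr, if_pos hA] at hdeg
          omega
        · have h4 := card_le_outdeg O ((r, j), Kind.c) {((r', j), Kind.c)} (by
            intro u hu
            rw [mem_singleton] at hu
            rw [hu]; exact h3)
          rw [card_singleton] at h4
          rw [if_pos hr, if_neg hA] at hdeg
          omega
      · exact h3
    | succ k ih =>
      intro r r' hr hr'
      obtain ⟨r0, hr0⟩ : ∃ r0 : Fin (2 * n), r0.val = k := ⟨⟨k, by omega⟩, rfl⟩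
      have h0 := ih r0 r hr0 (by omega)
      have hadj : (outerGraph A).Adj ((r, j), Kind.c) ((r', j), Kind.c) :=
        Or.inl ⟨rfl, by simp only; omega⟩
      have hne : r' ≠ r0 := by
        intro h; rw [Fin.ext_iff] at h; omega
      rcases h.mem_or hadj with h3 | h3
      · exfalso
        have hdeg := h.deg ((r, j), Kind.c)
        simp only [cost] at hdeg
        by_cases hA : A r j = true
        · obtain ⟨k', hk, hk'⟩ := hlit r hA
          have h4 := card_le_outdeg O ((r, j), Kind.c)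
            {((r', j), Kind.c), ((r0, j), Kind.c), ((r, j), k')} (by
            intro u hu
            rw [mem_insert, mem_insert, mem_singleton] at hu
            rcases hu with rfl | rfl | rfl
            · exact h3
            · exact h0
            · exact hk')
          rw [card_insert_of_notMem (by simp [hne, hk.symm]), card_pair (by simp [hk.symm])] at h4
          rw [if_pos hA] at hdeg
          omega
        · have h4 := card_le_outdeg O ((r, j), Kind.c)
            {((r', j), Kind.c), ((r0, j), Kind.c)} (by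
            intro u hu
            rw [mem_insert, mem_singleton] at hu
            rcases hu with rfl | rfl
            · exact h3
            · exact h0)
          rw [card_pair (by simp [hne])] at h4
          rw [if_neg hA] at hdeg
          omega
      · exact h3
  -- contradiction at the bottom
  obtain ⟨r0, hr0⟩ : ∃ r0 : Fin (2 * n), r0.val = 2 * n - 2 := ⟨⟨2 * n - 2, by omega⟩, rfl⟩
  obtain ⟨r1, hr1⟩ : ∃ r1 : Fin (2 * n), r1.val = 2 * n - 1 := ⟨⟨2 * n - 1, by omega⟩, rfl⟩
  have h0 := hup (2 * n - 2) r0 r1 hr0 (by omega)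
  have hdeg := h.deg ((r1, j), Kind.c)
  simp only [cost] at hdeg
  have e1 : r1.val + 1 = 2 * n := by omega
  by_cases hA : A r1 j = true
  · obtain ⟨k', hk, hk'⟩ := hlit _ hA
    have h4 := card_le_outdeg O ((r1, j), Kind.c)
      {((r0, j), Kind.c), ((r1, j), k')} (by
      intro u hu
      rw [mem_insert, mem_singleton] at hu
      rcases hu with rfl | rfl
      · exact h0
      · exact hk')
    rw [card_pair (by simp [hk.symm])] at h4
    rw [if_pos hA, if_pos e1] at hdeg
    omega
  · have h4 := card_le_outdeg O ((r1, j), Kind.c)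
      {((r0, j), Kind.c)} (by
      intro u hu
      rw [mem_singleton] at hu
      rw [hu]; exact h0)
    rw [card_singleton] at h4
    rw [if_neg hA, if_pos e1] at hdeg
    omega

theorem Good.satisfiable (h : Good d A O) (hd : 2 ≤ d) (hn : 0 < n) : Satisfiable A := by
  classical
  refine ⟨fun i => decide (∀ j' : Fin m, StQ O (⟨2 * i.val + 1, by omega⟩, j')), ?_⟩
  intro j
  obtain ⟨r, hA, hr⟩ := h.clause hd hn j
  refine ⟨r, hA, ?_⟩
  unfold litTrue
  rw [decide_eq_true_iff]
  rcases hr with ⟨hr, h1⟩ | ⟨hr, h1⟩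
  · simp only [hr, iff_true]
    intro j'
    have h2 : StQ O (r, j) := by
      rcases h.state hd (r, j) with h2 | h2
      · exact absurd h1 (h.P_out hd h2 (by simp) (by simp))
      · exact h2
    exact h.chain hd hr (by simp only; omega) h2 j'
  · simp only [hr, one_ne_zero, iff_false]
    intro h2
    have h3 := h2 j
    have h4 : (⟨2 * (r.val / 2) + 1, by omega⟩ : Fin (2 * n)) = r := Fin.ext (by simp only; omega)
    rw [h4] at h3
    exact absurd h1 (h.Q_out hd h3 (by simp) (by simp))

end Forward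

end Pool.Agent.Lib.MP_f2fc00_lc
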