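import Pool.Agent.Lib.MP_f2fc00_lc.Number
import Pool.Agent.Lib.MP_f2fc00_lc.Iso

set_option autoImplicit false

/-!
# Polynomial time: from the Alon-Tarsi number to satisfiability
-/

namespace Pool.Agent.Lib.MP_f2fc00_lc

open Pool.Agent.Lib.MP_f2fc00_lc.Ram

/-- Some program computes `AT(G)` from the adjacency matrix of any graph `G` with vertices
`0, ..., N - 1` in time at most `(N + 2) ^ c`, for some constant `c`. -/
def PolyComputesAT : Prop :=
  ∃ (P : Cmd) (c : ℕ), ∀ (N : ℕ) (G : SimpleGraph (Fin N)),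
    Outputs P (matrixInput G.Adj) ((N + 2) ^ c) (alonTarsiNumber G)

/-- Some program decides from the adjacency matrix whether `AT(G) ≤ k`, in time at most
`(N + 2) ^ c` for graphs with `N` vertices, for some constant `c`. -/
def PolyDecidesAT (k : ℕ) : Prop :=
  ∃ (P : Cmd) (c : ℕ), ∀ (N : ℕ) (G : SimpleGraph (Fin N)),
    ∃ v, Outputs P (matrixInput G.Adj) ((N + 2) ^ c) v ∧ (v = 1 ↔ alonTarsiNumber G ≤ k)

/-- Some program decides the satisfiability of formulas in conjunctive normal form with `n`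
variables and `m` clauses, given by their literal-clause incidence matrix, in time at most
`(n + m + 2) ^ c`, for some constant `c`. -/
def PolyDecidesSat : Prop :=
  ∃ (P : Cmd) (c : ℕ), ∀ (n m : ℕ) (A : Fin (2 * n) → Fin m → Bool),
    ∃ v, Outputs P (matrixInput fun r j => A r j = true) ((n + m + 2) ^ c) v ∧
      (v = 1 ↔ Satisfiable A)

/-- There is a map `G` from the formulas in conjunctive normal form (with `n` variables and `m`
clauses, given by their literal-clause incidence matrices `A`) to graphs with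
`4 (k - 1) + 8 n m` vertices such that `AT(G(A)) ≤ k` if and only if the formula is satisfiable
(`n ≥ 1`), and such that every program `P` for graphs can be replaced by a program `P'` for
formulas which on `A` does what `P` does on `G(A)`, with a slowdown by a factor which is at most
proportional to the binary length of the dimensions. -/
def SatReducesToAT (k : ℕ) : Prop :=
  ∃ G : ∀ n m : ℕ, (Fin (2 * n) → Fin m → Bool) →
      SimpleGraph (Fin (4 * (k - 1) + 4 * (2 * n * m))),
    (∀ (n m : ℕ) (A : Fin (2 * n) → Fin m → Bool), 0 < n →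
      (alonTarsiNumber (G n m A) ≤ k ↔ Satisfiable A)) ∧
    ∀ P : Cmd, ∃ (P' : Cmd) (K : ℕ), ∀ (n m : ℕ) (A : Fin (2 * n) → Fin m → Bool) (t v : ℕ),
      Outputs P (matrixInput (G n m A).Adj) t v →
        Outputs P' (matrixInput fun r j => A r j = true)
          (K * (1 + (2 * n).size + m.size) * t) v

/-- The contents of the registers are bounded by the time. -/
theorem Ram.Run.size_le {I : Input} {c : Cmd} {σ τ : ℕ → ℕ} {t : ℕ} (h : Run I c σ τ t) (a : ℕ) :
    (τ a).size ≤ (σ a).size + t := by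
  induction h with
  | set e f σ =>
    have hf : ∀ e : Expr, (e.val I σ).size ≤ e.cost I σ := by
      intro e
      cases e <;> simp only [Expr.val, Expr.cost] <;> omega
    by_cases h : a = e.val I σ
    · subst h
      rw [Function.update_self]
      have := hf f
      omega
    · rw [Function.update_of_ne h]
      omega
  | seq _ _ ih1 ih2 => omega
  | ite_true _ _ ih => omega
  | ite_false _ _ ih => omega
  | loop_stop _ => omega
  | loop_step _ _ _ ih1 ih2 => omega

theorem size_le_self (n : ℕ) : n.size ≤ n := by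
  rw [Nat.size_le]
  exact Nat.lt_two_pow_self

theorem pow_add_pow_le {x : ℕ} (hx : 2 ≤ x) (a b : ℕ) : x ^ a + x ^ b ≤ x ^ (a + b + 1) := by
  have h1 : x ^ a ≤ x ^ (a + b) := Nat.pow_le_pow_right (by omega) (by omega)
  have h2 : x ^ b ≤ x ^ (a + b) := Nat.pow_le_pow_right (by omega) (by omega)
  calc x ^ a + x ^ b ≤ x ^ (a + b) * 2 := by omega
    _ ≤ x ^ (a + b) * x := Nat.mul_le_mul_left _ hx
    _ = x ^ (a + b + 1) := (pow_succ _ _).symm

theorem le_pow_self' {x : ℕ} (hx : 2 ≤ x) (K : ℕ) : K ≤ x ^ K :=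
  (Nat.lt_pow_self (by omega)).le

theorem ap_lt (x y : ℕ) : Op.ap .lt x y = if x < y then 1 else 0 := rfl

theorem ap_eq (x y : ℕ) : Op.ap .eq x y = if x = y then 1 else 0 := rfl

theorem ap_lt_size (x y : ℕ) : (Op.ap .lt x y).size ≤ 1 := by
  rw [ap_lt]
  split_ifs <;> decide

theorem ap_eq_size (x y : ℕ) : (Op.ap .eq x y).size ≤ 1 := by
  rw [ap_eq]
  split_ifs <;> decide

theorem ap_lt_one (x y : ℕ) : Op.ap .lt x y = 1 ↔ x < y := by
  rw [ap_lt]
  split_ifs with h
  · simp [h]
  · simp [h]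

theorem ap_eq_one (x y : ℕ) : Op.ap .eq x y = 1 ↔ x = y := by
  rw [ap_eq]
  split_ifs with h
  · simp [h]
  · simp [h]

theorem decides_of_computes (h : PolyComputesAT) (k : ℕ) : PolyDecidesAT k := by
  obtain ⟨P, c, hP⟩ := h
  refine ⟨.seq P (.set (.lit 0) (.op .lt (.reg (.lit 0)) (.lit (k + 1)))),
    (c + 1) + ((k + 1) + 7) + 1, fun N G => ?_⟩
  obtain ⟨σ, s, h1, h2, h3⟩ := hP N G
  refine ⟨Op.ap .lt (alonTarsiNumber G) (k + 1), ⟨_, _, Run.seq h1 (Run.set _ _ _), ?_, ?_⟩, ?_⟩
  · have hs : (σ 0).size ≤ s := by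
      have := h1.size_le 0
      simpa using this
    have hk : (k + 1).size ≤ k + 1 := size_le_self _
    have hr := ap_lt_size (σ 0) (k + 1)
    have hx : 2 ≤ N + 2 := by omega
    have e1 : 2 * (N + 2) ^ c ≤ (N + 2) ^ (c + 1) := by
      rw [pow_succ, mul_comm 2]
      exact Nat.mul_le_mul_left _ hx
    have e2 : (k + 1) + 7 ≤ (N + 2) ^ ((k + 1) + 7) := le_pow_self' hx _
    have e3 := pow_add_pow_le hx (c + 1) ((k + 1) + 7)
    simp only [Expr.val, Expr.cost, Nat.size_zero]
    omega
  · simp only [Expr.val, Function.update_self, h3]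
  · rw [ap_lt_one, Nat.lt_succ_iff]

theorem sat_zero {m : ℕ} (A : Fin (2 * 0) → Fin m → Bool) : Satisfiable A ↔ m = 0 := by
  constructor
  · rintro ⟨x, hx⟩
    by_contra hm
    obtain ⟨r, _⟩ := hx ⟨0, Nat.pos_of_ne_zero hm⟩
    exact absurd r.2 (by omega)
  · rintro rfl
    exact ⟨fun i => i.elim0, fun j => j.elim0⟩

theorem sat_of_at {k : ℕ} (hk : 3 ≤ k) (h : PolyDecidesAT k) : PolyDecidesSat := by
  obtain ⟨P, c, hP⟩ := h
  obtain ⟨K, hK⟩ := Outputs.tr (redR (k - 1)) P
  refine ⟨.ite .rows (P.tr (redR (k - 1))) (.set (.lit 0) (.op .eq .cols (.lit 0))),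
    2 + (K + 2 + (5 + (k + 4) + 1) * c) + 5, fun n m A => ?_⟩
  have hx : 2 ≤ n + m + 2 := by omega
  obtain ⟨x, hxd⟩ : ∃ x, x = n + m + 2 := ⟨_, rfl⟩
  rw [← hxd] at hx ⊢
  have e2 : 2 * x ≤ x ^ 2 := by rw [pow_two]; exact Nat.mul_le_mul_right _ hx
  have hmon : ∀ a b : ℕ, a ≤ b → x ^ a ≤ x ^ b := fun a b hab =>
    Nat.pow_le_pow_right (by omega) hab
  rcases Nat.eq_zero_or_pos n with hn | hn
  · subst hn
    refine ⟨Op.ap .eq m 0, ⟨_, _, Run.ite_false ?_ (Run.set _ _ _), ?_, ?_⟩, ?_⟩
    · show (matrixInput fun r j => A r j = true).rows = 0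
      rw [matrixInput_rows]
    · have hr := ap_eq_size m 0
      have hm := size_le_self m
      have e4 : m + 6 ≤ 4 * x := by omega
      have e5 : 4 * x ≤ x ^ 3 := by
        have : 4 ≤ x ^ 2 := by nlinarith
        calc 4 * x ≤ x ^ 2 * x := Nat.mul_le_mul_right _ this
          _ = x ^ 3 := by ring
      have e6 := hmon 3 (2 + (K + 2 + (5 + (k + 4) + 1) * c) + 5) (by omega)
      simp only [Expr.val, Expr.cost, Nat.size_zero, matrixInput_rows, matrixInput_cols]
      simp only [Nat.mul_zero, Nat.size_zero]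
      omega
    · simp only [Expr.val, Function.update_self, matrixInput_cols]
    · rw [sat_zero, ap_eq_one]
  · obtain ⟨v, hv1, hv2⟩ := hP _ (redFin k A)
    rw [← redR_map hk A] at hv1
    have hB : (satInput A).Bits := matrixInput_bits _
    have h1 := hK (satInput A) hB _ v hv1
    obtain ⟨σ, s, h2, h3, h4⟩ := h1
    refine ⟨v, ⟨σ, _, Run.ite_true ?_ h2, ?_, h4⟩, ?_⟩
    · show (satInput A).rows ≠ 0
      rw [satInput_rows]
      omega
    · have f1 : (satInput A).len = 1 + (2 * n).size + m.size := rfl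
      have f2 := size_le_self (2 * n)
      have f3 := size_le_self m
      have f4 : (satInput A).len ≤ x ^ 2 := by rw [f1]; omega
      have f5 : 4 * (k - 1) + 4 * (2 * n * m) + 2 ≤ x ^ (5 + (k + 4) + 1) := by
        have g1 : 8 * (n * m) ≤ x ^ 5 := by
          have g2 : n * m ≤ x * x := Nat.mul_le_mul (by omega) (by omega)
          have g3 : 8 ≤ x ^ 3 := by
            calc 8 = 2 ^ 3 := by norm_num
              _ ≤ x ^ 3 := Nat.pow_le_pow_left hx 3
          calc 8 * (n * m) ≤ x ^ 3 * (x * x) := Nat.mul_le_mul g3 g2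
            _ = x ^ 5 := by ring
        have g4 : 4 * (k - 1) + 2 ≤ x ^ (k + 4) := by
          have g5 : k ≤ x ^ k := le_pow_self' hx k
          have g6 : 4 ≤ x ^ 4 := by
            calc 4 ≤ 2 ^ 4 := by norm_num
              _ ≤ x ^ 4 := Nat.pow_le_pow_left hx 4
          calc 4 * (k - 1) + 2 ≤ 4 * k := by omega
            _ ≤ x ^ 4 * x ^ k := Nat.mul_le_mul g6 g5
            _ = x ^ (k + 4) := by ring
        have g7 := pow_add_pow_le hx 5 (k + 4)
        have g8 : 4 * (2 * n * m) = 8 * (n * m) := by ring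
        rw [g8]
        omega
      have f6 : (4 * (k - 1) + 4 * (2 * n * m) + 2) ^ c ≤ x ^ ((5 + (k + 4) + 1) * c) := by
        rw [pow_mul]
        exact Nat.pow_le_pow_left f5 c
      have f7 : K ≤ x ^ K := le_pow_self' hx K
      have f8 : s ≤ x ^ (K + 2 + (5 + (k + 4) + 1) * c) := by
        refine h3.trans ?_
        rw [pow_add, pow_add]
        exact Nat.mul_le_mul (Nat.mul_le_mul f7 f4) f6
      have f9 := pow_add_pow_le hx 2 (K + 2 + (5 + (k + 4) + 1) * c)
      have f10 := hmon (2 + (K + 2 + (5 + (k + 4) + 1) * c) + 1)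
        (2 + (K + 2 + (5 + (k + 4) + 1) * c) + 5) (by omega)
      have f11 : Expr.rows.cost (satInput A) (fun _ => 0) = 1 + (2 * n).size := rfl
      show Expr.rows.cost (satInput A) (fun _ => 0) + s ≤ _
      rw [f11]
      omega
    · rw [hv2]
      unfold redFin
      rw [alonTarsiNumber_comap]
      exact red_correct hk hn A

theorem satReducesToAT {k : ℕ} (hk : 3 ≤ k) : SatReducesToAT k := by
  refine ⟨fun n m A => redFin k A, fun n m A hn => ?_, fun P => ?_⟩
  · unfold redFin
    rw [alonTarsiNumber_comap]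
    exact red_correct hk hn A
  · obtain ⟨K, hK⟩ := Outputs.tr (redR (k - 1)) P
    refine ⟨P.tr (redR (k - 1)), K, fun n m A t v h => ?_⟩
    rw [← redR_map hk A] at h
    exact hK (satInput A) (matrixInput_bits _) t v h

end Pool.Agent.Lib.MP_f2fc00_lc
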