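import Mathlib

set_option autoImplicit false

/-!
# A random access machine with logarithmic cost

Programs read a 0/1 matrix (random access), have infinitely many registers holding natural
numbers, and every value that occurs in the evaluation of an expression (operands, results,
addresses) is charged its length in binary notation.
-/

namespace Pool.Agent.Lib.MP_f2fc00_lc.Ram

/-- Inputs: a matrix of natural numbers (zeros and ones in all uses) with its dimensions. -/
structure Input where
  /-- number of rows -/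
  rows : ℕ
  /-- number of columns -/
  cols : ℕ
  /-- entries -/
  bit : ℕ → ℕ → ℕ

open Classical in
/-- A 0/1 matrix (given by a predicate) as an input; outside of the matrix one reads zeros. -/
noncomputable def matrixInput {a b : ℕ} (M : Fin a → Fin b → Prop) : Input where
  rows := a
  cols := b
  bit i j := if h : i < a ∧ j < b then (if M ⟨i, h.1⟩ ⟨j, h.2⟩ then 1 else 0) else 0

/-- Arithmetic operations; `eq` and `lt` are the tests with values `0` and `1`. -/
inductive Op
  | add | sub | mul | div | mod | eq | lt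

/-- Value of an operation. -/
def Op.ap : Op → ℕ → ℕ → ℕ
  | .add, x, y => x + y
  | .sub, x, y => x - y
  | .mul, x, y => x * y
  | .div, x, y => x / y
  | .mod, x, y => x % y
  | .eq, x, y => if x = y then 1 else 0
  | .lt, x, y => if x < y then 1 else 0

/-- Expressions. -/
inductive Expr
  /-- a constant -/
  | lit (n : ℕ)
  /-- the number of rows of the input -/
  | rows
  /-- the number of columns of the input -/
  | cols
  /-- the content of the register whose address is the value of the expression -/
  | reg (e : Expr)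
  /-- the entry of the input matrix in row `e` and column `f` -/
  | inp (e f : Expr)
  /-- an arithmetic operation -/
  | op (o : Op) (e f : Expr)

/-- The value of an expression. -/
def Expr.val (I : Input) (σ : ℕ → ℕ) : Expr → ℕ
  | .lit n => n
  | .rows => I.rows
  | .cols => I.cols
  | .reg e => σ (e.val I σ)
  | .inp e f => I.bit (e.val I σ) (f.val I σ)
  | .op o e f => o.ap (e.val I σ) (f.val I σ)

/-- The cost of evaluating an expression: for every subexpression `1` plus the length of its
value in binary notation (`Nat.size`). -/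
def Expr.cost (I : Input) (σ : ℕ → ℕ) : Expr → ℕ
  | .lit n => 1 + n.size
  | .rows => 1 + I.rows.size
  | .cols => 1 + I.cols.size
  | .reg e => e.cost I σ + 1 + (σ (e.val I σ)).size
  | .inp e f => e.cost I σ + f.cost I σ + 1 + (I.bit (e.val I σ) (f.val I σ)).size
  | .op o e f => e.cost I σ + f.cost I σ + 1 + (o.ap (e.val I σ) (f.val I σ)).size

/-- Programs. -/
inductive Cmd
  /-- write the value of `f` into the register whose address is the value of `e` -/
  | set (e f : Expr)
  /-- one program after the other -/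
  | seq (c d : Cmd)
  /-- `if e ≠ 0 then c else d` -/
  | ite (e : Expr) (c d : Cmd)
  /-- `while e ≠ 0 do c` -/
  | loop (e : Expr) (c : Cmd)

/-- `Run I c σ τ t`: on the input `I` the program `c`, started with the register contents `σ`, halts
after time `t` with the register contents `τ`. -/
inductive Run (I : Input) : Cmd → (ℕ → ℕ) → (ℕ → ℕ) → ℕ → Prop
  | set (e f : Expr) (σ : ℕ → ℕ) :
      Run I (.set e f) σ (Function.update σ (e.val I σ) (f.val I σ)) (e.cost I σ + f.cost I σ)
  | seq {c d : Cmd} {σ τ υ : ℕ → ℕ} {s t : ℕ} :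
      Run I c σ τ s → Run I d τ υ t → Run I (.seq c d) σ υ (s + t)
  | ite_true {e : Expr} {c d : Cmd} {σ τ : ℕ → ℕ} {s : ℕ} :
      e.val I σ ≠ 0 → Run I c σ τ s → Run I (.ite e c d) σ τ (e.cost I σ + s)
  | ite_false {e : Expr} {c d : Cmd} {σ τ : ℕ → ℕ} {s : ℕ} :
      e.val I σ = 0 → Run I d σ τ s → Run I (.ite e c d) σ τ (e.cost I σ + s)
  | loop_stop {e : Expr} {c : Cmd} {σ : ℕ → ℕ} :
      e.val I σ = 0 → Run I (.loop e c) σ σ (e.cost I σ)
  | loop_step {e : Expr} {c : Cmd} {σ τ υ : ℕ → ℕ} {s t : ℕ} :
      e.val I σ ≠ 0 → Run I c σ τ s → Run I (.loop e c) τ υ t →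
        Run I (.loop e c) σ υ (e.cost I σ + s + t)

/-- The program `c`, started on the input `I` with all registers `0`, halts within time `t` with
the value `v` in register `0`. -/
def Outputs (c : Cmd) (I : Input) (t v : ℕ) : Prop :=
  ∃ (σ : ℕ → ℕ) (s : ℕ), Run I c (fun _ => 0) σ s ∧ s ≤ t ∧ σ 0 = v

/-! ## The machine is deterministic -/

theorem Run.det {I : Input} {c : Cmd} {σ τ : ℕ → ℕ} {s : ℕ} (h : Run I c σ τ s) :
    ∀ {τ' : ℕ → ℕ} {s' : ℕ}, Run I c σ τ' s' → τ = τ' ∧ s = s' := by
  induction h with
  | set e f σ =>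
    intro τ' s' h'
    cases h'
    exact ⟨rfl, rfl⟩
  | seq h1 h2 ih1 ih2 =>
    intro τ' s' h'
    cases h' with
    | seq h3 h4 =>
      obtain ⟨rfl, rfl⟩ := ih1 h3
      obtain ⟨rfl, rfl⟩ := ih2 h4
      exact ⟨rfl, rfl⟩
  | ite_true h1 h2 ih =>
    intro τ' s' h'
    cases h' with
    | ite_true h3 h4 =>
      obtain ⟨rfl, rfl⟩ := ih h4
      exact ⟨rfl, rfl⟩
    | ite_false h3 h4 => exact absurd h3 h1
  | ite_false h1 h2 ih =>
    intro τ' s' h'
    cases h' with
    | ite_true h3 h4 => exact absurd h1 h3
    | ite_false h3 h4 =>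
      obtain ⟨rfl, rfl⟩ := ih h4
      exact ⟨rfl, rfl⟩
  | loop_stop h1 =>
    intro τ' s' h'
    cases h' with
    | loop_stop h3 => exact ⟨rfl, rfl⟩
    | loop_step h3 h4 h5 => exact absurd h1 h3
  | loop_step h1 h2 h3 ih1 ih2 =>
    intro τ' s' h'
    cases h' with
    | loop_stop h4 => exact absurd h4 h1
    | loop_step h4 h5 h6 =>
      obtain ⟨rfl, rfl⟩ := ih1 h5
      obtain ⟨rfl, rfl⟩ := ih2 h6
      exact ⟨rfl, rfl⟩

/-- The output is unique. -/
theorem Outputs.det {c : Cmd} {I : Input} {t t' v v' : ℕ} (h : Outputs c I t v)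
    (h' : Outputs c I t' v') : v = v' := by
  obtain ⟨σ, s, h1, _, h2⟩ := h
  obtain ⟨σ', s', h1', _, h2'⟩ := h'
  obtain ⟨rfl, rfl⟩ := h1.det h1'
  exact h2.symm.trans h2'

end Pool.Agent.Lib.MP_f2fc00_lc.Ram
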