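import Pool.Agent.Lib.MP_f2fc00_lc.Ram

set_option autoImplicit false

/-!
# Reductions given by expression templates

A template is an arithmetic expression in two variables `x`, `y` (a row and a column of the new
matrix), which may read the dimensions and entries of the old matrix. If the new dimensions and
the entries of the new matrix are given by templates, every program for the new matrix can be
translated into a program for the old one, and the time grows at most by a constant factor times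
the length of the binary representation of the old dimensions.
-/

namespace Pool.Agent.Lib.MP_f2fc00_lc.Ram

/-- Templates. -/
inductive Tm
  | x
  | y
  | lit (n : ℕ)
  | rows
  | cols
  | inp (s t : Tm)
  | op (o : Op) (s t : Tm)

/-- The value of a template. -/
def Tm.val (I : Input) (x y : ℕ) : Tm → ℕ
  | .x => x
  | .y => y
  | .lit n => n
  | .rows => I.rows
  | .cols => I.cols
  | .inp s t => I.bit (s.val I x y) (t.val I x y)
  | .op o s t => o.ap (s.val I x y) (t.val I x y)

/-- Substitution of expressions for the variables. -/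
def Tm.subst (e f : Expr) : Tm → Expr
  | .x => e
  | .y => f
  | .lit n => .lit n
  | .rows => .rows
  | .cols => .cols
  | .inp s t => .inp (s.subst e f) (t.subst e f)
  | .op o s t => .op o (s.subst e f) (t.subst e f)

theorem Tm.val_subst (I : Input) (σ : ℕ → ℕ) (e f : Expr) (t : Tm) :
    (t.subst e f).val I σ = t.val I (e.val I σ) (f.val I σ) := by
  induction t with
  | x => rfl
  | y => rfl
  | lit n => rfl
  | rows => rfl
  | cols => rfl
  | inp s t ihs iht => simp only [Tm.subst, Expr.val, Tm.val, ihs, iht]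
  | op o s t ihs iht => simp only [Tm.subst, Expr.val, Tm.val, ihs, iht]

/-! ## Lengths -/

theorem size_add_le (a b : ℕ) : (a + b).size ≤ a.size + b.size + 1 := by
  rw [Nat.size_le]
  have h1 := Nat.lt_size_self a
  have h2 := Nat.lt_size_self b
  have h3 : 2 ^ a.size ≤ 2 ^ (a.size + b.size) := Nat.pow_le_pow_right (by norm_num) (by omega)
  have h4 : 2 ^ b.size ≤ 2 ^ (a.size + b.size) := Nat.pow_le_pow_right (by norm_num) (by omega)
  rw [pow_succ]
  omega

theorem size_mul_le (a b : ℕ) : (a * b).size ≤ a.size + b.size := by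
  rw [Nat.size_le, pow_add]
  exact Nat.mul_lt_mul'' (Nat.lt_size_self a) (Nat.lt_size_self b)

theorem size_le_of_le {a b : ℕ} (h : a ≤ b) : a.size ≤ b.size := Nat.size_le_size h

theorem size_le_one {a : ℕ} (h : a ≤ 1) : a.size ≤ 1 := by
  have := Nat.size_le_size h
  rwa [Nat.size_one] at this

theorem Op.size_ap_le (o : Op) (a b : ℕ) : (o.ap a b).size ≤ a.size + b.size + 1 := by
  cases o with
  | add => exact size_add_le a b
  | sub => exact (size_le_of_le (Nat.sub_le a b)).trans (by omega)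
  | mul => exact (size_mul_le a b).trans (by omega)
  | div => exact (size_le_of_le (Nat.div_le_self a b)).trans (by omega)
  | mod => exact (size_le_of_le (Nat.mod_le a b)).trans (by omega)
  | eq =>
    refine (size_le_one (a := Op.eq.ap a b) ?_).trans (by omega)
    show (if a = b then 1 else 0) ≤ 1
    split_ifs <;> omega
  | lt =>
    refine (size_le_one (a := Op.lt.ap a b) ?_).trans (by omega)
    show (if a < b then 1 else 0) ≤ 1
    split_ifs <;> omega

/-- The length of the dimensions. -/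
def Input.len (I : Input) : ℕ := 1 + I.rows.size + I.cols.size

/-- All entries are `0` or `1`. -/
def Input.Bits (I : Input) : Prop := ∀ i j, I.bit i j ≤ 1

theorem Expr.size_val_le_cost (I : Input) (σ : ℕ → ℕ) (e : Expr) :
    (e.val I σ).size ≤ e.cost I σ := by
  cases e <;> simp only [Expr.val, Expr.cost] <;> omega

theorem Expr.one_le_cost (I : Input) (σ : ℕ → ℕ) (e : Expr) : 1 ≤ e.cost I σ := by
  induction e <;> simp only [Expr.cost] <;> omega

/-- The cost of a template. -/
theorem Tm.cost_subst_le (t : Tm) : ∃ K : ℕ, ∀ (I : Input), I.Bits → ∀ (σ : ℕ → ℕ) (e f : Expr),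
    (t.subst e f).cost I σ ≤ K * (e.cost I σ + f.cost I σ + I.len) := by
  induction t with
  | x =>
    refine ⟨1, fun I _ σ e f => ?_⟩
    show e.cost I σ ≤ _
    omega
  | y =>
    refine ⟨1, fun I _ σ e f => ?_⟩
    show f.cost I σ ≤ _
    omega
  | lit n =>
    refine ⟨1 + n.size, fun I _ σ e f => ?_⟩
    show 1 + n.size ≤ _
    have h1 : 1 ≤ e.cost I σ + f.cost I σ + I.len := by
      unfold Input.len
      omega
    exact Nat.le_mul_of_pos_right _ h1
  | rows =>
    refine ⟨1, fun I _ σ e f => ?_⟩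
    show 1 + I.rows.size ≤ _
    unfold Input.len
    omega
  | cols =>
    refine ⟨1, fun I _ σ e f => ?_⟩
    show 1 + I.cols.size ≤ _
    unfold Input.len
    omega
  | inp s t ihs iht =>
    obtain ⟨K1, h1⟩ := ihs
    obtain ⟨K2, h2⟩ := iht
    refine ⟨K1 + K2 + 2, fun I hI σ e f => ?_⟩
    show (s.subst e f).cost I σ + (t.subst e f).cost I σ + 1 +
      (I.bit ((s.subst e f).val I σ) ((t.subst e f).val I σ)).size ≤ _
    have h3 := h1 I hI σ e f
    have h4 := h2 I hI σ e f
    have h5 := size_le_one (hI ((s.subst e f).val I σ) ((t.subst e f).val I σ))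
    have h6 : 1 ≤ e.cost I σ + f.cost I σ + I.len := by
      unfold Input.len
      omega
    generalize e.cost I σ + f.cost I σ + I.len = Z at h3 h4 h6 ⊢
    nlinarith
  | op o s t ihs iht =>
    obtain ⟨K1, h1⟩ := ihs
    obtain ⟨K2, h2⟩ := iht
    refine ⟨2 * K1 + 2 * K2 + 2, fun I hI σ e f => ?_⟩
    show (s.subst e f).cost I σ + (t.subst e f).cost I σ + 1 +
      (o.ap ((s.subst e f).val I σ) ((t.subst e f).val I σ)).size ≤ _
    have h3 := h1 I hI σ e f
    have h4 := h2 I hI σ e f
    have h5 := o.size_ap_le ((s.subst e f).val I σ) ((t.subst e f).val I σ)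
    have h7 := (s.subst e f).size_val_le_cost I σ
    have h8 := (t.subst e f).size_val_le_cost I σ
    have h6 : 1 ≤ e.cost I σ + f.cost I σ + I.len := by
      unfold Input.len
      omega
    generalize e.cost I σ + f.cost I σ + I.len = Z at h3 h4 h6 ⊢
    nlinarith

/-! ## Reductions -/

/-- A reduction given by templates: number of rows, number of columns, entries. -/
structure Red where
  rows : Tm
  cols : Tm
  bit : Tm

/-- The new input. -/
def Red.map (R : Red) (I : Input) : Input where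
  rows := R.rows.val I 0 0
  cols := R.cols.val I 0 0
  bit i j := R.bit.val I i j

/-- Translation of expressions. -/
def Expr.tr (R : Red) : Expr → Expr
  | .lit n => .lit n
  | .rows => R.rows.subst (.lit 0) (.lit 0)
  | .cols => R.cols.subst (.lit 0) (.lit 0)
  | .reg e => .reg (e.tr R)
  | .inp e f => R.bit.subst (e.tr R) (f.tr R)
  | .op o e f => .op o (e.tr R) (f.tr R)

/-- Translation of programs. -/
def Cmd.tr (R : Red) : Cmd → Cmd
  | .set e f => .set (e.tr R) (f.tr R)
  | .seq c d => .seq (c.tr R) (d.tr R)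
  | .ite e c d => .ite (e.tr R) (c.tr R) (d.tr R)
  | .loop e c => .loop (e.tr R) (c.tr R)

theorem Expr.val_tr (R : Red) (I : Input) (σ : ℕ → ℕ) (e : Expr) :
    (e.tr R).val I σ = e.val (R.map I) σ := by
  induction e with
  | lit n => rfl
  | rows => exact Tm.val_subst I σ _ _ _
  | cols => exact Tm.val_subst I σ _ _ _
  | reg e ih => simp only [Expr.tr, Expr.val, ih]
  | inp e f ihe ihf =>
    simp only [Expr.tr, Expr.val, Tm.val_subst, ihe, ihf]
    rfl
  | op o e f ihe ihf => simp only [Expr.tr, Expr.val, ihe, ihf]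

theorem Input.one_le_len (I : Input) : 1 ≤ I.len := by
  unfold Input.len
  omega

theorem Expr.cost_tr_le (R : Red) (e : Expr) : ∃ K : ℕ, 1 ≤ K ∧ ∀ (I : Input), I.Bits →
    ∀ (σ : ℕ → ℕ), (e.tr R).cost I σ ≤ K * I.len * e.cost (R.map I) σ := by
  induction e with
  | lit n =>
    refine ⟨1, le_rfl, fun I _ σ => ?_⟩
    show 1 + n.size ≤ 1 * I.len * (1 + n.size)
    rw [one_mul]
    exact Nat.le_mul_of_pos_left _ I.one_le_len
  | rows =>
    obtain ⟨K, hK⟩ := R.rows.cost_subst_le
    refine ⟨K * 3 + 1, by omega, fun I hI σ => ?_⟩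
    have h1 := hK I hI σ (.lit 0) (.lit 0)
    have h2 : (Expr.lit 0).cost I σ = 1 := by
      simp [Expr.cost]
    rw [h2] at h1
    have h3 := I.one_le_len
    have h4 := Expr.one_le_cost (R.map I) σ Expr.rows
    calc (Expr.rows.tr R).cost I σ ≤ K * (1 + 1 + I.len) := h1
      _ ≤ (K * 3 + 1) * I.len := by nlinarith
      _ ≤ (K * 3 + 1) * I.len * Expr.rows.cost (R.map I) σ := Nat.le_mul_of_pos_right _ h4
  | cols =>
    obtain ⟨K, hK⟩ := R.cols.cost_subst_le
    refine ⟨K * 3 + 1, by omega, fun I hI σ => ?_⟩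
    have h1 := hK I hI σ (.lit 0) (.lit 0)
    have h2 : (Expr.lit 0).cost I σ = 1 := by
      simp [Expr.cost]
    rw [h2] at h1
    have h3 := I.one_le_len
    have h4 := Expr.one_le_cost (R.map I) σ Expr.cols
    calc (Expr.cols.tr R).cost I σ ≤ K * (1 + 1 + I.len) := h1
      _ ≤ (K * 3 + 1) * I.len := by nlinarith
      _ ≤ (K * 3 + 1) * I.len * Expr.cols.cost (R.map I) σ := Nat.le_mul_of_pos_right _ h4
  | reg e ih =>
    obtain ⟨K, hK1, hK⟩ := ih
    refine ⟨K, hK1, fun I hI σ => ?_⟩
    have h1 := hK I hI σ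
    have h2 : 1 ≤ K * I.len := Nat.mul_pos hK1 I.one_le_len
    show (e.tr R).cost I σ + 1 + (σ ((e.tr R).val I σ)).size ≤
      K * I.len * (e.cost (R.map I) σ + 1 + (σ (e.val (R.map I) σ)).size)
    rw [Expr.val_tr]
    generalize K * I.len = Z at h1 h2 ⊢
    nlinarith
  | inp e f ihe ihf =>
    obtain ⟨K1, hK1, h1⟩ := ihe
    obtain ⟨K2, hK2, h2⟩ := ihf
    obtain ⟨K, hK⟩ := R.bit.cost_subst_le
    refine ⟨K * (K1 + K2 + 1) + 1, by omega, fun I hI σ => ?_⟩
    have h3 := h1 I hI σ
    have h4 := h2 I hI σ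
    have h5 := hK I hI σ (e.tr R) (f.tr R)
    have h6 := I.one_le_len
    set A := e.cost (R.map I) σ with hA
    set B := f.cost (R.map I) σ with hB
    set S := ((R.map I).bit (e.val (R.map I) σ) (f.val (R.map I) σ)).size with hS
    show (R.bit.subst (e.tr R) (f.tr R)).cost I σ ≤ (K * (K1 + K2 + 1) + 1) * I.len * (A + B + 1 + S)
    calc (R.bit.subst (e.tr R) (f.tr R)).cost I σ
        ≤ K * (K1 * I.len * A + K2 * I.len * B + I.len) :=
          h5.trans (Nat.mul_le_mul_left _ (by omega))
      _ ≤ K * ((K1 + K2 + 1) * I.len * (A + B + 1 + S)) := by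
          apply Nat.mul_le_mul_left
          have e1 : (K1 + K2 + 1) * I.len * (A + B + 1 + S) = K1 * I.len * A + K2 * I.len * B + I.len +
            (K1 * I.len * (B + 1 + S) + K2 * I.len * (A + 1 + S) + I.len * (A + B + S)) := by ring
          rw [e1]
          exact Nat.le_add_right _ _
      _ ≤ (K * (K1 + K2 + 1) + 1) * I.len * (A + B + 1 + S) := by
          have e1 : (K * (K1 + K2 + 1) + 1) * I.len * (A + B + 1 + S) =
            K * ((K1 + K2 + 1) * I.len * (A + B + 1 + S)) + I.len * (A + B + 1 + S) := by ring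
          rw [e1]
          exact Nat.le_add_right _ _
  | op o e f ihe ihf =>
    obtain ⟨K1, hK1, h1⟩ := ihe
    obtain ⟨K2, hK2, h2⟩ := ihf
    refine ⟨K1 + K2, by omega, fun I hI σ => ?_⟩
    have h3 := h1 I hI σ
    have h4 := h2 I hI σ
    have h6 := I.one_le_len
    show (e.tr R).cost I σ + (f.tr R).cost I σ + 1 + (o.ap ((e.tr R).val I σ) ((f.tr R).val I σ)).size ≤
      (K1 + K2) * I.len * (e.cost (R.map I) σ + f.cost (R.map I) σ + 1 +
        (o.ap (e.val (R.map I) σ) (f.val (R.map I) σ)).size)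
    rw [Expr.val_tr, Expr.val_tr]
    generalize (o.ap (e.val (R.map I) σ) (f.val (R.map I) σ)).size = S
    generalize e.cost (R.map I) σ = A at h3 ⊢
    generalize f.cost (R.map I) σ = B at h4 ⊢
    have h7 : 1 + S ≤ K1 * I.len * (1 + S) := Nat.le_mul_of_pos_left _ (Nat.mul_pos hK1 h6)
    calc (e.tr R).cost I σ + (f.tr R).cost I σ + 1 + S
        ≤ K1 * I.len * A + K2 * I.len * B + K1 * I.len * (1 + S) := by omega
      _ ≤ (K1 + K2) * I.len * (A + B + 1 + S) := by
          have e1 : (K1 + K2) * I.len * (A + B + 1 + S) =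
            K1 * I.len * A + K2 * I.len * B + K1 * I.len * (1 + S) +
              (K1 * I.len * B + K2 * I.len * A + K2 * I.len * (1 + S)) := by ring
          rw [e1]
          exact Nat.le_add_right _ _

theorem Cmd.run_tr (R : Red) (c : Cmd) : ∃ K : ℕ, 1 ≤ K ∧ ∀ (I : Input), I.Bits →
    ∀ (σ τ : ℕ → ℕ) (s : ℕ), Run (R.map I) c σ τ s → ∃ s', s' ≤ K * I.len * s ∧ Run I (c.tr R) σ τ s' := by
  induction c with
  | set e f =>
    obtain ⟨K1, hK1, h1⟩ := e.cost_tr_le R
    obtain ⟨K2, hK2, h2⟩ := f.cost_tr_le R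
    refine ⟨K1 + K2, by omega, fun I hI σ τ s h => ?_⟩
    cases h
    refine ⟨_, ?_, by
      have h3 := Run.set (I := I) (e.tr R) (f.tr R) σ
      rw [Expr.val_tr, Expr.val_tr] at h3
      exact h3⟩
    have h3 := h1 I hI σ
    have h4 := h2 I hI σ
    have e1 : (K1 + K2) * I.len * (e.cost (R.map I) σ + f.cost (R.map I) σ) =
        K1 * I.len * e.cost (R.map I) σ + K2 * I.len * f.cost (R.map I) σ +
        (K1 * I.len * f.cost (R.map I) σ + K2 * I.len * e.cost (R.map I) σ) := by ring
    rw [e1]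
    omega
  | seq c d ihc ihd =>
    obtain ⟨K1, hK1, h1⟩ := ihc
    obtain ⟨K2, hK2, h2⟩ := ihd
    refine ⟨K1 + K2, by omega, fun I hI σ τ s h => ?_⟩
    cases h with
    | seq h3 h4 =>
      rename_i υ s1 s2
      obtain ⟨t1, ht1, r1⟩ := h1 I hI _ _ _ h3
      obtain ⟨t2, ht2, r2⟩ := h2 I hI _ _ _ h4
      refine ⟨t1 + t2, ?_, Run.seq r1 r2⟩
      have e1 : (K1 + K2) * I.len * (s1 + s2) = K1 * I.len * s1 + K2 * I.len * s2 +
        (K1 * I.len * s2 + K2 * I.len * s1) := by ring
      rw [e1]
      omega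
  | ite e c d ihc ihd =>
    obtain ⟨K0, hK0, h0⟩ := e.cost_tr_le R
    obtain ⟨K1, hK1, h1⟩ := ihc
    obtain ⟨K2, hK2, h2⟩ := ihd
    refine ⟨K0 + K1 + K2, by omega, fun I hI σ τ s h => ?_⟩
    cases h with
    | ite_true h3 h4 =>
      rename_i s1
      obtain ⟨t1, ht1, r1⟩ := h1 I hI _ _ _ h4
      refine ⟨_, ?_, Run.ite_true (by rw [Expr.val_tr]; exact h3) r1⟩
      have h5 := h0 I hI σ
      have e1 : (K0 + K1 + K2) * I.len * (e.cost (R.map I) σ + s1) =
        K0 * I.len * e.cost (R.map I) σ + K1 * I.len * s1 +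
        (K0 * I.len * s1 + K1 * I.len * e.cost (R.map I) σ + K2 * I.len * (e.cost (R.map I) σ + s1)) := by
        ring
      rw [e1]
      omega
    | ite_false h3 h4 =>
      rename_i s1
      obtain ⟨t1, ht1, r1⟩ := h2 I hI _ _ _ h4
      refine ⟨_, ?_, Run.ite_false (by rw [Expr.val_tr]; exact h3) r1⟩
      have h5 := h0 I hI σ
      have e1 : (K0 + K1 + K2) * I.len * (e.cost (R.map I) σ + s1) =
        K0 * I.len * e.cost (R.map I) σ + K2 * I.len * s1 +
        (K0 * I.len * s1 + K2 * I.len * e.cost (R.map I) σ + K1 * I.len * (e.cost (R.map I) σ + s1)) := by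
        ring
      rw [e1]
      omega
  | loop e c ihc =>
    obtain ⟨K0, hK0, h0⟩ := e.cost_tr_le R
    obtain ⟨K1, hK1, h1⟩ := ihc
    refine ⟨K0 + K1, by omega, fun I hI σ τ s h => ?_⟩
    generalize hd : Cmd.loop e c = d at h
    induction h with
    | set => cases hd
    | seq => cases hd
    | ite_true => cases hd
    | ite_false => cases hd
    | loop_stop h3 =>
      rename_i e' c' σ'
      cases hd
      refine ⟨_, ?_, Run.loop_stop (by rw [Expr.val_tr]; exact h3)⟩
      have h5 := h0 I hI σ'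
      have e1 : (K0 + K1) * I.len * (e.cost (R.map I) σ') =
        K0 * I.len * e.cost (R.map I) σ' + K1 * I.len * e.cost (R.map I) σ' := by ring
      rw [e1]
      omega
    | loop_step h3 h4 h5 ih1 ih2 =>
      rename_i e' c' σ' τ' υ' s' t'
      cases hd
      obtain ⟨t1, ht1, r1⟩ := h1 I hI _ _ _ h4
      obtain ⟨t2, ht2, r2⟩ := ih2 rfl
      refine ⟨_, ?_, Run.loop_step (by rw [Expr.val_tr]; exact h3) r1 r2⟩
      have h6 := h0 I hI σ'
      have e1 : (K0 + K1) * I.len * (e.cost (R.map I) σ' + s' + t') =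
        K0 * I.len * e.cost (R.map I) σ' + K1 * I.len * s' + (K0 + K1) * I.len * t' +
        (K1 * I.len * e.cost (R.map I) σ' + K0 * I.len * s') := by ring
      rw [e1]
      omega

/-- The transfer theorem. -/
theorem Outputs.tr (R : Red) (c : Cmd) : ∃ K : ℕ, ∀ (I : Input), I.Bits → ∀ t v : ℕ,
    Outputs c (R.map I) t v → Outputs (c.tr R) I (K * I.len * t) v := by
  obtain ⟨K, hK1, hK⟩ := c.run_tr R
  refine ⟨K, fun I hI t v h => ?_⟩
  obtain ⟨σ, s, h1, h2, h3⟩ := h
  obtain ⟨s', h4, h5⟩ := hK I hI _ _ _ h1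
  exact ⟨σ, s', h5, h4.trans (Nat.mul_le_mul_left _ h2), h3⟩

end Pool.Agent.Lib.MP_f2fc00_lc.Ram
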