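import Pool.Agent.Lib.MP_f2fc00_lc.Back

set_option autoImplicit false

namespace Pool.Agent.Lib.MP_f2fc00_lc

open Finset

section General

variable {V : Type*} [DecidableEq V] {F : Finset (V × V)}

theorem IsEulerian.exists_out (hE : IsEulerian F) {u v : V} (h : (u, v) ∈ F) :
    ∃ w, (v, w) ∈ F := by
  have h1 : 0 < indeg F v := by
    unfold indeg
    rw [card_pos]
    exact ⟨(u, v), by simp [h]⟩
  rw [hE v] at h1
  unfold outdeg at h1
  rw [card_pos] at h1
  obtain ⟨⟨a, b⟩, hab⟩ := h1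
  rw [mem_filter] at hab
  obtain ⟨hab, rfl⟩ := hab
  exact ⟨b, hab⟩

theorem IsEulerian.exists_in (hE : IsEulerian F) {v w : V} (h : (v, w) ∈ F) :
    ∃ u, (u, v) ∈ F := by
  have h1 : 0 < outdeg F v := by
    unfold outdeg
    rw [card_pos]
    exact ⟨(v, w), by simp [h]⟩
  rw [← hE v] at h1
  unfold indeg at h1
  rw [card_pos] at h1
  obtain ⟨⟨a, b⟩, hab⟩ := h1
  rw [mem_filter] at hab
  obtain ⟨hab, rfl⟩ := hab
  exact ⟨a, hab⟩

theorem IsEulerian.two_out (hE : IsEulerian F) {u u' v : V} (h : (u, v) ∈ F) (h' : (u', v) ∈ F)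
    (hne : u ≠ u') : ∃ w w', w ≠ w' ∧ (v, w) ∈ F ∧ (v, w') ∈ F := by
  have h1 : 1 < indeg F v := by
    unfold indeg
    rw [one_lt_card]
    exact ⟨(u, v), by simp [h], (u', v), by simp [h'], by simp [hne]⟩
  rw [hE v] at h1
  unfold outdeg at h1
  rw [one_lt_card] at h1
  obtain ⟨⟨a, b⟩, hab, ⟨a', b'⟩, hab', hn⟩ := h1
  rw [mem_filter] at hab hab'
  obtain ⟨hab, rfl⟩ := hab
  obtain ⟨hab', h2⟩ := hab'
  simp only at h2
  subst h2
  exact ⟨b, b', by rintro rfl; exact hn rfl, hab, hab'⟩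

theorem IsEulerian.two_in (hE : IsEulerian F) {w w' v : V} (h : (v, w) ∈ F) (h' : (v, w') ∈ F)
    (hne : w ≠ w') : ∃ u u', u ≠ u' ∧ (u, v) ∈ F ∧ (u', v) ∈ F := by
  have h1 : 1 < outdeg F v := by
    unfold outdeg
    rw [one_lt_card]
    exact ⟨(v, w), by simp [h], (v, w'), by simp [h'], by simp [hne]⟩
  rw [← hE v] at h1
  unfold indeg at h1
  rw [one_lt_card] at h1
  obtain ⟨⟨a, b⟩, hab, ⟨a', b'⟩, hab', hn⟩ := h1
  rw [mem_filter] at hab hab'
  obtain ⟨hab, rfl⟩ := hab
  obtain ⟨hab', h2⟩ := hab'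
  simp only at h2
  subst h2
  exact ⟨a, a', by rintro rfl; exact hn rfl, hab, hab'⟩

end General

section Main

variable {n m d : ℕ} {A : Fin (2 * n) → Fin m → Bool}
variable {x : Fin n → Bool} {sel : Fin m → Fin (2 * n)}
variable {F : Finset (Outer n m × Outer n m)}

/-- hypotheses on `F` -/
structure Rest (x : Fin n → Bool) (sel : Fin m → Fin (2 * n)) (A : Fin (2 * n) → Fin m → Bool)
    (F : Finset (Outer n m × Outer n m)) : Prop where
  sub : F ⊆ arcs x sel A
  eul : IsEulerian F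
  bal : ∀ κ : Cell n m, ¬ Balanced (tri (arcs x sel A) (κ, Kind.p) (κ, Kind.q) (κ, Kind.t)) F

theorem Rest.arc (h : Rest x sel A F) {u v : Outer n m} (huv : (u, v) ∈ F) : arcP x sel A u v :=
  mem_arcs.mp (h.sub huv)

/-- for the cells of false variables -/
theorem Rest.t_iff (h : Rest x sel A F) {κ : Cell n m} (hx : ¬ X x κ.1) :
    ((κ, Kind.p), (κ, Kind.t)) ∈ F ↔ ((κ, Kind.t), (κ, Kind.q)) ∈ F := by
  constructor
  · intro h1
    obtain ⟨⟨κ', k'⟩, h2⟩ := h.eul.exists_out h1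
    have h3 := h.arc h2
    unfold arcP at h3
    cases k' <;> simp only [hx, and_false, not_false_iff, and_true] at h3
    rw [← h3] at h2; exact h2
  · intro h1
    obtain ⟨⟨κ', k'⟩, h2⟩ := h.eul.exists_in h1
    have h3 := h.arc h2
    unfold arcP at h3
    cases k' <;> simp only at h3
    · rw [h3.1] at h2; exact h2
    · rw [h3.1] at h3; exact absurd h3.2 hx

theorem Rest.t_iff' (h : Rest x sel A F) {κ : Cell n m} (hx : X x κ.1) :
    ((κ, Kind.q), (κ, Kind.t)) ∈ F ↔ ((κ, Kind.t), (κ, Kind.p)) ∈ F := by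
  constructor
  · intro h1
    obtain ⟨⟨κ', k'⟩, h2⟩ := h.eul.exists_out h1
    have h3 := h.arc h2
    unfold arcP at h3
    cases k' <;> simp only [hx, and_false, not_true, and_true] at h3
    rw [← h3] at h2; exact h2
  · intro h1
    obtain ⟨⟨κ', k'⟩, h2⟩ := h.eul.exists_in h1
    have h3 := h.arc h2
    unfold arcP at h3
    cases k' <;> simp only at h3
    · rw [h3.1] at h3; exact absurd hx h3.2
    · rw [h3.1] at h2; exact h2

theorem Rest.pq_iff (h : Rest x sel A F) {κ : Cell n m} (hx : ¬ X x κ.1) :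
    ((κ, Kind.p), (κ, Kind.q)) ∈ F ↔ ((κ, Kind.p), (κ, Kind.t)) ∈ F := by
  have hD := arcs_isOrientation (A := A) (x := x) (sel := sel)
  have h1 := h.t_iff hx
  have a1 : ((κ, Kind.p), (κ, Kind.q)) ∈ arcs x sel A := mem_arcs.mpr (Or.inl ⟨rfl, hx⟩)
  have a2 : ((κ, Kind.p), (κ, Kind.t)) ∈ arcs x sel A := mem_arcs.mpr ⟨rfl, hx⟩
  have a3 : ((κ, Kind.t), (κ, Kind.q)) ∈ arcs x sel A := mem_arcs.mpr ⟨rfl, hx⟩
  by_contra hne
  apply h.bal κ
  apply balanced_of_cyclic hD h.sub (adj_pq κ) (adj_pt κ) (adj_qt κ)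
  simp only [mem_rev]
  tauto

theorem Rest.qp_iff (h : Rest x sel A F) {κ : Cell n m} (hx : X x κ.1) :
    ((κ, Kind.q), (κ, Kind.p)) ∈ F ↔ ((κ, Kind.q), (κ, Kind.t)) ∈ F := by
  have hD := arcs_isOrientation (A := A) (x := x) (sel := sel)
  have h1 := h.t_iff' hx
  have a1 : ((κ, Kind.q), (κ, Kind.p)) ∈ arcs x sel A := mem_arcs.mpr (Or.inl ⟨rfl, hx⟩)
  have a2 : ((κ, Kind.q), (κ, Kind.t)) ∈ arcs x sel A := mem_arcs.mpr ⟨rfl, hx⟩
  have a3 : ((κ, Kind.t), (κ, Kind.p)) ∈ arcs x sel A := mem_arcs.mpr ⟨rfl, hx⟩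
  by_contra hne
  apply h.bal κ
  apply balanced_of_cyclic hD h.sub (adj_pq κ) (adj_pt κ) (adj_qt κ)
  simp only [mem_rev]
  tauto

/-- no arc of the cell triangle lies in `F` (false variables) -/
theorem Rest.no_tri (h : Rest x sel A F) {κ : Cell n m} (hx : ¬ X x κ.1) :
    ((κ, Kind.p), (κ, Kind.q)) ∉ F ∧ ((κ, Kind.p), (κ, Kind.t)) ∉ F ∧
      ((κ, Kind.t), (κ, Kind.q)) ∉ F := by
  have h1 := h.t_iff hx
  have h2 := h.pq_iff hx
  have key : ((κ, Kind.p), (κ, Kind.q)) ∉ F := by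
    intro h3
    have h4 := h2.mp h3
    have h5 := h1.mp h4
    rcases Nat.mod_two_eq_zero_or_one κ.1.val with hr | hr
    · obtain ⟨⟨κ1, k1⟩, ⟨κ2, k2⟩, hne, g1, g2⟩ := h.eul.two_out h3 h5 (by simp)
      have f1 := h.arc g1
      have f2 := h.arc g2
      unfold arcP at f1 f2
      have hr' : ¬ (κ.1.val % 2 = 1) := by omega
      cases k1 <;> cases k2 <;>
        simp only [hx, hr', and_false, false_and, false_or, not_false_iff, and_true] at f1 f2
      exact hne (by rw [f1.inj_right f2])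
    · obtain ⟨⟨κ1, k1⟩, ⟨κ2, k2⟩, hne, g1, g2⟩ := h.eul.two_in h3 h4 (by simp)
      have f1 := h.arc g1
      have f2 := h.arc g2
      unfold arcP at f1 f2
      have hr' : ¬ (κ.1.val % 2 = 0) := by omega
      have e1 : ∀ κ' : Cell n m, κ' = κ → ¬ X x κ'.1 := by rintro _ rfl; exact hx
      have e2 : ∀ κ' : Cell n m, κ' = κ → ¬ (κ'.1.val % 2 = 0) := by rintro _ rfl; exact hr'
      cases k1 <;> cases k2 <;> simp only at f1 f2
      · rcases f1 with f1 | f1
        · exact e1 _ f1.1 f1.2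
        · rcases f2 with f2 | f2
          · exact e1 _ f2.1 f2.2
          · exact hne (by rw [f1.1.inj_left f2.1])
      · exact e1 _ f2.1 f2.2
      · exact e2 _ f2.1 f2.2.2.1
      · exact e1 _ f1.1 f1.2
      · exact e1 _ f1.1 f1.2
      · exact e1 _ f1.1 f1.2
      · exact e2 _ f1.1 f1.2.2.1
      · exact e2 _ f1.1 f1.2.2.1
      · exact e2 _ f1.1 f1.2.2.1
  tauto

/-- no arc of the cell triangle lies in `F` (true variables) -/
theorem Rest.no_tri' (h : Rest x sel A F) {κ : Cell n m} (hx : X x κ.1) :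
    ((κ, Kind.q), (κ, Kind.p)) ∉ F ∧ ((κ, Kind.q), (κ, Kind.t)) ∉ F ∧
      ((κ, Kind.t), (κ, Kind.p)) ∉ F := by
  have h1 := h.t_iff' hx
  have h2 := h.qp_iff hx
  have key : ((κ, Kind.q), (κ, Kind.p)) ∉ F := by
    intro h3
    have h4 := h2.mp h3
    have h5 := h1.mp h4
    rcases Nat.mod_two_eq_zero_or_one κ.1.val with hr | hr
    · obtain ⟨⟨κ1, k1⟩, ⟨κ2, k2⟩, hne, g1, g2⟩ := h.eul.two_in h3 h4 (by simp)
      have f1 := h.arc g1
      have f2 := h.arc g2
      unfold arcP at f1 f2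
      have hr' : ¬ (κ.1.val % 2 = 1) := by omega
      have e1 : ∀ κ' : Cell n m, κ' = κ → X x κ'.1 := by rintro _ rfl; exact hx
      have e2 : ∀ κ' : Cell n m, κ' = κ → ¬ (κ'.1.val % 2 = 1) := by rintro _ rfl; exact hr'
      cases k1 <;> cases k2 <;> simp only at f1 f2
      · rcases f1 with f1 | f1
        · exact f1.2 (e1 _ f1.1)
        · rcases f2 with f2 | f2
          · exact f2.2 (e1 _ f2.1)
          · exact hne (by rw [f1.1.inj_right f2.1])
      · exact f2.2 (e1 _ f2.1)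
      · exact e2 _ f2.1 f2.2.2.1
      · exact f1.2 (e1 _ f1.1)
      · exact f1.2 (e1 _ f1.1)
      · exact f1.2 (e1 _ f1.1)
      · exact e2 _ f1.1 f1.2.2.1
      · exact e2 _ f1.1 f1.2.2.1
      · exact e2 _ f1.1 f1.2.2.1
    · obtain ⟨⟨κ1, k1⟩, ⟨κ2, k2⟩, hne, g1, g2⟩ := h.eul.two_out h3 h5 (by simp)
      have f1 := h.arc g1
      have f2 := h.arc g2
      unfold arcP at f1 f2
      have hr' : ¬ (κ.1.val % 2 = 0) := by omega
      cases k1 <;> cases k2 <;>
        simp only [hx, hr', and_false, false_and, false_or, not_true, and_true] at f1 f2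
      exact hne (by rw [f1.inj_left f2])
  tauto

/-- no arc between vertices of kinds `p`, `q` lies in `F` -/
theorem Rest.no_pq (h : Rest x sel A F) {κ κ' : Cell n m} :
    ((κ, Kind.p), (κ', Kind.q)) ∉ F ∧ ((κ', Kind.q), (κ, Kind.p)) ∉ F := by
  constructor
  · intro h1
    have h2 := h.arc h1
    unfold arcP at h2
    simp only at h2
    rcases h2 with ⟨rfl, hx⟩ | ⟨hn, hx⟩
    · exact (h.no_tri hx).1 h1
    · -- `Next κ' κ`, the variable is true
      have hx' : X x κ'.1 := hn.X_iff.mp hx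
      rcases Nat.mod_two_eq_zero_or_one κ'.1.val with hr | hr
      · obtain ⟨⟨κ1, k1⟩, g1⟩ := h.eul.exists_out h1
        have f1 := h.arc g1
        unfold arcP at f1
        cases k1 <;> simp only at f1
        · rcases f1 with f1 | f1
          · rw [← f1.1] at g1; exact (h.no_tri' hx').1 g1
          · exact f1.2 hx'
        · rw [← f1.1] at g1; exact (h.no_tri' hx').2.1 g1
        · have := f1.2.2.1; omega
      · -- then the row of `κ` is odd
        have hr' : κ.1.val % 2 = 1 := by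
          rcases hn with hn | hn
          · rw [hn.1]; exact hr
          · omega
        obtain ⟨⟨κ1, k1⟩, g1⟩ := h.eul.exists_in h1
        have f1 := h.arc g1
        unfold arcP at f1
        cases k1 <;> simp only at f1
        · rcases f1 with f1 | f1
          · rw [f1.1] at g1; exact (h.no_tri' hx).1 g1
          · exact f1.2 (f1.1.X_iff.mp hx)
        · rw [f1.1] at g1; exact (h.no_tri' hx).2.2 g1
        · have := f1.2.2.1
          rw [f1.1] at this; omega
  · intro h1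
    have h2 := h.arc h1
    unfold arcP at h2
    simp only at h2
    rcases h2 with ⟨rfl, hx⟩ | ⟨hn, hx⟩
    · exact (h.no_tri' hx).1 h1
    · -- `Next κ' κ`, the variable is false
      have hx' : ¬ X x κ.1 := fun h' => hx (hn.X_iff.mp h')
      rcases Nat.mod_two_eq_zero_or_one κ'.1.val with hr | hr
      · obtain ⟨⟨κ1, k1⟩, g1⟩ := h.eul.exists_in h1
        have f1 := h.arc g1
        unfold arcP at f1
        cases k1 <;> simp only at f1
        · rcases f1 with f1 | f1
          · rw [f1.1] at g1; exact (h.no_tri hx).1 g1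
          · exact hx (f1.1.X_iff.mp f1.2)
        · rw [f1.1] at g1; exact (h.no_tri hx).2.2 g1
        · have := f1.2.2.1
          rw [f1.1] at this; omega
      · have hr' : κ.1.val % 2 = 1 := by
          rcases hn with hn | hn
          · rw [hn.1]; exact hr
          · omega
        obtain ⟨⟨κ1, k1⟩, g1⟩ := h.eul.exists_out h1
        have f1 := h.arc g1
        unfold arcP at f1
        cases k1 <;> simp only at f1
        · rcases f1 with f1 | f1
          · rw [← f1.1] at g1; exact (h.no_tri hx').1 g1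
          · exact hx' f1.2
        · rw [← f1.1] at g1; exact (h.no_tri hx').2.1 g1
        · have := f1.2.2.1; omega

theorem Rest.no_pt (h : Rest x sel A F) {κ κ' : Cell n m} :
    ((κ, Kind.p), (κ', Kind.t)) ∉ F ∧ ((κ', Kind.t), (κ, Kind.p)) ∉ F := by
  constructor
  · intro h1
    have h2 := h.arc h1
    unfold arcP at h2
    simp only at h2
    obtain ⟨rfl, hx⟩ := h2
    exact (h.no_tri hx).2.1 h1
  · intro h1
    have h2 := h.arc h1
    unfold arcP at h2
    simp only at h2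
    obtain ⟨rfl, hx⟩ := h2
    exact (h.no_tri' hx).2.2 h1

theorem Rest.no_qt (h : Rest x sel A F) {κ κ' : Cell n m} :
    ((κ, Kind.q), (κ', Kind.t)) ∉ F ∧ ((κ', Kind.t), (κ, Kind.q)) ∉ F := by
  constructor
  · intro h1
    have h2 := h.arc h1
    unfold arcP at h2
    simp only at h2
    obtain ⟨rfl, hx⟩ := h2
    exact (h.no_tri' hx).2.1 h1
  · intro h1
    have h2 := h.arc h1
    unfold arcP at h2
    simp only at h2
    obtain ⟨rfl, hx⟩ := h2
    exact (h.no_tri hx).2.2 h1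

theorem Rest.no_pc (h : Rest x sel A F) {κ κ' : Cell n m} :
    ((κ, Kind.p), (κ', Kind.c)) ∉ F ∧ ((κ', Kind.c), (κ, Kind.p)) ∉ F := by
  constructor
  · intro h1
    obtain ⟨⟨κ1, k1⟩, g1⟩ := h.eul.exists_in h1
    have f1 := h.arc g1
    have f2 := h.arc h1
    unfold arcP at f1 f2
    cases k1 <;> simp only at f1 f2
    · exact h.no_pq.2 g1
    · exact h.no_pt.2 g1
    · have := f1.2.2.2
      rw [f1.1] at this
      exact this f2.2.2.2
  · intro h1
    obtain ⟨⟨κ1, k1⟩, g1⟩ := h.eul.exists_out h1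
    have f1 := h.arc g1
    have f2 := h.arc h1
    unfold arcP at f1 f2
    cases k1 <;> simp only at f1 f2
    · exact h.no_pq.1 g1
    · exact h.no_pt.1 g1
    · have := f2.2.2.2
      rw [f2.1] at this
      exact this f1.2.2.2

theorem Rest.no_qc (h : Rest x sel A F) {κ κ' : Cell n m} :
    ((κ, Kind.q), (κ', Kind.c)) ∉ F ∧ ((κ', Kind.c), (κ, Kind.q)) ∉ F := by
  constructor
  · intro h1
    obtain ⟨⟨κ1, k1⟩, g1⟩ := h.eul.exists_in h1
    have f1 := h.arc g1
    have f2 := h.arc h1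
    unfold arcP at f1 f2
    cases k1 <;> simp only at f1 f2
    · exact h.no_pq.1 g1
    · exact h.no_qt.2 g1
    · have := f1.2.2.2
      rw [f1.1] at this
      exact this f2.2.2.2
  · intro h1
    obtain ⟨⟨κ1, k1⟩, g1⟩ := h.eul.exists_out h1
    have f1 := h.arc g1
    have f2 := h.arc h1
    unfold arcP at f1 f2
    cases k1 <;> simp only at f1 f2
    · exact h.no_pq.2 g1
    · exact h.no_qt.1 g1
    · have := f2.2.2.2
      rw [f2.1] at this
      exact this f1.2.2.2

theorem Rest.eq_empty (h : Rest x sel A F) : F = ∅ := by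
  have key : ∀ a ∈ F, a.1.2 = Kind.c ∧ a.2.2 = Kind.c := by
    rintro ⟨⟨κ, k⟩, ⟨κ', k'⟩⟩ ha
    have f := h.arc ha
    unfold arcP at f
    cases k <;> cases k' <;> simp only at f ⊢
    · exact absurd ha h.no_pq.1
    · exact absurd ha h.no_pt.1
    · exact absurd ha h.no_pc.1
    · exact absurd ha h.no_pq.2
    · exact absurd ha h.no_qt.1
    · exact absurd ha h.no_qc.1
    · exact absurd ha h.no_pt.2
    · exact absurd ha h.no_qt.2
    · exact absurd ha h.no_pc.2
    · exact absurd ha h.no_qc.2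
    · simp
  have h1 := h.eul.sum_potential
    (fun v : Outer n m => - |(v.1.1.val : ℤ) - ((sel v.1.2).val : ℤ)|)
  have h2 : ∀ a ∈ F, (- |(a.1.1.1.val : ℤ) - ((sel a.1.1.2).val : ℤ)|
      - - |(a.2.1.1.val : ℤ) - ((sel a.2.1.2).val : ℤ)|) = 1 := by
    rintro ⟨⟨κ, k⟩, ⟨κ', k'⟩⟩ ha
    have f := h.arc ha
    obtain ⟨h3, h4⟩ := key _ ha
    simp only at h3 h4
    subst h3 h4
    unfold arcP at f
    simp only at f ⊢
    obtain ⟨e, ⟨f1, f2⟩ | ⟨f1, f2⟩⟩ := f
    · rw [← e]
      rw [abs_of_nonneg (by omega), abs_of_nonneg (by omega)]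
      omega
    · rw [← e]
      rw [abs_of_nonpos (by omega), abs_of_nonpos (by omega)]
      omega
  rw [sum_congr rfl h2] at h1
  simpa using h1

end Main

section Final

variable {n m d : ℕ} {A : Fin (2 * n) → Fin m → Bool}

theorem SE_arcs {x : Fin n → Bool} {sel : Fin m → Fin (2 * n)} : SE (arcs x sel A) = 1 := by
  classical
  have hD := arcs_isOrientation (A := A) (x := x) (sel := sel)
  let T : Cell n m → Finset (Outer n m × Outer n m) := fun κ =>
    tri (arcs x sel A) (κ, Kind.p) (κ, Kind.q) (κ, Kind.t)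
  have hT := SE_cancel (arcs x sel A) (univ : Finset (Cell n m)) T
    (fun κ _ => tri_subset hD (adj_pq κ) (adj_pt κ) (adj_qt κ))
    (fun κ _ => by
      rw [card_tri (adj_pq (A := A) κ).ne (adj_pt (A := A) κ).ne (adj_qt (A := A) κ).ne]
      decide)
    (fun κ _ κ' _ hne => by
      rw [Finset.disjoint_left]
      intro a ha ha'
      have h1 := mem_tri_fst ha
      have h2 := mem_tri_fst ha'
      apply hne
      have e1 : a.1.1 = κ := by rcases h1 with h | h | h <;> rw [h]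
      have e2 : a.1.1 = κ' := by rcases h2 with h | h | h <;> rw [h]
      rw [← e1, ← e2])
  rw [hT]
  apply SEgood_eq_one
  · intro κ _ hB
    simp only [T] at hB
    have hpq := adj_pq (A := A) κ
    have hpt := adj_pt (A := A) κ
    have hqt := adj_qt (A := A) κ
    obtain ⟨h1, h2, h3⟩ := tri_ne (D := arcs x sel A) hpq.ne hpt.ne hqt.ne
    have ht := hB (κ, Kind.p)
    unfold tri at ht
    rw [sum_insert (by simp [h1, h2]), sum_insert (by simpa using h3), sum_singleton] at ht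
    by_cases hx : X x κ.1
    · have a1 : ((κ, Kind.p), (κ, Kind.q)) ∉ arcs x sel A := by
        rw [mem_arcs]; unfold arcP; simp [hx, Next.irrefl]
      have a2 : ((κ, Kind.p), (κ, Kind.t)) ∉ arcs x sel A := by
        rw [mem_arcs]; unfold arcP; simp [hx]
      have a3 : ((κ, Kind.q), (κ, Kind.t)) ∈ arcs x sel A := by
        rw [mem_arcs]; unfold arcP; simp [hx]
      simp [arcOf, a1, a2, a3, eps, bd] at ht
    · have a1 : ((κ, Kind.p), (κ, Kind.q)) ∈ arcs x sel A := by
        rw [mem_arcs]; unfold arcP; simp [hx]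
      have a2 : ((κ, Kind.p), (κ, Kind.t)) ∈ arcs x sel A := by
        rw [mem_arcs]; unfold arcP; simp [hx]
      have a3 : ((κ, Kind.q), (κ, Kind.t)) ∉ arcs x sel A := by
        rw [mem_arcs]; unfold arcP; simp [hx]
      simp [arcOf, a1, a2, a3, eps, bd] at ht
  · intro F hF hE hB
    exact (⟨hF, hE, fun κ => hB κ (mem_univ _)⟩ : Rest x sel A F).eq_empty

theorem outer_iff (hd : 2 ≤ d) (hn : 0 < n) :
    (∃ D : Finset (Outer n m × Outer n m), IsOrientation (outerGraph A) D ∧ EE D ≠ EO D ∧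
      ∀ w, outdeg D w + cost d A w ≤ d) ↔ Satisfiable A := by
  constructor
  · rintro ⟨D, hD, hE, hdeg⟩
    obtain ⟨O, hO⟩ := exists_good hD hE hdeg
    exact hO.satisfiable hd hn
  · rintro ⟨x, hx⟩
    choose sel hsel using hx
    refine ⟨arcs x sel A, arcs_isOrientation, ?_, outdeg_arcs hd hn hsel⟩
    rw [← SE_ne_zero_iff, SE_arcs]
    exact one_ne_zero

end Final

end Pool.Agent.Lib.MP_f2fc00_lc
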